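import Mathlib
import Pool.Agent.Q261.AS.Mass

/-!
# Hausdorff dimension of the points which lie in all sets of a sequence, if each of the sets meets
every short window in an interval
-/

set_option autoImplicit false

namespace Pool.Agent.Q273.CG

open Set Filter Topology MeasureTheory
open scoped ENNReal NNReal

/-- a function of finitely many coordinates is measurable -/
lemma measurable_of_dep {T : ℕ → ℕ} (hT : ∀ n, 0 < T n) {g : (∀ n, Fin (T n)) → ℝ} (n : ℕ)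
    (h : ∀ ω ω' : ∀ n, Fin (T n), (∀ i < n, ω i = ω' i) → g ω = g ω') : Measurable g := by
  classical
  set ρ : (∀ n, Fin (T n)) → (∀ i : Fin n, Fin (T i)) := fun ω i => ω i with hρ
  set e : (∀ i : Fin n, Fin (T i)) → (∀ n, Fin (T n)) := fun f i =>
    if hi : i < n then f ⟨i, hi⟩ else ⟨0, hT i⟩ with he
  have h1 : g = (fun f => g (e f)) ∘ ρ := by
    funext ω
    apply h
    intro i hi
    simp [he, hρ, hi]
  rw [h1]
  refine Measurable.comp (measurable_of_finite _) ?_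
  exact measurable_pi_lambda _ fun i => measurable_pi_apply _

/-- The points of `[a, b]` in all the sets `A n`: if every window of length `Δ n` contains an
interval of length `ℓ (n + 1)` of `A n` and `∏_{i < n} T i ≥ c (ℓ n)^(-s)`, where `T i` is about
`ℓ i / Δ i`, the dimension is at least `s`. -/
theorem le_dimH_all {a b c : ℝ} {s : ℝ≥0} (hs : 0 < s) (hs1 : (s : ℝ) ≤ 1) (hc : 0 < c)
    (ℓ Δ : ℕ → ℝ) (T : ℕ → ℕ)
    (A : ℕ → Set ℝ) (hℓ : ∀ n, 0 < ℓ n) (hℓ0 : Tendsto ℓ atTop (𝓝 0)) (hab : ℓ 0 ≤ b - a)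
    (hΔ : ∀ n, 0 < Δ n) (hT : ∀ n, 2 * T n * Δ n ≤ ℓ n) (hT' : ∀ n, ℓ n ≤ 8 * T n * Δ n)
    (hprod : ∀ n, c * (ℓ n) ^ (-(s : ℝ)) ≤ ∏ i ∈ Finset.range n, (T i : ℝ))
    (hA : ∀ n w, a ≤ w → w + Δ n ≤ b → ∃ w', w ≤ w' ∧ w' + ℓ (n + 1) ≤ w + Δ n ∧
      Icc w' (w' + ℓ (n + 1)) ⊆ A n) :
    (s : ℝ≥0∞) ≤ dimH {α : ℝ | a ≤ α ∧ α ≤ b ∧ ∀ n, α ∈ A n} := by
  classical
  have hs0 : (0 : ℝ) < s := by exact_mod_cast hs
  have hTpos : ∀ n, 0 < T n := by
    intro n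
    rcases Nat.eq_zero_or_pos (T n) with h | h
    · have h1 := hT' n
      rw [h] at h1
      have := hℓ n
      simp at h1
      linarith
    · exact h
  have hTr : ∀ n, (1 : ℝ) ≤ T n := fun n => by exact_mod_cast hTpos n
  -- the choice of the children
  have hA' : ∀ n w, ∃ w', (a ≤ w → w + Δ n ≤ b → w ≤ w' ∧ w' + ℓ (n + 1) ≤ w + Δ n ∧
      Icc w' (w' + ℓ (n + 1)) ⊆ A n) := by
    intro n w
    by_cases h : a ≤ w ∧ w + Δ n ≤ b
    · obtain ⟨w', hw'⟩ := hA n w h.1 h.2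
      exact ⟨w', fun _ _ => hw'⟩
    · exact ⟨0, fun h1 h2 => absurd ⟨h1, h2⟩ h⟩
  choose φ hφ using hA'
  let Lf : ℕ → (∀ n, Fin (T n)) → ℝ := fun n => Nat.rec (fun _ => a)
    (fun n L ω => φ n (L ω + 2 * ((ω n : ℕ) : ℝ) * Δ n)) n
  have hL0 : ∀ ω, Lf 0 ω = a := fun ω => rfl
  have hLs : ∀ n ω, Lf (n + 1) ω = φ n (Lf n ω + 2 * ((ω n : ℕ) : ℝ) * Δ n) := fun n ω => rfl
  -- the windows lie in the parent
  have hwin : ∀ (n : ℕ) (ω : ∀ n, Fin (T n)),
      2 * ((ω n : ℕ) : ℝ) * Δ n + 2 * Δ n ≤ ℓ n := by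
    intro n ω
    have h1 : ((ω n : ℕ) : ℝ) + 1 ≤ T n := by exact_mod_cast (ω n).2
    have h2 := hT n
    have h3 := hΔ n
    calc 2 * ((ω n : ℕ) : ℝ) * Δ n + 2 * Δ n = 2 * (((ω n : ℕ) : ℝ) + 1) * Δ n := by ring
      _ ≤ 2 * T n * Δ n := by gcongr
      _ ≤ ℓ n := h2
  have hin : ∀ (n : ℕ) (ω : ∀ n, Fin (T n)), a ≤ Lf n ω ∧ Lf n ω + ℓ n ≤ b := by
    intro n ω
    induction n with
    | zero => rw [hL0]; exact ⟨le_refl _, by linarith⟩
    | succ n ih =>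
      rw [hLs]
      have h1 := hwin n ω
      have h3 := hΔ n
      have h2 : (0 : ℝ) ≤ 2 * ((ω n : ℕ) : ℝ) * Δ n := by positivity
      obtain ⟨h4, h5, -⟩ := hφ n (Lf n ω + 2 * ((ω n : ℕ) : ℝ) * Δ n) (by linarith [ih.1])
        (by linarith [ih.2])
      exact ⟨by linarith [ih.1], by linarith [ih.2]⟩
  have hstep : ∀ (n : ℕ) (ω : ∀ n, Fin (T n)),
      Lf n ω + 2 * ((ω n : ℕ) : ℝ) * Δ n ≤ Lf (n + 1) ω ∧
      Lf (n + 1) ω + ℓ (n + 1) ≤ Lf n ω + 2 * ((ω n : ℕ) : ℝ) * Δ n + Δ n ∧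
      Icc (Lf (n + 1) ω) (Lf (n + 1) ω + ℓ (n + 1)) ⊆ A n := by
    intro n ω
    rw [hLs]
    have h1 := hwin n ω
    have h3 := hΔ n
    have h2 : (0 : ℝ) ≤ 2 * ((ω n : ℕ) : ℝ) * Δ n := by positivity
    exact hφ n (Lf n ω + 2 * ((ω n : ℕ) : ℝ) * Δ n) (by linarith [(hin n ω).1])
        (by linarith [(hin n ω).2])
  have hmono : ∀ ω, Monotone (fun n => Lf n ω) := by
    intro ω
    apply monotone_nat_of_le_succ
    intro n
    have h1 := (hstep n ω).1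
    have h3 := hΔ n
    have h2 : (0 : ℝ) ≤ 2 * ((ω n : ℕ) : ℝ) * Δ n := by positivity
    linarith
  have hanti : ∀ ω, Antitone (fun n => Lf n ω + ℓ n) := by
    intro ω
    apply antitone_nat_of_succ_le
    intro n
    have h1 := (hstep n ω).2.1
    have h2 := hwin n ω
    have h3 := hΔ n
    linarith
  -- the limit points
  have hbdd : ∀ ω, BddAbove (range fun n => Lf n ω) := by
    intro ω
    refine ⟨b, ?_⟩
    rintro _ ⟨n, rfl⟩
    have := (hin n ω).2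
    have := hℓ n
    simp only
    linarith
  set π : (∀ n, Fin (T n)) → ℝ := fun ω => ⨆ n, Lf n ω with hπ
  have hlim : ∀ ω, Tendsto (fun n => Lf n ω) atTop (𝓝 (π ω)) := fun ω =>
    tendsto_atTop_ciSup (hmono ω) (hbdd ω)
  have hπ1 : ∀ n ω, Lf n ω ≤ π ω := fun n ω => le_ciSup (hbdd ω) n
  have hπ2 : ∀ n ω, π ω ≤ Lf n ω + ℓ n := by
    intro n ω
    have h1 : Tendsto (fun n => Lf n ω + ℓ n) atTop (𝓝 (π ω + 0)) := (hlim ω).add hℓ0
    rw [add_zero] at h1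
    exact (hanti ω).le_of_tendsto h1 n
  have hdep : ∀ (n : ℕ) (ω ω' : ∀ n, Fin (T n)), (∀ i < n, ω i = ω' i) → Lf n ω = Lf n ω' := by
    intro n ω ω' h
    induction n with
    | zero => rw [hL0, hL0]
    | succ n ih =>
      rw [hLs, hLs, ih (fun i hi => h i (by omega)), h n (by omega)]
  have hπm : Measurable π :=
    measurable_of_tendsto_metrizable (f := fun n => Lf n) (fun n => measurable_of_dep hTpos n (hdep n))
      (tendsto_pi_nhds.2 hlim)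
  -- product of the branching numbers
  have hprodpos : ∀ n, 0 < ∏ i ∈ Finset.range n, (T i : ℝ) := fun n =>
    Finset.prod_pos fun i _ => by linarith [hTr i]
  have hpeq : ∀ n, ∏ i ∈ Finset.range n, (1 / (T i : ℝ)) = (∏ i ∈ Finset.range n, (T i : ℝ))⁻¹ := by
    intro n
    rw [← Finset.prod_inv_distrib]
    exact Finset.prod_congr rfl fun i _ => one_div _
  have hple : ∀ n, ∏ i ∈ Finset.range n, (1 / (T i : ℝ)) ≤ c⁻¹ * (ℓ n) ^ (s : ℝ) := by
    intro n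
    rw [hpeq, inv_le_comm₀ (hprodpos n) (mul_pos (inv_pos.2 hc) (Real.rpow_pos_of_pos (hℓ n) _)),
      mul_inv, inv_inv, ← Real.rpow_neg (hℓ n).le]
    exact hprod n
  refine Q261.Asy.le_dimH_of_levels T (fun n _ => 1 / (T n : ℝ)) (fun n v => by positivity)
    (fun n => ?_) (π := π) hπm hs (C := 2 * 8 ^ (s : ℝ) * c⁻¹) (by positivity) (fun ω => ?_)
    (fun n ω ω' h hlt => ?_) _ (fun ω => ?_)
  · have h2 : (T n : ℝ) ≠ 0 := by linarith [hTr n]
    simp [h2]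
  · -- the cylinders shrink
    refine squeeze_zero (fun n => Finset.prod_nonneg fun i _ => by positivity) hple ?_
    have h1 : Tendsto (fun n => (ℓ n) ^ (s : ℝ)) atTop (𝓝 ((0 : ℝ) ^ (s : ℝ))) :=
      hℓ0.rpow_const (Or.inr hs0.le)
    rw [Real.zero_rpow hs0.ne'] at h1
    simpa using h1.const_mul c⁻¹
  · -- the main inequality
    have hTn : (0 : ℝ) < T n := by linarith [hTr n]
    set d : ℝ := ((ω' n : ℕ) : ℝ) - ((ω n : ℕ) : ℝ) with hd
    have hlt' : (ω n : ℕ) < (ω' n : ℕ) := hlt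
    have hd1 : 1 ≤ d := by
      have h6 : ((ω n : ℕ) : ℝ) + 1 ≤ ((ω' n : ℕ) : ℝ) := by exact_mod_cast hlt'
      linarith
    have hdT : d ≤ T n := by
      have h6 : ((ω' n : ℕ) : ℝ) ≤ T n := by exact_mod_cast (ω' n).2.le
      have h7 : (0 : ℝ) ≤ ((ω n : ℕ) : ℝ) := Nat.cast_nonneg _
      linarith
    have hsum : ∑ v ∈ Finset.Icc (ω n) (ω' n), 1 / (T n : ℝ) = (d + 1) / T n := by
      rw [Finset.sum_const, Fin.card_Icc, nsmul_eq_mul]
      have : (((ω' n : ℕ) + 1 - (ω n : ℕ) : ℕ) : ℝ) = d + 1 := by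
        rw [Nat.cast_sub (by omega)]
        push_cast
        rw [hd]
        ring
      rw [this]
      ring
    have hsep : d * Δ n ≤ |π ω - π ω'| := by
      rw [abs_sub_comm]
      refine le_trans ?_ (le_abs_self _)
      have h1 := hπ2 (n + 1) ω
      have h2 := (hstep n ω).2.1
      have h3 := hπ1 (n + 1) ω'
      have h4 := (hstep n ω').1
      rw [hdep n ω ω' h] at h2
      have h5 : 2 * ((ω' n : ℕ) : ℝ) * Δ n - 2 * ((ω n : ℕ) : ℝ) * Δ n = 2 * (d * Δ n) := by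
        rw [hd]; ring
      have h6 : Δ n ≤ d * Δ n := by
        have := hΔ n
        nlinarith
      linarith
    have h1 : (d + 1) / T n ≤ 2 * (d / T n) ^ (s : ℝ) := by
      have h2 : (d + 1) / T n ≤ 2 * (d / T n) := by
        rw [← mul_div_assoc]
        apply div_le_div_of_nonneg_right _ hTn.le
        linarith
      refine h2.trans ?_
      apply mul_le_mul_of_nonneg_left _ (by norm_num)
      have h3 : d / T n ≤ 1 := by
        rw [div_le_one hTn]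
        exact hdT
      calc d / T n = (d / T n) ^ (1 : ℝ) := (Real.rpow_one _).symm
        _ ≤ (d / T n) ^ (s : ℝ) :=
            Real.rpow_le_rpow_of_exponent_ge (by positivity) h3 hs1
    have h4 : ℓ n * (d / T n) ≤ 8 * (d * Δ n) := by
      rw [mul_div_assoc', div_le_iff₀ hTn]
      have := hT' n
      have hd0 : 0 ≤ d := by linarith
      nlinarith
    rw [hsum]
    have h5 : (ℓ n) ^ (s : ℝ) * (d / T n) ^ (s : ℝ) ≤ 8 ^ (s : ℝ) * |π ω - π ω'| ^ (s : ℝ) := by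
      have hd0 : 0 ≤ d := by linarith
      rw [← Real.mul_rpow (hℓ n).le (by positivity), ← Real.mul_rpow (by norm_num) (abs_nonneg _)]
      apply Real.rpow_le_rpow (mul_nonneg (hℓ n).le (by positivity)) _ hs0.le
      linarith
    calc (∏ i ∈ Finset.range n, 1 / (T i : ℝ)) * ((d + 1) / T n)
        ≤ (c⁻¹ * (ℓ n) ^ (s : ℝ)) * (2 * (d / T n) ^ (s : ℝ)) :=
          mul_le_mul (hple n) h1 (by positivity)
            (mul_nonneg (inv_nonneg.2 hc.le) (Real.rpow_nonneg (hℓ n).le _))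
      _ = 2 * c⁻¹ * ((ℓ n) ^ (s : ℝ) * (d / T n) ^ (s : ℝ)) := by ring
      _ ≤ 2 * c⁻¹ * (8 ^ (s : ℝ) * |π ω - π ω'| ^ (s : ℝ)) :=
          mul_le_mul_of_nonneg_left h5 (by positivity)
      _ = 2 * 8 ^ (s : ℝ) * c⁻¹ * |π ω - π ω'| ^ (s : ℝ) := by ring
  · refine ⟨(hin 0 ω).1.trans (hπ1 0 ω), (hπ2 0 ω).trans (hin 0 ω).2, fun n => ?_⟩
    exact (hstep n ω).2.2 ⟨hπ1 (n + 1) ω, hπ2 (n + 1) ω⟩

end Pool.Agent.Q273.CG
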