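import Mathlib
import Pool.Agent.Q273.CG.Tree
import Pool.Agent.Results.MP_3bc45c_nt.RecordGapsAtPrescribedPlaces

/-!
# Record gaps around the dilates of a sequence at all places
-/

set_option autoImplicit false

namespace Pool.Agent.Q273.CG

open Set Filter Topology MeasureTheory
open scoped ENNReal NNReal

/-- The record scale `f(x) = log x (log₂ x)² log₄ x / (log₃ x)²` (iterated natural logarithms). -/
noncomputable def f (x : ℝ) : ℝ :=
  Real.log x * (Real.log (Real.log x)) ^ 2 * Real.log (Real.log (Real.log (Real.log x))) /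
    (Real.log (Real.log (Real.log x))) ^ 2

/-- Every prime is at a distance greater than `H` from the real number `y`. -/
def Far (H y : ℝ) : Prop := ∀ q : ℕ, q.Prime → H < |(q : ℝ) - y|

lemma Far.mono {H H' y : ℝ} (h : Far H y) (hH : H' ≤ H) : Far H' y := fun q hq => lt_of_le_of_lt hH (h q hq)

/-- `f y ≥ (θ / 8) f x` for large `x` and `x^θ ≤ y ≤ x`; and `f x ≥ log x`. -/
theorem f_ge {θ : ℝ} (h0 : 0 < θ) (h1 : θ ≤ 1) :
    ∀ᶠ x : ℝ in atTop, (∀ y : ℝ, x ^ θ ≤ y → y ≤ x → θ / 8 * f x ≤ f y) ∧ Real.log x ≤ f x := by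
  have hl : Tendsto Real.log atTop atTop := Real.tendsto_log_atTop
  have h2 : Tendsto (fun x => Real.log (Real.log x)) atTop atTop := hl.comp hl
  have h3 : Tendsto (fun x => Real.log (Real.log (Real.log x))) atTop atTop :=
    hl.comp (hl.comp hl)
  have h4 : Tendsto (fun x => Real.log (Real.log (Real.log (Real.log x)))) atTop atTop :=
    hl.comp (hl.comp (hl.comp hl))
  have hs := tendsto_rpow_atTop h0
  have hθ : Real.log θ ≤ 0 := Real.log_nonpos h0.le h1
  filter_upwards [eventually_gt_atTop (1 : ℝ), hl.eventually_ge_atTop 4,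
    h2.eventually_ge_atTop (max 4 (-2 * Real.log θ)), h3.eventually_ge_atTop (max 4 (2 * Real.log 2)),
    h4.eventually_ge_atTop (max 4 (2 * Real.log 2))] with x hx1 hx2 hx3 hx4 hx5
  have hx0 : 0 < x := by linarith
  simp only [max_le_iff] at hx3 hx4 hx5
  obtain ⟨hx3, hx3'⟩ := hx3
  obtain ⟨hx4, hx4'⟩ := hx4
  obtain ⟨hx5, hx5'⟩ := hx5
  refine ⟨fun y hy1 hy2 => ?_, ?_⟩
  · have hy0 : 0 < y := lt_of_lt_of_le (Real.rpow_pos_of_pos hx0 θ) hy1
    have e1 : θ * Real.log x ≤ Real.log y := by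
      rw [← Real.log_rpow hx0 θ]
      exact Real.log_le_log (Real.rpow_pos_of_pos hx0 θ) hy1
    have e1' : Real.log y ≤ Real.log x := Real.log_le_log hy0 hy2
    have hθx : 0 < θ * Real.log x := mul_pos h0 (by linarith)
    have e2 : Real.log θ + Real.log (Real.log x) ≤ Real.log (Real.log y) := by
      rw [← Real.log_mul h0.ne' (by linarith)]
      exact Real.log_le_log hθx e1
    -- one half of the second logarithm
    have e3 : Real.log (Real.log x) / 2 ≤ Real.log (Real.log y) := by linarith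
    have e3' : Real.log (Real.log y) ≤ Real.log (Real.log x) :=
      Real.log_le_log (by linarith) e1'
    have e4 : Real.log (Real.log (Real.log x)) - Real.log 2 ≤ Real.log (Real.log (Real.log y)) := by
      rw [← Real.log_div (by linarith) (by norm_num)]
      exact Real.log_le_log (by linarith) e3
    have e4' : Real.log (Real.log (Real.log y)) ≤ Real.log (Real.log (Real.log x)) :=
      Real.log_le_log (by linarith) e3'
    have e5 : Real.log (Real.log (Real.log x)) / 2 ≤ Real.log (Real.log (Real.log y)) := by linarith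
    have e6 : Real.log (Real.log (Real.log (Real.log x))) / 2 ≤
        Real.log (Real.log (Real.log (Real.log y))) := by
      have h5 : Real.log (Real.log (Real.log (Real.log x))) - Real.log 2 ≤
          Real.log (Real.log (Real.log (Real.log y))) := by
        rw [← Real.log_div (by linarith) (by norm_num)]
        exact Real.log_le_log (by linarith) e5
      linarith
    unfold f
    set A := Real.log x
    set B := Real.log A
    set C := Real.log B
    set D := Real.log C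
    set A' := Real.log y
    set B' := Real.log A'
    set C' := Real.log B'
    set D' := Real.log C'
    have hC' : 0 < C' := by linarith
    have hC : 0 < C := by linarith
    have hB : 0 < B := by linarith
    have hA : 0 < A := by linarith
    have hD : 0 < D := by linarith
    have hA' : 0 < A' := lt_of_lt_of_le hθx e1
    rw [le_div_iff₀ (by positivity)]
    have k1 : C' ^ 2 ≤ C ^ 2 := by gcongr
    have k2 : (B / 2) ^ 2 ≤ B' ^ 2 := by gcongr
    calc θ / 8 * (A * B ^ 2 * D / C ^ 2) * C' ^ 2 ≤ θ / 8 * (A * B ^ 2 * D / C ^ 2) * C ^ 2 := by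
          gcongr
      _ = θ * A * (B / 2) ^ 2 * (D / 2) := by field_simp; ring
      _ ≤ A' * B' ^ 2 * D' := by
          gcongr
  · unfold f
    set A := Real.log x
    set B := Real.log A
    set C := Real.log B
    set D := Real.log C
    have hC : 0 < C := by linarith
    have hB : 0 < B := by linarith
    have hA : 0 < A := by linarith
    have hD : 0 < D := by linarith
    have hCB : C ≤ B := by
      have := Real.log_le_sub_one_of_pos hB
      linarith
    rw [le_div_iff₀ (by positivity)]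
    calc A * C ^ 2 ≤ A * B ^ 2 := by gcongr
      _ = A * B ^ 2 * 1 := (mul_one _).symm
      _ ≤ A * B ^ 2 * D := by gcongr; linarith

/-- `f (x^θ) ≥ (θ / 8) f x` for large `x`; and `f x ≥ log x`. -/
theorem f_rpow {θ : ℝ} (h0 : 0 < θ) (h1 : θ ≤ 1) :
    ∀ᶠ x : ℝ in atTop, θ / 8 * f x ≤ f (x ^ θ) ∧ Real.log x ≤ f x := by
  filter_upwards [f_ge h0 h1, eventually_ge_atTop (1 : ℝ)] with x hx h1x
  refine ⟨hx.1 _ le_rfl ?_, hx.2⟩
  calc x ^ θ ≤ x ^ (1 : ℝ) := Real.rpow_le_rpow_of_exponent_le h1x h1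
    _ = x := Real.rpow_one x

/-- `exp (log₂ x log₄ x / (20 log₃ x)) → ∞` -/
lemma tendsto_level : Tendsto (fun x : ℝ => Real.exp (Real.log (Real.log x) *
    Real.log (Real.log (Real.log (Real.log x))) / (20 * Real.log (Real.log (Real.log x)))))
    atTop atTop := by
  have hl : Tendsto Real.log atTop atTop := Real.tendsto_log_atTop
  have h2 : Tendsto (fun x => Real.log (Real.log x)) atTop atTop := hl.comp hl
  have h3 : Tendsto (fun x => Real.log (Real.log (Real.log x))) atTop atTop :=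
    hl.comp (hl.comp hl)
  have h4 : Tendsto (fun x => Real.log (Real.log (Real.log (Real.log x)))) atTop atTop :=
    hl.comp (hl.comp (hl.comp hl))
  apply Real.tendsto_exp_atTop.comp
  apply tendsto_atTop_mono' _ _ (h4.atTop_mul_const (show (0 : ℝ) < 1 / 20 by norm_num))
  filter_upwards [h2.eventually_ge_atTop 1, h3.eventually_ge_atTop 1, h4.eventually_ge_atTop 1]
    with x hx2 hx3 hx4
  rw [le_div_iff₀ (by linarith)]
  have h5 : Real.log (Real.log (Real.log x)) ≤ Real.log (Real.log x) := by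
    have := Real.log_le_sub_one_of_pos (show 0 < Real.log (Real.log x) by linarith)
    linarith
  nlinarith

/-- `φ(d) / d ≥ 2^{-B}` if all prime factors of `d` are at most `B` -/
lemma totient_ratio {d B : ℕ} (hd : 1 ≤ d) (h : ∀ p : ℕ, p.Prime → p ∣ d → p ≤ B) :
    ((1 : ℝ) / 2) ^ (B + 1) ≤ (Nat.totient d : ℝ) / d := by
  have h1 : (Nat.totient d : ℚ) = d * ∏ p ∈ d.primeFactors, (1 - (p : ℚ)⁻¹) :=
    Nat.totient_eq_mul_prod_factors d
  have h2 : (Nat.totient d : ℝ) = d * ∏ p ∈ d.primeFactors, (1 - (p : ℝ)⁻¹) := by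
    have h3 := congrArg (fun q : ℚ => (q : ℝ)) h1
    push_cast at h3
    exact h3
  have hd0 : (0 : ℝ) < d := by exact_mod_cast hd
  rw [h2, mul_div_cancel_left₀ _ hd0.ne']
  have h3 : ∏ _p ∈ d.primeFactors, ((1 : ℝ) / 2) ≤ ∏ p ∈ d.primeFactors, (1 - (p : ℝ)⁻¹) := by
    apply Finset.prod_le_prod
    · intro i _
      norm_num
    · intro p hp
      have h4 : (2 : ℝ) ≤ p := by exact_mod_cast (Nat.prime_of_mem_primeFactors hp).two_le
      have h5 : (p : ℝ)⁻¹ ≤ 2⁻¹ := inv_anti₀ (by norm_num) h4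
      linarith
  refine le_trans ?_ h3
  rw [Finset.prod_const]
  apply pow_le_pow_of_le_one (by norm_num) (by norm_num)
  have h4 : d.primeFactors ⊆ Finset.range (B + 1) := by
    intro p hp
    rw [Finset.mem_range]
    have := h p (Nat.prime_of_mem_primeFactors hp) (Nat.dvd_of_mem_primeFactors hp)
    omega
  exact (Finset.card_le_card h4).trans (by simp)

/-- Record gaps in all windows of length `R^θ`, at all places, around integers in prescribed classes:
`θ` and the bound for the prime factors of the moduli are fixed. -/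
theorem windows (θ : ℝ) (h0 : 0 < θ) (h1 : θ ≤ 1) (B : ℕ) : ∃ c : ℝ, 0 < c ∧
    ∀ᶠ R : ℝ in atTop, ∀ d r : ℕ, 1 ≤ d → (∀ p : ℕ, p.Prime → p ∣ d → p ≤ B) →
      (d : ℝ) ≤ R ^ (θ / 2) → ∀ w : ℝ, 0 ≤ w →
      ∃ n : ℕ, n ≡ r [MOD d] ∧ w < n ∧ (n : ℝ) ≤ w + R ^ θ ∧
        ∀ y : ℝ, (n : ℝ) ≤ y → y < n + 1 → Far (c * f R) y := by
  obtain ⟨c, hc, x₀, h⟩ :=
    Pool.Agent.Results.MP_3bc45c_nt.RecordGapsAtPrescribedPlaces.result (1 / 2) 0
      (by norm_num) (by norm_num) le_rfl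
  set κ : ℝ := (1 / 2 : ℝ) ^ (B + 1) with hκ
  have hκ0 : 0 < κ := by positivity
  refine ⟨c * κ * (θ / 8) / 2, by positivity, ?_⟩
  have hs := tendsto_rpow_atTop h0
  have hl : Tendsto Real.log atTop atTop := Real.tendsto_log_atTop
  filter_upwards [hs.eventually_ge_atTop (max x₀ 1), f_rpow h0 h1, eventually_gt_atTop (1 : ℝ),
    (tendsto_level.comp hs).eventually_ge_atTop (B : ℝ),
    hl.eventually_ge_atTop (2 / (c * κ * (θ / 8)))] with R hR1 hR2 hR3 hR4 hR5
  intro d r hd hdB hdR w hw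
  have hR0 : 0 < R := by linarith
  have hdR' : (d : ℝ) ≤ (R ^ θ) ^ (1 - (1 / 2 : ℝ)) := by
    rw [← Real.rpow_mul hR0.le]
    convert hdR using 2
    ring
  simp only [Function.comp] at hR4
  obtain ⟨n, hn1, hn2, hn3, hn4⟩ := h (R ^ θ) ((le_max_left _ _).trans hR1) d hd hdR' (by
    rw [zero_div]
    apply le_of_eq
    apply Finset.sum_eq_zero
    intro p hp
    exfalso
    rw [Finset.mem_filter] at hp
    have h2 := hdB p (Nat.prime_of_mem_primeFactors hp.1) (Nat.dvd_of_mem_primeFactors hp.1)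
    have h3 : (p : ℝ) ≤ B := by exact_mod_cast h2
    linarith [hp.2]) r ⌊w⌋₊
  have hfl : (⌊w⌋₊ : ℝ) ≤ w := Nat.floor_le hw
  have hfl2 : w < ⌊w⌋₊ + 1 := Nat.lt_floor_add_one w
  have hn2' : (⌊w⌋₊ : ℝ) + 1 ≤ n := by exact_mod_cast hn2
  refine ⟨n, hn1, by linarith, by linarith, fun y hy1 hy2 q hq => ?_⟩
  have h2 := hn4 q hq
  have h3 := totient_ratio hd hdB
  rw [← hκ] at h3
  have h4 : |(q : ℝ) - n| ≤ |(q : ℝ) - y| + 1 := by
    have : |y - (n : ℝ)| ≤ 1 := by rw [abs_le]; constructor <;> linarith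
    calc |(q : ℝ) - n| = |((q : ℝ) - y) + (y - n)| := by ring_nf
      _ ≤ |(q : ℝ) - y| + |y - n| := abs_add_le _ _
      _ ≤ _ := by linarith
  have hf0 : 0 < f R := lt_of_lt_of_le (Real.log_pos hR3) hR2.2
  have h5 : c * (κ * (θ / 8 * f R)) ≤ c * ((Nat.totient d : ℝ) / d * f (R ^ θ)) := by
    apply mul_le_mul_of_nonneg_left _ hc.le
    exact mul_le_mul h3 hR2.1 (by positivity) (by positivity)
  have h6 : 1 ≤ c * κ * (θ / 8) / 2 * f R := by
    have h7 : 2 / (c * κ * (θ / 8)) ≤ f R := hR5.trans hR2.2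
    rw [div_le_iff₀ (by positivity)] at h7
    linarith
  have h8 : c * ((Nat.totient d : ℝ) / d * f (R ^ θ)) < |(q : ℝ) - n| := h2
  linarith

/-- **All scales.** -/
theorem dil_core (ε : ℝ) (h0 : 0 < ε) (h1 : ε < 1) (B : ℕ) : ∃ c : ℝ, 0 < c ∧
    ∀ x : ℕ → ℝ, (∀ n, 0 < x n) → Tendsto (fun n => x (n + 1) / x n) atTop atTop →
    ∀ d r : ℕ → ℕ, (∀ n, 1 ≤ d n) → (∀ n, ∀ p : ℕ, p.Prime → p ∣ d n → p ≤ B) →
    (∀ᶠ n in atTop, (d n : ℝ) ≤ (x (n + 1) / x n) ^ (ε / 4)) →
    ∀ u v : ℝ, 0 < u → u < v → ENNReal.ofReal (1 - ε) ≤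
      dimH {α : ℝ | u < α ∧ α < v ∧ ∀ᶠ n in atTop, ⌊α * x (n + 1)⌋₊ ≡ r n [MOD d n] ∧
        Far (c * f (x (n + 1) / x n)) (α * x (n + 1))} := by
  obtain ⟨c, hc, hw⟩ := windows (ε / 2) (by positivity) (by linarith) B
  refine ⟨c, hc, fun x hx hR d r hd hdB hdR u v hu huv => ?_⟩
  set R : ℕ → ℝ := fun n => x (n + 1) / x n with hRdef
  have hRx : ∀ n, x (n + 1) = R n * x n := fun n => by
    simp only [hRdef]; rw [div_mul_cancel₀ _ (hx n).ne']
  -- `x n → ∞`
  obtain ⟨n1, hn1⟩ := eventually_atTop.1 (hR.eventually_ge_atTop 2)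
  have hx1 : ∀ k, x n1 * 2 ^ k ≤ x (n1 + k) := by
    intro k
    induction k with
    | zero => simp
    | succ k ih =>
      have h2 := hn1 (n1 + k) (by omega)
      rw [show n1 + (k + 1) = n1 + k + 1 by ring, hRx, pow_succ]
      have h3 : (2 : ℝ) ≤ R (n1 + k) := h2
      have := hx (n1 + k)
      calc x n1 * (2 ^ k * 2) = 2 * (x n1 * 2 ^ k) := by ring
        _ ≤ R (n1 + k) * x (n1 + k) := by
            apply mul_le_mul h3 ih (by have := hx n1; positivity) (by linarith)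
  have hxt : Tendsto x atTop atTop := by
    have h2 : Tendsto (fun k : ℕ => x n1 * 2 ^ k) atTop atTop :=
      (tendsto_pow_atTop_atTop_of_one_lt (by norm_num)).const_mul_atTop (hx n1)
    have h3 : Tendsto (fun k : ℕ => x (k + n1)) atTop atTop := by
      apply tendsto_atTop_mono _ h2
      intro k
      rw [add_comm k n1]
      exact hx1 k
    exact (tendsto_add_atTop_iff_nat n1).1 h3
  -- the levels
  have h16 : ∀ᶠ y : ℝ in atTop, 16 ≤ y ^ (ε / 2) ∧ 16 ≤ y ^ (1 - ε / 2) ∧ 1 ≤ y :=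
    ((tendsto_rpow_atTop (by positivity)).eventually_ge_atTop 16).and
      (((tendsto_rpow_atTop (by linarith)).eventually_ge_atTop 16).and (eventually_ge_atTop 1))
  obtain ⟨N0, hN0⟩ := eventually_atTop.1 ((hR.eventually hw).and (hdR.and
    ((hR.eventually h16).and (hxt.eventually_ge_atTop (1 / (v - u))))))
  have hvu : 0 < v - u := by linarith
  set a : ℝ := (3 * u + v) / 4 with ha
  set b : ℝ := (u + 3 * v) / 4 with hb
  have hba : b - a = (v - u) / 2 := by rw [ha, hb]; ring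
  set ℓ : ℕ → ℝ := fun k => 1 / (2 * x (N0 + k)) with hℓ
  set Δ : ℕ → ℝ := fun k => 2 * (R (N0 + k)) ^ (ε / 2) / x (N0 + k + 1) with hΔ
  set T : ℕ → ℕ := fun k => ⌊(R (N0 + k)) ^ (1 - ε / 2) / 8⌋₊ with hT
  have hRpos : ∀ n, 0 < R n := fun n => div_pos (hx _) (hx _)
  have hℓpos : ∀ n, 0 < ℓ n := fun n => by have := hx (N0 + n); simp only [hℓ]; positivity
  have hΔpos : ∀ n, 0 < Δ n := fun n => by
    have := hx (N0 + n + 1)
    have := Real.rpow_pos_of_pos (hRpos (N0 + n)) (ε / 2)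
    simp only [hΔ]; positivity
  -- `R^(1-ε/2)/8 * 2 * Δ = ℓ`
  have hid : ∀ k, (R (N0 + k)) ^ (1 - ε / 2) / 8 * (2 * Δ k) = ℓ k := by
    intro k
    simp only [hΔ, hℓ]
    have h2 := hx (N0 + k)
    have h3 := hRpos (N0 + k)
    rw [hRx (N0 + k)]
    have h4 : (R (N0 + k)) ^ (1 - ε / 2) * (R (N0 + k)) ^ (ε / 2) = R (N0 + k) := by
      rw [← Real.rpow_add h3]
      norm_num
    calc (R (N0 + k)) ^ (1 - ε / 2) / 8 * (2 * (2 * (R (N0 + k)) ^ (ε / 2) / (R (N0 + k) * x (N0 + k))))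
        = ((R (N0 + k)) ^ (1 - ε / 2) * (R (N0 + k)) ^ (ε / 2)) / (2 * (R (N0 + k) * x (N0 + k))) := by
          field_simp; ring
      _ = 1 / (2 * x (N0 + k)) := by rw [h4]; field_simp
  have hTy : ∀ k, (R (N0 + k)) ^ (1 - ε / 2) / 16 ≤ T k ∧ (T k : ℝ) ≤ (R (N0 + k)) ^ (1 - ε / 2) / 8 := by
    intro k
    have h2 := (hN0 (N0 + k) (by omega)).2.2.1.2.1
    set y : ℝ := (R (N0 + k)) ^ (1 - ε / 2) / 8 with hy
    have hy2 : 2 ≤ y := by rw [hy]; linarith
    have h3 : (T k : ℝ) ≤ y := Nat.floor_le (by linarith)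
    have h4 : y < T k + 1 := Nat.lt_floor_add_one y
    refine ⟨?_, h3⟩
    have : (R (N0 + k)) ^ (1 - ε / 2) / 16 = y / 2 := by rw [hy]; ring
    rw [this]
    linarith
  set s : ℝ≥0 := ⟨1 - ε, by linarith⟩ with hs
  have hsr : (s : ℝ) = 1 - ε := rfl
  have hs0 : 0 < s := by
    have : (0 : ℝ) < (s : ℝ) := by rw [hsr]; linarith
    exact_mod_cast this
  have key := le_dimH_all (a := a) (b := b) (c := (2 * x N0) ^ (-(1 - ε))) (s := s) hs0
    (by rw [hsr]; linarith) (Real.rpow_pos_of_pos (by have := hx N0; positivity) _) ℓ Δ T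
    (fun k => {α | ⌊α * x (N0 + k + 1)⌋₊ ≡ r (N0 + k) [MOD d (N0 + k)] ∧
      Far (c * f (R (N0 + k))) (α * x (N0 + k + 1))}) hℓpos ?_ ?_ hΔpos ?_ ?_ ?_ ?_
  · have h2 : ENNReal.ofReal (1 - ε) = (s : ℝ≥0∞) := by
      rw [← hsr]
      exact ENNReal.ofReal_coe_nnreal
    rw [h2]
    refine key.trans (dimH_mono ?_)
    rintro α ⟨hα1, hα2, hα3⟩
    refine ⟨by linarith, by linarith, ?_⟩
    rw [eventually_atTop]
    refine ⟨N0, fun n hn => ?_⟩
    obtain ⟨k, rfl⟩ := Nat.exists_eq_add_of_le hn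
    exact hα3 k
  · -- `ℓ → 0`
    have h2 : Tendsto (fun k => x (N0 + k)) atTop atTop := by
      have := (tendsto_add_atTop_iff_nat N0).2 hxt
      refine this.congr fun k => ?_
      rw [add_comm]
    have h3 : Tendsto (fun k => 2 * x (N0 + k)) atTop atTop := h2.const_mul_atTop (by norm_num)
    have h4 : Tendsto (fun k => (2 * x (N0 + k))⁻¹) atTop (𝓝 0) := h3.inv_tendsto_atTop
    simpa only [hℓ, one_div] using h4
  · -- `ℓ 0 ≤ b - a`
    have h2 := (hN0 N0 le_rfl).2.2.2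
    rw [hba]
    simp only [hℓ, add_zero]
    rw [div_le_iff₀ hvu] at h2
    rw [div_le_iff₀ (by have := hx N0; positivity)]
    linarith
  · intro k
    have h2 := (hTy k).2
    have h3 := hΔpos k
    calc 2 * (T k : ℝ) * Δ k = T k * (2 * Δ k) := by ring
      _ ≤ (R (N0 + k)) ^ (1 - ε / 2) / 8 * (2 * Δ k) := by gcongr
      _ = ℓ k := hid k
  · intro k
    have h2 := (hTy k).1
    have h3 := hΔpos k
    calc ℓ k = (R (N0 + k)) ^ (1 - ε / 2) / 16 * (4 * Δ k) := by rw [← hid k]; ring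
      _ ≤ T k * (4 * Δ k) := by gcongr
      _ ≤ 8 * T k * Δ k := by
        have : (0 : ℝ) ≤ T k := Nat.cast_nonneg _
        nlinarith [mul_nonneg this h3.le]
  · intro k
    -- `∏ T ≥ (x (N0 + k) / x N0)^(1 - ε)`
    have h2 : ∀ k, (x (N0 + k) / x N0) ^ (1 - ε) ≤ ∏ i ∈ Finset.range k, (T i : ℝ) := by
      intro k
      induction k with
      | zero => simp [(hx N0).ne']
      | succ k ih =>
        rw [Finset.prod_range_succ]
        have h3 : (x (N0 + (k + 1)) / x N0) ^ (1 - ε) =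
            (x (N0 + k) / x N0) ^ (1 - ε) * (R (N0 + k)) ^ (1 - ε) := by
          rw [← Real.mul_rpow (div_pos (hx _) (hx _)).le (hRpos _).le]
          congr 1
          rw [show N0 + (k + 1) = N0 + k + 1 by ring, hRx]
          ring
        rw [h3]
        apply mul_le_mul ih _ (Real.rpow_pos_of_pos (hRpos _) _).le
          (Finset.prod_nonneg fun i _ => Nat.cast_nonneg _)
        have h4 := (hN0 (N0 + k) (by omega)).2.2.1
        have h5 : (R (N0 + k)) ^ (1 - ε / 2) = (R (N0 + k)) ^ (1 - ε) * (R (N0 + k)) ^ (ε / 2) := by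
          rw [← Real.rpow_add (hRpos _)]
          congr 1
          ring
        refine le_trans ?_ (hTy k).1
        rw [le_div_iff₀ (by norm_num), h5]
        exact mul_le_mul_of_nonneg_left h4.1 (Real.rpow_pos_of_pos (hRpos _) _).le
    refine le_trans (le_of_eq ?_) (h2 k)
    rw [hsr]
    simp only [hℓ]
    have h5 := hx N0
    have h6 := hx (N0 + k)
    have h7 : (1 / (2 * x (N0 + k))) ^ (-(1 - ε)) = (2 * x (N0 + k)) ^ (1 - ε) := by
      rw [one_div, Real.inv_rpow (by positivity), Real.rpow_neg (by positivity), inv_inv]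
    rw [h7, Real.rpow_neg (by positivity), ← Real.inv_rpow (by positivity),
      ← Real.mul_rpow (by positivity) (by positivity)]
    congr 1
    field_simp
  · intro k w hw1 hw2
    obtain ⟨h3, h4, h5, h6⟩ := hN0 (N0 + k) (by omega)
    have hxk := hx (N0 + k + 1)
    have hw0 : 0 < w := by linarith
    have hΔk : Δ k * x (N0 + k + 1) = 2 * (R (N0 + k)) ^ (ε / 2) := by
      simp only [hΔ]
      field_simp
    obtain ⟨n, hn1, hn2, hn3, hn4⟩ := h3 (d (N0 + k)) (r (N0 + k)) (hd _) (hdB _)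
      (by convert h4 using 2; ring) (w * x (N0 + k + 1)) (by positivity)
    have hℓk : ℓ (k + 1) * x (N0 + k + 1) = 1 / 2 := by
      simp only [hℓ]
      rw [show N0 + (k + 1) = N0 + k + 1 by ring]
      field_simp
    refine ⟨n / x (N0 + k + 1), ?_, ?_, ?_⟩
    · rw [le_div_iff₀ hxk]
      exact hn2.le
    · have h7 : n / x (N0 + k + 1) * x (N0 + k + 1) = n := by field_simp
      have h8 : (n / x (N0 + k + 1) + ℓ (k + 1)) * x (N0 + k + 1) ≤ (w + Δ k) * x (N0 + k + 1) := by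
        rw [add_mul, add_mul, h7, hℓk, hΔk]
        have := h5.1
        linarith
      exact le_of_mul_le_mul_right h8 hxk
    · intro α hα
      obtain ⟨hα1, hα2⟩ := hα
      have h8 : (n : ℝ) ≤ α * x (N0 + k + 1) := by
        rw [div_le_iff₀ hxk] at hα1
        exact hα1
      have h9 : α * x (N0 + k + 1) < n + 1 := by
        have h10 : α * x (N0 + k + 1) ≤ (n / x (N0 + k + 1) + ℓ (k + 1)) * x (N0 + k + 1) :=
          mul_le_mul_of_nonneg_right hα2 hxk.le
        have h7 : n / x (N0 + k + 1) * x (N0 + k + 1) = n := by field_simp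
        rw [add_mul, h7, hℓk] at h10
        linarith
      have h11 : ⌊α * x (N0 + k + 1)⌋₊ = n := by
        rw [Nat.floor_eq_iff (by linarith [Nat.cast_nonneg (α := ℝ) n])]
        exact ⟨h8, h9⟩
      refine ⟨by rw [h11]; exact hn1, hn4 _ h8 h9⟩

/-- A real number at a distance greater than `H` from the primes lies in a gap longer than `2 H`. -/
theorem Far.gap {H y : ℝ} (hy : 2 ≤ y) (h : Far H y) : ∃ m : ℕ,
    (Nat.nth Nat.Prime m : ℝ) ≤ y ∧ y ≤ (Nat.nth Nat.Prime (m + 1) : ℝ) ∧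
      2 * H < (Nat.nth Nat.Prime (m + 1) : ℝ) - (Nat.nth Nat.Prime m : ℝ) := by
  set k : ℕ := Nat.count Nat.Prime (⌊y⌋₊ + 1) with hk
  have h2 : 2 ≤ ⌊y⌋₊ := Nat.le_floor (by exact_mod_cast hy)
  have hkpos : 0 < k := by
    have := Nat.count_strict_mono (p := Nat.Prime) Nat.prime_two (show 2 < ⌊y⌋₊ + 1 by omega)
    omega
  have hlt : Nat.nth Nat.Prime (k - 1) < ⌊y⌋₊ + 1 := Nat.nth_lt_of_lt_count (by omega)
  have hge : ⌊y⌋₊ + 1 ≤ Nat.nth Nat.Prime k := by
    rw [hk]
    exact Nat.le_nth_count Nat.infinite_setOfPred_prime _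
  have hy0 : 0 ≤ y := by linarith
  have e1 : (Nat.nth Nat.Prime (k - 1) : ℝ) ≤ y := by
    have h3 : Nat.nth Nat.Prime (k - 1) ≤ ⌊y⌋₊ := by omega
    calc (Nat.nth Nat.Prime (k - 1) : ℝ) ≤ (⌊y⌋₊ : ℝ) := by exact_mod_cast h3
      _ ≤ y := Nat.floor_le hy0
  have e2 : y ≤ (Nat.nth Nat.Prime (k - 1 + 1) : ℝ) := by
    rw [Nat.sub_add_cancel hkpos]
    have h3 : y < ⌊y⌋₊ + 1 := Nat.lt_floor_add_one y
    have h4 : ((⌊y⌋₊ + 1 : ℕ) : ℝ) ≤ (Nat.nth Nat.Prime k : ℝ) := by exact_mod_cast hge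
    push_cast at h4
    linarith
  refine ⟨k - 1, e1, e2, ?_⟩
  have h5 := h _ (Nat.prime_nth_prime (k - 1))
  have h6 := h _ (Nat.prime_nth_prime (k - 1 + 1))
  rw [abs_of_nonpos (by linarith)] at h5
  rw [abs_of_nonneg (by linarith)] at h6
  linarith

/-- the version with a constant that depends on the dilate -/
theorem dil_one (B : ℕ) (x : ℕ → ℝ) (hx : ∀ n, 0 < x n)
    (hR : Tendsto (fun n => x (n + 1) / x n) atTop atTop) (d r : ℕ → ℕ) (hd : ∀ n, 1 ≤ d n)
    (hdB : ∀ n, ∀ p : ℕ, p.Prime → p ∣ d n → p ≤ B)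
    (hdR : ∀ η : ℝ, 0 < η → ∀ᶠ n in atTop, (d n : ℝ) ≤ (x (n + 1) / x n) ^ η) (u v : ℝ)
    (hu : 0 < u) (huv : u < v) :
      dimH {α : ℝ | u < α ∧ α < v ∧ ∃ c : ℝ, 0 < c ∧ ∀ᶠ n in atTop,
        ⌊α * x (n + 1)⌋₊ ≡ r n [MOD d n] ∧ Far (c * f (x (n + 1) / x n)) (α * x (n + 1))} = 1 := by
  apply le_antisymm
  · calc dimH _ ≤ dimH (univ : Set ℝ) := dimH_mono (subset_univ _)
      _ = 1 := Real.dimH_univ
  · apply le_of_forall_lt
    intro y hy
    obtain ⟨z, hz1, hz2⟩ := exists_between hy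
    have hzt : z ≠ ∞ := (hz2.trans_le le_top).ne
    lift z to ℝ≥0 using hzt
    have hz0 : 0 < z := by
      have := lt_of_le_of_lt zero_le hz1
      exact_mod_cast this
    have hz3 : (z : ℝ) < 1 := by exact_mod_cast hz2
    have hz4 : (0 : ℝ) < z := by exact_mod_cast hz0
    obtain ⟨c, hc, h⟩ := dil_core (1 - z) (by linarith) (by linarith) B
    have h2 := h x hx hR d r hd hdB (hdR _ (by linarith)) u v hu huv
    have h3 : ENNReal.ofReal (1 - (1 - (z : ℝ))) = z := by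
      rw [sub_sub_cancel]
      exact ENNReal.ofReal_coe_nnreal
    rw [h3] at h2
    refine lt_of_lt_of_le hz1 (h2.trans (dimH_mono ?_))
    rintro α ⟨h4, h5, h6⟩
    exact ⟨h4, h5, c, hc, h6⟩

/-- sequences with `x (n + 1) ≥ (x n)^(1 + δ)`: gaps of record size at all the places -/
theorem dil_record (δ : ℝ) (hδ : 0 < δ) (x : ℕ → ℝ) (hx : ∀ n, 0 < x n) (hxt : Tendsto x atTop atTop)
    (hR : ∀ᶠ n in atTop, (x n) ^ (1 + δ) ≤ x (n + 1)) (u v : ℝ)
    (hu : 0 < u) (huv : u < v) :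
      dimH {α : ℝ | u < α ∧ α < v ∧ ∃ c : ℝ, 0 < c ∧ ∀ᶠ n in atTop,
        Far (c * f (x n)) (α * x n)} = 1 := by
  have hδ' : 0 < 1 + δ := by linarith
  have hxt1 : Tendsto (fun n => x (n + 1)) atTop atTop := (tendsto_add_atTop_iff_nat 1).2 hxt
  -- `x (n+1) / x n ≥ x (n+1)^(δ/(1+δ))`
  have h1 : ∀ᶠ n in atTop, (x (n + 1)) ^ (δ / (1 + δ)) ≤ x (n + 1) / x n := by
    filter_upwards [hR] with n hn
    rw [le_div_iff₀ (hx n)]
    have h2 : x n ≤ (x (n + 1)) ^ (1 / (1 + δ)) := by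
      have h3 := Real.rpow_le_rpow (Real.rpow_nonneg (hx n).le _) hn
        (show 0 ≤ 1 / (1 + δ) by positivity)
      rw [← Real.rpow_mul (hx n).le, mul_one_div_cancel hδ'.ne', Real.rpow_one] at h3
      exact h3
    calc (x (n + 1)) ^ (δ / (1 + δ)) * x n ≤ (x (n + 1)) ^ (δ / (1 + δ)) * (x (n + 1)) ^ (1 / (1 + δ)) :=
          mul_le_mul_of_nonneg_left h2 (Real.rpow_nonneg (hx _).le _)
      _ = x (n + 1) := by
          rw [← Real.rpow_add (hx _), ← add_div, add_comm δ 1, div_self hδ'.ne', Real.rpow_one]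
  have hθ0 : 0 < δ / (1 + δ) := by positivity
  have hθ1 : δ / (1 + δ) ≤ 1 := by rw [div_le_one hδ']; linarith
  have hR' : Tendsto (fun n => x (n + 1) / x n) atTop atTop :=
    tendsto_atTop_mono' _ h1 ((tendsto_rpow_atTop hθ0).comp hxt1)
  have h2 := dil_one 0 x hx hR' (fun _ => 1) (fun _ => 0) (fun _ => le_rfl)
    (fun _ p hp hp1 => absurd (Nat.dvd_one.1 hp1) hp.one_lt.ne') (fun η hη => by
      filter_upwards [hR'.eventually_ge_atTop 1] with n hn
      simpa using Real.one_le_rpow hn hη.le) u v hu huv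
  apply le_antisymm
  · calc dimH _ ≤ dimH (univ : Set ℝ) := dimH_mono (subset_univ _)
      _ = 1 := Real.dimH_univ
  · rw [← h2]
    apply dimH_mono
    rintro α ⟨h4, h5, c, hc, h6⟩
    refine ⟨h4, h5, c * (δ / (1 + δ) / 8), by positivity, ?_⟩
    have h7 := (hxt1.eventually (f_ge hθ0 hθ1)).and (h1.and (h6.and (hxt.eventually_ge_atTop 1)))
    obtain ⟨N, hN⟩ := eventually_atTop.1 h7
    rw [eventually_atTop]
    refine ⟨N + 1, fun n hn => ?_⟩
    obtain ⟨m, rfl⟩ := Nat.exists_eq_add_of_le' (show 1 ≤ n by omega)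
    obtain ⟨h8, h9, h10, h11⟩ := hN m (by omega)
    refine h10.2.mono ?_
    have h12 := h8.1 (x (m + 1) / x m) h9 (by
      rw [div_le_iff₀ (hx m)]
      have := hx (m + 1)
      nlinarith)
    calc c * (δ / (1 + δ) / 8) * f (x (m + 1)) = c * (δ / (1 + δ) / 8 * f (x (m + 1))) := by ring
      _ ≤ _ := mul_le_mul_of_nonneg_left h12 hc.le

end Pool.Agent.Q273.CG
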