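import Mathlib
import Pool.Agent.H295R3.Hoheisel

/-!
# Many primes in short windows, enumerated
-/

set_option autoImplicit false

namespace Pool.Agent.Q273.CG

open Set Filter Topology
open scoped ENNReal NNReal

/-- the members of a finite set of natural numbers with at least `K` elements -/
lemma enum_finset (S : Finset ℕ) (K : ℕ) (hK : K ≤ S.card) : ∃ φ : ℕ → ℕ,
    (∀ j, j < K → φ j ∈ S) ∧ ∀ i j : ℕ, i < j → j < K → φ i + (j - i) ≤ φ j := by
  classical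
  set e := S.orderEmbOfFin (rfl : S.card = S.card) with he
  obtain ⟨φ, hφ⟩ : ∃ φ : ℕ → ℕ, ∀ j (h : j < S.card), φ j = e ⟨j, h⟩ :=
    ⟨fun j => if h : j < S.card then e ⟨j, h⟩ else 0, fun j h => dif_pos h⟩
  refine ⟨φ, fun j hj => ?_, fun i j hij hj => ?_⟩
  · rw [hφ j (by omega)]
    exact Finset.orderEmbOfFin_mem _ _ _
  · obtain ⟨m, rfl⟩ := Nat.exists_eq_add_of_lt hij
    induction m with
    | zero =>
      rw [hφ _ (show i < S.card by omega), hφ _ (show i + 0 + 1 < S.card by omega)]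
      have : e ⟨i, by omega⟩ < e ⟨i + 0 + 1, by omega⟩ := e.strictMono (by simp [Fin.lt_def])
      omega
    | succ m ih =>
      have h1 := ih (by omega) (by omega)
      rw [hφ _ (show i + m + 1 < S.card by omega)] at h1
      rw [hφ _ (show i + (m + 1) + 1 < S.card by omega)]
      have : e ⟨i + m + 1, by omega⟩ < e ⟨i + (m + 1) + 1, by omega⟩ :=
        e.strictMono (by simp only [Fin.lt_def]; omega)
      omega

/-- Primes in windows of length `x^(1-δ)` (Hoheisel). -/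
theorem prime_window : ∃ δ : ℝ, 0 < δ ∧ δ < 1 / 2 ∧ ∀ κ : ℝ, 0 < κ → ∀ u v : ℝ, 0 < u → u < v →
    ∀ᶠ x : ℝ in atTop, ∀ w : ℝ, u ≤ w → w ≤ v → ∃ φ : ℕ → ℕ,
      (∀ j, j < ⌊x ^ (1 - δ - κ)⌋₊ → (φ j).Prime ∧ w * x < φ j ∧ (φ j : ℝ) + 1 ≤ w * x + x ^ (1 - δ)) ∧
      ∀ i j : ℕ, i < j → j < ⌊x ^ (1 - δ - κ)⌋₊ → φ i + (j - i) ≤ φ j := by
  obtain ⟨δ', η, hδ0, hδ1, hη, X₀, hX₀, h⟩ := Pool.Agent.H295R3.D.hoheisel
  set δ : ℝ := δ' / 2 with hδ
  refine ⟨δ, by positivity, by rw [hδ]; linarith, fun κ hκ u v hu huv => ?_⟩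
  have hv : 0 < v := by linarith
  have t1 : ∀ᶠ x : ℝ in atTop, 2 * v ^ (1 - δ') ≤ x ^ δ :=
    (tendsto_rpow_atTop (by positivity)).eventually_ge_atTop _
  have t2 : ∀ᶠ x : ℝ in atTop, 4 ≤ x ^ (1 - δ) :=
    (tendsto_rpow_atTop (by rw [hδ]; linarith)).eventually_ge_atTop _
  have t3 : ∀ᶠ x : ℝ in atTop, 2 / u ≤ x ^ δ :=
    (tendsto_rpow_atTop (by positivity)).eventually_ge_atTop _
  have t4 : ∀ᶠ x : ℝ in atTop, max (max 1 (2 / u)) (max ((X₀ + 1) / u) ((Real.exp 1 + 1) / u)) ≤ x :=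
    eventually_ge_atTop _
  have t5 : ∀ᶠ x : ℝ in atTop, 2 * Real.log (v * x) ≤ η * x ^ κ := by
    have h1 := (isLittleO_log_rpow_atTop hκ).def (show (0 : ℝ) < η / 4 by positivity)
    have h2 : ∀ᶠ x : ℝ in atTop, 2 * Real.log v ≤ η / 2 * x ^ κ :=
      ((tendsto_rpow_atTop hκ).const_mul_atTop (by positivity)).eventually_ge_atTop _
    filter_upwards [h1, h2, eventually_gt_atTop (1 : ℝ)] with x h1 h2 hx
    rw [Real.norm_eq_abs, Real.norm_eq_abs, abs_of_pos (Real.log_pos hx),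
      abs_of_nonneg (Real.rpow_nonneg (by linarith) _)] at h1
    rw [Real.log_mul hv.ne' (by linarith)]
    linarith
  filter_upwards [t1, t2, t3, t4, t5] with x h1 h2 h3 h4 h5
  intro w hw1 hw2
  simp only [max_le_iff] at h4
  obtain ⟨⟨h4a, h4b⟩, h4c, h4d⟩ := h4
  have hx0 : 0 < x := by linarith
  have hwx0 : 0 < w * x := mul_pos (by linarith) hx0
  have hux : u * x ≤ w * x := mul_le_mul_of_nonneg_right hw1 hx0.le
  have hvx : w * x ≤ v * x := mul_le_mul_of_nonneg_right hw2 hx0.le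
  set X : ℕ := ⌊w * x⌋₊ with hX
  set Y : ℕ := ⌊x ^ (1 - δ)⌋₊ - 1 with hY
  have hX1 : (X : ℝ) ≤ w * x := Nat.floor_le hwx0.le
  have hX2 : w * x < X + 1 := Nat.lt_floor_add_one _
  have hf2 : 2 ≤ ⌊x ^ (1 - δ)⌋₊ := Nat.le_floor (by push_cast; linarith)
  have hY1 : (Y : ℝ) + 1 ≤ x ^ (1 - δ) := by
    have e1 : (⌊x ^ (1 - δ)⌋₊ : ℝ) ≤ x ^ (1 - δ) := Nat.floor_le (by linarith)
    have e2 : ((Y + 1 : ℕ) : ℝ) = (⌊x ^ (1 - δ)⌋₊ : ℝ) := by
      congr 1
      omega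
    push_cast at e2
    linarith
  have hY2 : x ^ (1 - δ) / 2 ≤ Y := by
    have e1 : x ^ (1 - δ) < ⌊x ^ (1 - δ)⌋₊ + 1 := Nat.lt_floor_add_one _
    have e2 : ((Y + 1 : ℕ) : ℝ) = (⌊x ^ (1 - δ)⌋₊ : ℝ) := by
      congr 1
      omega
    push_cast at e2
    linarith
  have hXX : X₀ ≤ X := by
    rw [div_le_iff₀ hu] at h4c
    apply Nat.le_floor
    linarith
  have hXe : Real.exp 1 ≤ X := by
    rw [div_le_iff₀ hu] at h4d
    linarith
  have hX0 : (0 : ℝ) < X := lt_of_lt_of_le (Real.exp_pos 1) hXe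
  have hlogX : 1 ≤ Real.log X := by
    rw [Real.le_log_iff_exp_le hX0]
    exact hXe
  have hA1 : (X : ℝ) ^ (1 - δ') ≤ Y := by
    calc (X : ℝ) ^ (1 - δ') ≤ (v * x) ^ (1 - δ') :=
          Real.rpow_le_rpow hX0.le (by linarith) (by linarith)
      _ = v ^ (1 - δ') * x ^ (1 - δ') := Real.mul_rpow hv.le hx0.le
      _ ≤ x ^ δ / 2 * x ^ (1 - δ') := by
          apply mul_le_mul_of_nonneg_right _ (Real.rpow_nonneg hx0.le _)
          linarith
      _ = x ^ (1 - δ) / 2 := by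
          have : x ^ (1 - δ) = x ^ δ * x ^ (1 - δ') := by
            rw [← Real.rpow_add hx0]
            congr 1
            rw [hδ]
            ring
          rw [this]
          ring
      _ ≤ Y := hY2
  have hA2 : Y ≤ X := by
    have e1 : x ^ (1 - δ) ≤ u * x / 2 := by
      have e2 : x = x ^ (1 - δ) * x ^ δ := by
        rw [← Real.rpow_add hx0]
        norm_num
      have e3 : 0 < x ^ (1 - δ) := Real.rpow_pos_of_pos hx0 _
      rw [div_le_iff₀ hu] at h3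
      have e4 : 2 * x ^ (1 - δ) ≤ x ^ δ * u * x ^ (1 - δ) := mul_le_mul_of_nonneg_right h3 e3.le
      have e5 : u * x = x ^ δ * u * x ^ (1 - δ) := by
        calc u * x = u * (x ^ (1 - δ) * x ^ δ) := by rw [← e2]
          _ = _ := by ring
      linarith
    have e6 : 1 ≤ u * x / 2 := by
      rw [div_le_iff₀ hu] at h4b
      linarith
    have e7 : (Y : ℝ) ≤ X := by linarith
    exact_mod_cast e7
  have hcount := h X Y hXX hA1 hA2
  have hlogv : Real.log X ≤ Real.log (v * x) := Real.log_le_log hX0 (by linarith)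
  have hcard : ⌊x ^ (1 - δ - κ)⌋₊ ≤ ((Finset.Ioc X (X + Y)).filter Nat.Prime).card := by
    have e1 : x ^ (1 - δ - κ) ≤ η * Y / Real.log X := by
      rw [le_div_iff₀ (by linarith)]
      have e2 : x ^ (1 - δ - κ) * x ^ κ = x ^ (1 - δ) := by
        rw [← Real.rpow_add hx0]
        congr 1
        ring
      have e3 : 0 < x ^ (1 - δ - κ) := Real.rpow_pos_of_pos hx0 _
      calc x ^ (1 - δ - κ) * Real.log X ≤ x ^ (1 - δ - κ) * (η * x ^ κ / 2) := by
            apply mul_le_mul_of_nonneg_left _ e3.le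
            linarith
        _ = η * (x ^ (1 - δ) / 2) := by rw [← e2]; ring
        _ ≤ η * Y := by gcongr
    have e2 : ((⌊x ^ (1 - δ - κ)⌋₊ : ℕ) : ℝ) ≤
        (((Finset.Ioc X (X + Y)).filter Nat.Prime).card : ℝ) :=
      (Nat.floor_le (Real.rpow_nonneg hx0.le _)).trans (e1.trans hcount)
    exact_mod_cast e2
  obtain ⟨φ, hφ1, hφ2⟩ := enum_finset _ _ hcard
  refine ⟨φ, fun j hj => ?_, hφ2⟩
  have h6 := hφ1 j hj
  rw [Finset.mem_filter, Finset.mem_Ioc] at h6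
  obtain ⟨⟨h7, h8⟩, h9⟩ := h6
  refine ⟨h9, ?_, ?_⟩
  · have : ((X + 1 : ℕ) : ℝ) ≤ φ j := by exact_mod_cast h7
    push_cast at this
    linarith
  · have : (φ j : ℝ) ≤ ((X + Y : ℕ) : ℝ) := by exact_mod_cast h8
    push_cast at this
    linarith

end Pool.Agent.Q273.CG
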