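import Mathlib
import Pool.Agent.Q273.CG.Dil
import Pool.Agent.Q273.CG.PrW

/-!
# Many primes which end a record gap, in short windows
-/

set_option autoImplicit false

namespace Pool.Agent.Q273.CG

open Set Filter Topology
open scoped ENNReal NNReal

/-- `0 ≤ f x ≤ x^θ` for large `x` -/
lemma f_le_rpow {θ : ℝ} (hθ : 0 < θ) : ∀ᶠ x : ℝ in atTop, 0 ≤ f x ∧ f x ≤ x ^ θ := by
  have hl : Tendsto Real.log atTop atTop := Real.tendsto_log_atTop
  have h2 : Tendsto (fun x => Real.log (Real.log x)) atTop atTop := hl.comp hl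
  have h3 : Tendsto (fun x => Real.log (Real.log (Real.log x))) atTop atTop :=
    hl.comp (hl.comp hl)
  have h4 : Tendsto (fun x => Real.log (Real.log (Real.log (Real.log x)))) atTop atTop :=
    hl.comp (hl.comp (hl.comp hl))
  have h5 : ∀ᶠ x : ℝ in atTop, Real.log x ^ 3 ≤ x ^ θ := by
    have h6 := (isLittleO_log_rpow_rpow_atTop (3 : ℝ) hθ).bound (show (0 : ℝ) < 1 by norm_num)
    filter_upwards [h6, eventually_ge_atTop (1 : ℝ)] with x hx hx1
    have hl0 : 0 ≤ Real.log x := Real.log_nonneg hx1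
    rw [Real.norm_eq_abs, Real.norm_eq_abs, one_mul, abs_of_nonneg (Real.rpow_nonneg hl0 _),
      abs_of_nonneg (Real.rpow_nonneg (by linarith) _)] at hx
    have h7 : Real.log x ^ (3 : ℝ) = Real.log x ^ 3 := by
      rw [← Real.rpow_natCast]; norm_num
    rwa [h7] at hx
  filter_upwards [h5, hl.eventually_ge_atTop 1, h2.eventually_ge_atTop 1, h3.eventually_ge_atTop 1,
    h4.eventually_ge_atTop 1] with x hx hx2 hx3 hx4 hx5
  unfold f
  set A := Real.log x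
  set B := Real.log A
  set C := Real.log B
  set D := Real.log C
  have hC : 0 < C := by linarith
  have hB : 0 < B := by linarith
  have hA : 0 < A := by linarith
  have hD : 0 < D := by linarith
  have hDC : D ≤ C := by
    have := Real.log_le_sub_one_of_pos hC
    linarith
  have hBA : B ≤ A := by
    have := Real.log_le_sub_one_of_pos hA
    linarith
  refine ⟨by positivity, ?_⟩
  rw [div_le_iff₀ (by positivity)]
  have hx0 : 0 ≤ x ^ θ := le_trans (by positivity) hx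
  calc A * B ^ 2 * D ≤ A * A ^ 2 * C := by gcongr
    _ = A ^ 3 * C := by ring
    _ ≤ x ^ θ * C := by gcongr
    _ ≤ x ^ θ * C ^ 2 := by
      apply mul_le_mul_of_nonneg_left _ hx0
      nlinarith

/-- Many primes in `(x, x + x^(1-δ)]` which are preceded by a record gap, well spaced. -/
theorem gap_primes : ∃ δ : ℝ, 0 < δ ∧ δ < 1 / 2 ∧ ∀ κ : ℝ, 0 < κ → κ < 1 / 4 → ∃ c : ℝ, 0 < c ∧
    ∀ᶠ x : ℝ in atTop, ∃ φ : ℕ → ℕ,
      (∀ j, j < ⌊x ^ (1 - δ - κ)⌋₊ → (φ j).Prime ∧ x + c * f x ≤ φ j ∧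
        (φ j : ℝ) + 1 ≤ x + x ^ (1 - δ) ∧
        ∀ q : ℕ, q.Prime → q < φ j → c * f x < (φ j : ℝ) - q) ∧
      ∀ i j : ℕ, i < j → j < ⌊x ^ (1 - δ - κ)⌋₊ →
        (φ i : ℝ) + ((j : ℝ) - i) * x ^ (κ / 4) ≤ φ j := by
  obtain ⟨δ, hδ0, hδ1, hpw⟩ := prime_window
  refine ⟨δ, hδ0, hδ1, fun κ hκ hκ1 => ?_⟩
  set θ : ℝ := κ / 4 with hθ
  have hθ0 : 0 < θ := by positivity
  obtain ⟨c₀, hc₀, hw⟩ := windows θ hθ0 (by rw [hθ]; linarith) 0
  set c : ℝ := min c₀ 1 with hc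
  have hc0 : 0 < c := lt_min hc₀ one_pos
  have hcc₀ : c ≤ c₀ := min_le_left _ _
  have hc1 : c ≤ 1 := min_le_right _ _
  refine ⟨c, hc0, ?_⟩
  have t1 : ∀ᶠ x : ℝ in atTop, 8 ≤ x ^ θ := (tendsto_rpow_atTop hθ0).eventually_ge_atTop _
  have t2 : ∀ᶠ x : ℝ in atTop, 8 ≤ x ^ (κ / 2 - θ) :=
    (tendsto_rpow_atTop (by rw [hθ]; linarith)).eventually_ge_atTop _
  have t3 : ∀ᶠ x : ℝ in atTop, 2 ≤ x ^ (1 - δ - κ) :=
    (tendsto_rpow_atTop (by linarith)).eventually_ge_atTop _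
  filter_upwards [hw, hpw (κ / 2) (by positivity) 1 2 one_pos (by norm_num), t1, t2, t3,
    f_le_rpow hθ0, eventually_ge_atTop (1 : ℝ)] with x hwx hpx h1 h2 h3 h4 hx1
  have hx0 : 0 < x := by linarith
  obtain ⟨ψ, hψ1, hψ2⟩ := hpx 1 le_rfl (by norm_num)
  rw [one_mul] at hψ1
  set K1 : ℕ := ⌊x ^ (1 - δ - κ / 2)⌋₊ with hK1
  set K : ℕ := ⌊x ^ (1 - δ - κ)⌋₊ with hK
  set m : ℕ := ⌈2 * x ^ θ⌉₊ + 1 with hm
  have hm1 : 2 * x ^ θ + 1 ≤ m := by
    rw [hm]; push_cast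
    linarith [Nat.le_ceil (2 * x ^ θ)]
  have hm2 : (m : ℝ) ≤ 3 * x ^ θ := by
    rw [hm]; push_cast
    have := Nat.ceil_lt_add_one (show 0 ≤ 2 * x ^ θ by positivity)
    linarith
  have hmpos : 1 ≤ m := by omega
  -- `(K + 1) m ≤ K1`
  have hKm : ∀ j, j < K → (j + 1) * m < K1 := by
    intro j hj
    have e1 : (K : ℝ) ≤ x ^ (1 - δ - κ) := Nat.floor_le (by positivity)
    have e2 : x ^ (1 - δ - κ / 2) < K1 + 1 := Nat.lt_floor_add_one _
    have e3 : x ^ (1 - δ - κ / 2) = x ^ (1 - δ - κ) * x ^ θ * x ^ (κ / 2 - θ) := by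
      rw [← Real.rpow_add hx0, ← Real.rpow_add hx0]
      congr 1
      ring
    have e4 : ((j : ℝ) + 1) ≤ K := by exact_mod_cast hj
    have e5 : ((j : ℝ) + 1) * m ≤ x ^ (1 - δ - κ) * (3 * x ^ θ) :=
      mul_le_mul (e4.trans e1) hm2 (Nat.cast_nonneg _) (by positivity)
    have e6 : x ^ (1 - δ - κ) * x ^ θ * 8 ≤ x ^ (1 - δ - κ / 2) := by
      rw [e3]
      exact mul_le_mul_of_nonneg_left h2 (by positivity)
    have e7 : 16 ≤ x ^ (1 - δ - κ) * x ^ θ := by nlinarith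
    have e8 : ((j : ℝ) + 1) * m + 1 < K1 + 1 := by nlinarith
    have e9 : (((j + 1) * m : ℕ) : ℝ) < (K1 : ℝ) := by
      push_cast
      linarith
    exact_mod_cast e9
  -- the prime belonging to an index
  have hex : ∀ j : ℕ, ∃ p : ℕ, j < K → (p.Prime ∧ p ≤ ψ ((j + 1) * m) ∧
      (ψ ((j + 1) * m) : ℝ) ≤ p + x ^ θ + 1 ∧
      ∀ q : ℕ, q.Prime → q < p → c * f x < (p : ℝ) - q) := by
    intro j
    by_cases hj : j < K
    swap
    · exact ⟨0, fun h => absurd h hj⟩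
    have hj1 := hKm j hj
    obtain ⟨k1, k2, k3⟩ := hψ1 _ hj1
    set P : ℕ := ψ ((j + 1) * m) with hP
    -- `P ≥ x + m`
    have hPx : x + m ≤ P := by
      obtain ⟨l1, l2, l3⟩ := hψ1 0 (by omega)
      have l4 := hψ2 0 ((j + 1) * m) (by positivity) hj1
      have l5 : ((ψ 0 + ((j + 1) * m - 0) : ℕ) : ℝ) ≤ (P : ℝ) := by exact_mod_cast l4
      push_cast at l5
      have l6 : (m : ℝ) ≤ (((j : ℝ) + 1) * m - 0) := by
        have : (0 : ℝ) ≤ j := Nat.cast_nonneg _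
        nlinarith [show (0 : ℝ) ≤ m from Nat.cast_nonneg _]
      simp only [Nat.sub_zero] at l5
      push_cast at l5
      linarith
    obtain ⟨n, -, n1, n2, n3⟩ := hwx 1 0 le_rfl
      (fun p hp hp1 => absurd (Nat.dvd_one.1 hp1) hp.one_lt.ne')
      (by simpa using Real.one_le_rpow hx1 (by positivity : 0 ≤ θ / 2))
      ((P : ℝ) - x ^ θ - 1) (by linarith)
    have hfar := n3 n le_rfl (by linarith)
    have hnP : n < P := by
      have : (n : ℝ) ≤ P - 1 := by linarith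
      have h8 : (n : ℝ) < P := by linarith
      exact_mod_cast h8
    -- least prime above `n`
    have hexp : ∃ p, n < p ∧ p.Prime := ⟨P, hnP, k1⟩
    classical
    set p := Nat.find hexp with hp
    obtain ⟨p1, p2⟩ := Nat.find_spec hexp
    refine ⟨p, fun _ => ⟨p2, Nat.find_min' hexp ⟨hnP, k1⟩, ?_, fun q hq hqp => ?_⟩⟩
    · have : (n : ℝ) < p := by exact_mod_cast p1
      linarith
    · have hqn : q ≤ n := by
        by_contra hcon
        push Not at hcon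
        exact Nat.find_min hexp hqp ⟨hcon, hq⟩
      have h9 := hfar q hq
      have hqn' : (q : ℝ) ≤ n := by exact_mod_cast hqn
      rw [abs_of_nonpos (by linarith)] at h9
      have h10 : (n : ℝ) < p := by exact_mod_cast p1
      have h11 : c * f x ≤ c₀ * f x := mul_le_mul_of_nonneg_right hcc₀ h4.1
      linarith
  choose φ hφ using hex
  have hm0 : (0 : ℝ) ≤ m := Nat.cast_nonneg _
  refine ⟨φ, fun j hj => ?_, fun i j hij hj => ?_⟩
  · obtain ⟨g1, g2, g3, g4⟩ := hφ j hj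
    have hj1 := hKm j hj
    obtain ⟨k1, k2, k3⟩ := hψ1 _ hj1
    obtain ⟨l1, l2, l3⟩ := hψ1 0 (by omega)
    have l4 := hψ2 0 ((j + 1) * m) (by positivity) hj1
    have l5 : ((ψ 0 + ((j + 1) * m - 0) : ℕ) : ℝ) ≤ (ψ ((j + 1) * m) : ℝ) := by exact_mod_cast l4
    simp only [Nat.sub_zero] at l5
    push_cast at l5
    have l6 : (m : ℝ) ≤ (((j : ℝ) + 1) * m) := by
      have : (0 : ℝ) ≤ j := Nat.cast_nonneg _
      nlinarith
    have l7 : c * f x ≤ x ^ θ := by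
      calc c * f x ≤ 1 * f x := mul_le_mul_of_nonneg_right hc1 h4.1
        _ ≤ x ^ θ := by linarith [h4.2]
    refine ⟨g1, by linarith, ?_, g4⟩
    have : (φ j : ℝ) ≤ ψ ((j + 1) * m) := by exact_mod_cast g2
    linarith
  · obtain ⟨g1, g2, g3, g4⟩ := hφ j hj
    obtain ⟨g1', g2', g3', g4'⟩ := hφ i (by omega)
    have hj1 := hKm j hj
    have l4 := hψ2 ((i + 1) * m) ((j + 1) * m) (by
      apply Nat.mul_lt_mul_of_pos_right _ hmpos
      omega) hj1
    have l5 : ((ψ ((i + 1) * m) + ((j + 1) * m - (i + 1) * m) : ℕ) : ℝ) ≤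
        (ψ ((j + 1) * m) : ℝ) := by exact_mod_cast l4
    rw [← Nat.sub_mul] at l5
    have l6 : j + 1 - (i + 1) = j - i := by omega
    rw [l6] at l5
    push_cast [Nat.cast_sub hij.le] at l5
    have l7 : (φ i : ℝ) ≤ ψ ((i + 1) * m) := by exact_mod_cast g2'
    have l8 : (1 : ℝ) ≤ (j : ℝ) - i := by
      have : ((i + 1 : ℕ) : ℝ) ≤ (j : ℝ) := by exact_mod_cast hij
      push_cast at this
      linarith
    have l9 : ((j : ℝ) - i) * (2 * x ^ θ + 1) ≤ ((j : ℝ) - i) * m :=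
      mul_le_mul_of_nonneg_left hm1 (by linarith)
    have l10 : x ^ θ + 1 ≤ ((j : ℝ) - i) * (x ^ θ + 1) :=
      le_mul_of_one_le_left (by positivity) l8
    nlinarith

end Pool.Agent.Q273.CG
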