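import Mathlib
import Pool.Agent.Q273.CG.Dil

/-!
# Powers `A ^ (x n)` all of which lie in record gaps
-/

set_option autoImplicit false

namespace Pool.Agent.Q273.CG

open Set Filter Topology MeasureTheory
open scoped ENNReal NNReal

/-- `f y ≤ 4 f x` for large `x` and `x^θ ≤ y ≤ x`. -/
theorem f_le {θ : ℝ} (h0 : 0 < θ) (h1 : θ ≤ 1) :
    ∀ᶠ x : ℝ in atTop, ∀ y : ℝ, x ^ θ ≤ y → y ≤ x → f y ≤ 4 * f x := by
  have hl : Tendsto Real.log atTop atTop := Real.tendsto_log_atTop
  have h2 : Tendsto (fun x => Real.log (Real.log x)) atTop atTop := hl.comp hl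
  have h3 : Tendsto (fun x => Real.log (Real.log (Real.log x))) atTop atTop :=
    hl.comp (hl.comp hl)
  have h4 : Tendsto (fun x => Real.log (Real.log (Real.log (Real.log x)))) atTop atTop :=
    hl.comp (hl.comp (hl.comp hl))
  have hθ : Real.log θ ≤ 0 := Real.log_nonpos h0.le h1
  filter_upwards [eventually_gt_atTop (1 : ℝ), hl.eventually_ge_atTop 4,
    h2.eventually_ge_atTop (max 4 (-2 * Real.log θ)), h3.eventually_ge_atTop (max 4 (2 * Real.log 2)),
    h4.eventually_ge_atTop (max 4 (2 * Real.log 2))] with x hx1 hx2 hx3 hx4 hx5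
  have hx0 : 0 < x := by linarith
  simp only [max_le_iff] at hx3 hx4 hx5
  obtain ⟨hx3, hx3'⟩ := hx3
  obtain ⟨hx4, hx4'⟩ := hx4
  obtain ⟨hx5, hx5'⟩ := hx5
  intro y hy1 hy2
  have hy0 : 0 < y := lt_of_lt_of_le (Real.rpow_pos_of_pos hx0 θ) hy1
  have e1 : θ * Real.log x ≤ Real.log y := by
    rw [← Real.log_rpow hx0 θ]
    exact Real.log_le_log (Real.rpow_pos_of_pos hx0 θ) hy1
  have e1' : Real.log y ≤ Real.log x := Real.log_le_log hy0 hy2
  have hθx : 0 < θ * Real.log x := mul_pos h0 (by linarith)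
  have e2 : Real.log θ + Real.log (Real.log x) ≤ Real.log (Real.log y) := by
    rw [← Real.log_mul h0.ne' (by linarith)]
    exact Real.log_le_log hθx e1
  have e3 : Real.log (Real.log x) / 2 ≤ Real.log (Real.log y) := by linarith
  have e3' : Real.log (Real.log y) ≤ Real.log (Real.log x) :=
    Real.log_le_log (by linarith) e1'
  have e4 : Real.log (Real.log (Real.log x)) - Real.log 2 ≤ Real.log (Real.log (Real.log y)) := by
    rw [← Real.log_div (by linarith) (by norm_num)]
    exact Real.log_le_log (by linarith) e3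
  have e4' : Real.log (Real.log (Real.log y)) ≤ Real.log (Real.log (Real.log x)) :=
    Real.log_le_log (by linarith) e3'
  have e5 : Real.log (Real.log (Real.log x)) / 2 ≤ Real.log (Real.log (Real.log y)) := by linarith
  have e5' : Real.log (Real.log (Real.log (Real.log y))) ≤
      Real.log (Real.log (Real.log (Real.log x))) :=
    Real.log_le_log (by linarith) e4'
  have e6 : Real.log (Real.log (Real.log (Real.log x))) / 2 ≤
      Real.log (Real.log (Real.log (Real.log y))) := by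
    have h5 : Real.log (Real.log (Real.log (Real.log x))) - Real.log 2 ≤
        Real.log (Real.log (Real.log (Real.log y))) := by
      rw [← Real.log_div (by linarith) (by norm_num)]
      exact Real.log_le_log (by linarith) e5
    linarith
  unfold f
  set A := Real.log x
  set B := Real.log A
  set C := Real.log B
  set D := Real.log C
  set A' := Real.log y
  set B' := Real.log A'
  set C' := Real.log B'
  set D' := Real.log C'
  have hC' : 0 < C' := by linarith
  have hC : 0 < C := by linarith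
  have hB : 0 < B := by linarith
  have hA : 0 < A := by linarith
  have hD : 0 < D := by linarith
  have hA' : 0 < A' := lt_of_lt_of_le hθx e1
  have hB' : 0 < B' := by linarith
  have hD' : 0 < D' := by linarith
  rw [div_le_iff₀ (by positivity)]
  have k1 : (C / 2) ^ 2 ≤ C' ^ 2 := by gcongr
  calc A' * B' ^ 2 * D' ≤ A * B ^ 2 * D := by gcongr
    _ = 4 * (A * B ^ 2 * D / C ^ 2) * (C / 2) ^ 2 := by field_simp; ring
    _ ≤ 4 * (A * B ^ 2 * D / C ^ 2) * C' ^ 2 := by gcongr

/-- Bernoulli, lower bound for differences of powers -/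
lemma rpow_sub_ge {p q X : ℝ} (hp : 0 < p) (hpq : p ≤ q) (hX : 1 ≤ X) :
    p ^ X + X * p ^ (X - 1) * (q - p) ≤ q ^ X := by
  have h1 := one_add_mul_self_le_rpow_one_add (s := (q - p) / p)
    (by have : 0 ≤ (q - p) / p := div_nonneg (by linarith) hp.le
        linarith) hX
  have h2 : 1 + (q - p) / p = q / p := by field_simp; ring
  rw [h2, Real.div_rpow (by linarith) hp.le, le_div_iff₀ (Real.rpow_pos_of_pos hp X)] at h1
  have h3 : p ^ (X - 1) = p ^ X / p := Real.rpow_sub_one hp.ne' X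
  rw [h3]
  calc p ^ X + X * (p ^ X / p) * (q - p) = (1 + X * ((q - p) / p)) * p ^ X := by field_simp
    _ ≤ q ^ X := h1

/-- Bernoulli, upper bound for differences of powers -/
lemma rpow_sub_le {p q X : ℝ} (hp : 0 < p) (hpq : p ≤ q) (hX : 1 ≤ X) :
    q ^ X ≤ p ^ X + X * q ^ (X - 1) * (q - p) := by
  have hq : 0 < q := by linarith
  have h1 := one_add_mul_self_le_rpow_one_add (s := (p - q) / q)
    (by rw [le_div_iff₀ hq]; linarith) hX
  have h2 : 1 + (p - q) / q = p / q := by field_simp; ring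
  rw [h2, Real.div_rpow hp.le hq.le, le_div_iff₀ (Real.rpow_pos_of_pos hq X)] at h1
  have h3 : q ^ (X - 1) = q ^ X / q := Real.rpow_sub_one hq.ne' X
  rw [h3]
  have h4 : (1 + X * ((p - q) / q)) * q ^ X = q ^ X - X * (q ^ X / q) * (q - p) := by
    field_simp
    ring
  linarith

theorem mills_core (ε δ : ℝ) (h0 : 0 < ε) (h1 : ε < 1) (hδ : 0 < δ) (B : ℕ) :
    ∃ c : ℝ, 0 < c ∧ ∃ η : ℝ, 0 < η ∧
    ∀ x : ℕ → ℝ, (∀ n, 0 < x n) → (∀ n, (1 + δ) * x n ≤ x (n + 1)) →
    ∀ d r : ℕ → ℕ, (∀ n, 1 ≤ d n) → (∀ n, ∀ p : ℕ, p.Prime → p ∣ d n → p ≤ B) →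
    ∀ u v : ℝ, 1 < u → u < v → (∀ᶠ n in atTop, (d n : ℝ) ≤ u ^ (η * x n)) →
    ENNReal.ofReal (1 - ε) ≤
      dimH {A : ℝ | u < A ∧ A < v ∧ ∀ᶠ n in atTop, ⌊A ^ x n⌋₊ ≡ r n [MOD d n] ∧
        Far (c * f (A ^ x n)) (A ^ x n)} := by
  set θ : ℝ := ε / (5 + 4 / δ) with hθ
  have h5 : 0 < 5 + 4 / δ := by positivity
  have hθ0 : 0 < θ := by positivity
  have hθε : θ * (5 + 4 / δ) = ε := by rw [hθ]; field_simp
  have h4δ : 0 < 4 / δ := by positivity
  have hθ5 : 5 * θ ≤ ε := by nlinarith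
  have hθ1 : θ ≤ 1 / 5 := by linarith
  obtain ⟨c, hc, hw⟩ := windows θ hθ0 (by linarith) B
  refine ⟨c / 4, by positivity, θ / 2, by positivity, fun x hx hxδ d r hd hdB u v hu huv hdu => ?_⟩
  -- `x n → ∞`
  have hxt : Tendsto x atTop atTop := by
    have h2 : ∀ n, x 0 * (1 + δ) ^ n ≤ x n := by
      intro n
      induction n with
      | zero => simp
      | succ n ih =>
        calc x 0 * (1 + δ) ^ (n + 1) = (1 + δ) * (x 0 * (1 + δ) ^ n) := by ring
          _ ≤ (1 + δ) * x n := by gcongr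
          _ ≤ _ := hxδ n
    exact tendsto_atTop_mono h2
      ((tendsto_pow_atTop_atTop_of_one_lt (by linarith)).const_mul_atTop (hx 0))
  -- the interval
  set a : ℝ := (u + v) / 2 with ha
  have hua : u < a := by rw [ha]; linarith
  have hav : a < v := by rw [ha]; linarith
  have ha1 : 1 < a := by linarith
  have ha0 : 0 < a := by linarith
  have haθ : a < a ^ (1 + θ) := by
    calc a = a ^ (1 : ℝ) := (Real.rpow_one a).symm
      _ < a ^ (1 + θ) := Real.rpow_lt_rpow_of_exponent_lt ha1 (by linarith)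
  set b : ℝ := min ((a + v) / 2) (a ^ (1 + θ)) with hb
  have hab : a < b := lt_min (by linarith) haθ
  have hbv : b < v := lt_of_le_of_lt (min_le_left _ _) (by linarith)
  have hbθ : b ≤ a ^ (1 + θ) := min_le_right _ _
  have hb0 : 0 < b := by linarith
  -- `G n = a^((1+θ) x n)`
  have hGt : Tendsto (fun n => a ^ ((1 + θ) * x n)) atTop atTop := by
    have h2 : Tendsto (fun n => (1 + θ) * x n) atTop atTop := hxt.const_mul_atTop (by linarith)
    exact (tendsto_rpow_atTop_of_base_gt_one _ ha1).comp h2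
  have ht1 : ∀ᶠ y : ℝ in atTop, 2 * y ≤ a ^ (θ * y) := by
    have h2 : Tendsto (fun y : ℝ => Real.exp (Real.log a * θ * y) / y) atTop atTop := by
      have h3 := tendsto_exp_mul_div_rpow_atTop 1 (Real.log a * θ)
        (mul_pos (Real.log_pos ha1) hθ0)
      simpa using h3
    filter_upwards [h2.eventually_ge_atTop 2, eventually_gt_atTop (0 : ℝ)] with y hy1 hy2
    rw [le_div_iff₀ hy2] at hy1
    rw [Real.rpow_def_of_pos ha0]
    rwa [← mul_assoc]
  have ht2 : ∀ᶠ y : ℝ in atTop, 16 * a ≤ a ^ (θ * y) := by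
    have h2 : Tendsto (fun y : ℝ => θ * y) atTop atTop := tendsto_id.const_mul_atTop hθ0
    exact ((tendsto_rpow_atTop_of_base_gt_one _ ha1).comp h2).eventually_ge_atTop (16 * a)
  have hbase : ∀ᶠ y : ℝ in atTop, (2 * y ≤ a ^ (θ * y) ∧ 16 * a ≤ a ^ (θ * y)) ∧
      (1 ≤ y ∧ 1 / (b - a) ≤ y) :=
    (ht1.and ht2).and ((eventually_ge_atTop _).and (eventually_ge_atTop _))
  obtain ⟨N0, hN0⟩ := eventually_atTop.1 ((hGt.eventually hw).and (hdu.and
    ((hxt.eventually hbase).and (hGt.eventually (f_le (θ := 1 / 2) (by norm_num) (by norm_num))))))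
  set y : ℕ → ℝ := fun k => x (N0 + k) with hy
  have hypos : ∀ k, 0 < y k := fun k => hx _
  have hy1 : ∀ k, 1 ≤ y k := fun k => (hN0 (N0 + k) (by omega)).2.2.1.2.1
  have hystep : ∀ k, (1 + δ) * y k ≤ y (k + 1) := fun k => hxδ (N0 + k)
  set ℓ : ℕ → ℝ := fun k => 1 / (2 * y k * a ^ ((1 + θ) * y k)) with hℓ
  set Δ : ℕ → ℝ := fun k => 2 * a * a ^ ((1 + θ) * θ * y (k + 1)) / (y (k + 1) * a ^ (y (k + 1)))
    with hΔ
  set T : ℕ → ℕ := fun k => ⌊ℓ k / (2 * Δ k)⌋₊ with hT
  have hapos : ∀ z : ℝ, 0 < a ^ z := fun z => Real.rpow_pos_of_pos ha0 z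
  have hℓpos : ∀ n, 0 < ℓ n := fun n => by
    have := hypos n
    have := hapos ((1 + θ) * y n)
    simp only [hℓ]; positivity
  have hΔpos : ∀ n, 0 < Δ n := fun n => by
    have := hypos (n + 1)
    have := hapos ((1 + θ) * θ * y (n + 1))
    have := hapos (y (n + 1))
    simp only [hΔ]; positivity
  set V : ℕ → ℝ := fun k => a ^ ((1 - 3 * θ) * y (k + 1) - (1 + θ) * y k) with hV
  have hVratio : ∀ k, 2 * V k ≤ ℓ k / (2 * Δ k) := by
    intro k
    have e1 : ℓ k / (2 * Δ k) = (y (k + 1) / y k) *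
        (a ^ (y (k + 1)) / (a ^ ((1 + θ) * y k) * a ^ ((1 + θ) * θ * y (k + 1)))) / (8 * a) := by
      simp only [hℓ, hΔ]
      have := (hypos k).ne'
      have := (hypos (k + 1)).ne'
      have := (hapos ((1 + θ) * y k)).ne'
      have := (hapos (y (k + 1))).ne'
      have := (hapos ((1 + θ) * θ * y (k + 1))).ne'
      field_simp
      ring
    have e2 : a ^ (y (k + 1)) / (a ^ ((1 + θ) * y k) * a ^ ((1 + θ) * θ * y (k + 1))) =
        a ^ (y (k + 1) - ((1 + θ) * y k + (1 + θ) * θ * y (k + 1))) := by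
      rw [Real.rpow_sub ha0, Real.rpow_add ha0]
    have e3 : 1 ≤ y (k + 1) / y k := by
      rw [le_div_iff₀ (hypos k)]
      have := hystep k
      have := hypos k
      nlinarith
    have e4 : V k * a ^ (θ * y (k + 1)) ≤
        a ^ (y (k + 1) - ((1 + θ) * y k + (1 + θ) * θ * y (k + 1))) := by
      simp only [hV]
      rw [← Real.rpow_add ha0]
      apply Real.rpow_le_rpow_of_exponent_le ha1.le
      have := hypos (k + 1)
      nlinarith [mul_pos hθ0 this]
    have e5 := (hN0 (N0 + (k + 1)) (by omega)).2.2.1.1.2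
    have hVpos : 0 < V k := hapos _
    rw [e1, e2, le_div_iff₀ (by positivity)]
    calc 2 * V k * (8 * a) = V k * (16 * a) := by ring
      _ ≤ V k * a ^ (θ * y (k + 1)) := mul_le_mul_of_nonneg_left e5 hVpos.le
      _ ≤ a ^ (y (k + 1) - ((1 + θ) * y k + (1 + θ) * θ * y (k + 1))) := e4
      _ ≤ y (k + 1) / y k * a ^ (y (k + 1) - ((1 + θ) * y k + (1 + θ) * θ * y (k + 1))) :=
          le_mul_of_one_le_left (hapos _).le e3
  have hδθ : θ * (4 + 3 * δ) ≤ δ := by
    have h6 : θ * (5 * δ + 4) = ε * δ := by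
      rw [← hθε]; field_simp
    nlinarith [mul_pos hθ0 hδ]
  have hV1 : ∀ k, 1 ≤ V k := by
    intro k
    apply Real.one_le_rpow ha1.le
    have h6 := hystep k
    have h7 := hypos k
    have h8 : 0 ≤ (1 - 3 * θ) := by linarith
    nlinarith [mul_le_mul_of_nonneg_left h6 h8]
  have hTy : ∀ k, V k ≤ T k ∧ ℓ k / (4 * Δ k) ≤ T k ∧ (T k : ℝ) ≤ ℓ k / (2 * Δ k) := by
    intro k
    have h2 := hVratio k
    have h3 := hV1 k
    have h4 : (T k : ℝ) ≤ ℓ k / (2 * Δ k) := Nat.floor_le (by linarith)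
    have h6 : ℓ k / (2 * Δ k) < T k + 1 := Nat.lt_floor_add_one _
    have h7 : ℓ k / (4 * Δ k) = ℓ k / (2 * Δ k) / 2 := by
      have := (hΔpos k).ne'
      field_simp
      ring
    refine ⟨by linarith, ?_, h4⟩
    rw [h7]
    linarith
  set τ : ℝ := 1 - 3 * θ - 4 * θ / δ with hτ
  set s : ℝ≥0 := ⟨1 - ε, by linarith⟩ with hs
  have hsr : (s : ℝ) = 1 - ε := rfl
  have hs0 : 0 < s := by
    have : (0 : ℝ) < (s : ℝ) := by rw [hsr]; linarith
    exact_mod_cast this
  have hsτ : (1 - ε) * (1 + 2 * θ) ≤ τ := by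
    have h6 : 4 * θ / δ = θ * (4 / δ) := by ring
    rw [hτ, h6]
    nlinarith [mul_pos h0 hθ0]
  have key := le_dimH_all (a := a) (b := b) (c := a ^ (-(τ * y 0))) (s := s) hs0
    (by rw [hsr]; linarith) (hapos _) ℓ Δ T
    (fun k => {A | ⌊A ^ y (k + 1)⌋₊ ≡ r (N0 + (k + 1)) [MOD d (N0 + (k + 1))] ∧
      Far (c / 4 * f (A ^ y (k + 1))) (A ^ y (k + 1))}) hℓpos ?_ ?_ hΔpos ?_ ?_ ?_ ?_
  · have h2 : ENNReal.ofReal (1 - ε) = (s : ℝ≥0∞) := by
      rw [← hsr]
      exact ENNReal.ofReal_coe_nnreal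
    rw [h2]
    refine key.trans (dimH_mono ?_)
    rintro A ⟨hA1, hA2, hA3⟩
    refine ⟨by linarith, by linarith, ?_⟩
    rw [eventually_atTop]
    refine ⟨N0 + 1, fun n hn => ?_⟩
    obtain ⟨k, rfl⟩ := Nat.exists_eq_add_of_le hn
    have := hA3 k
    simp only [hy] at this
    rw [show N0 + 1 + k = N0 + (k + 1) by ring]
    exact this
  · -- `ℓ → 0`
    have h2 : Tendsto y atTop atTop := by
      have := (tendsto_add_atTop_iff_nat N0).2 hxt
      refine this.congr fun k => ?_
      simp only [hy]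
      rw [add_comm]
    have h3 : Tendsto (fun k => (y k)⁻¹) atTop (𝓝 0) := h2.inv_tendsto_atTop
    refine squeeze_zero (fun k => (hℓpos k).le) (fun k => ?_) h3
    simp only [hℓ]
    rw [inv_eq_one_div]
    apply one_div_le_one_div_of_le (hypos k)
    have h6 : 1 ≤ a ^ ((1 + θ) * y k) := Real.one_le_rpow ha1.le (by have := hypos k; positivity)
    have := hypos k
    nlinarith
  · -- `ℓ 0 ≤ b - a`
    have h2 := (hN0 (N0 + 0) (by omega)).2.2.1.2.2
    have h6 : 1 ≤ a ^ ((1 + θ) * y 0) := Real.one_le_rpow ha1.le (by have := hypos 0; positivity)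
    have h7 : 0 < b - a := by linarith
    simp only [hℓ]
    have h8 := hypos 0
    have h9 : 1 / (b - a) ≤ y 0 := h2
    rw [div_le_iff₀ h7] at h9
    rw [div_le_iff₀ (by positivity)]
    calc 1 ≤ y 0 * (b - a) := h9
      _ ≤ (2 * y 0 * a ^ ((1 + θ) * y 0)) * (b - a) := by
          apply mul_le_mul_of_nonneg_right _ h7.le
          nlinarith
      _ = (b - a) * (2 * y 0 * a ^ ((1 + θ) * y 0)) := by ring
  · intro k
    have h2 := (hTy k).2.2
    have h3 := hΔpos k
    rw [le_div_iff₀ (by positivity)] at h2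
    linarith
  · intro k
    have h2 := (hTy k).2.1
    have h3 := hΔpos k
    rw [div_le_iff₀ (by positivity)] at h2
    have : (0 : ℝ) ≤ T k := Nat.cast_nonneg _
    nlinarith [mul_nonneg this h3.le]
  · intro k
    have h2 : ∀ k, a ^ (τ * (y k - y 0)) ≤ ∏ i ∈ Finset.range k, (T i : ℝ) := by
      intro k
      induction k with
      | zero => simp
      | succ k ih =>
        rw [Finset.prod_range_succ]
        have h3 : a ^ (τ * (y (k + 1) - y 0)) ≤ a ^ (τ * (y k - y 0)) * V k := by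
          simp only [hV]
          rw [← Real.rpow_add ha0]
          apply Real.rpow_le_rpow_of_exponent_le ha1.le
          have h6 := hystep k
          have h7 : 4 * θ / δ * ((1 + δ) * y k) ≤ 4 * θ / δ * y (k + 1) :=
            mul_le_mul_of_nonneg_left h6 (by positivity)
          have h8 : 4 * θ / δ * ((1 + δ) * y k) = 4 * θ / δ * y k + 4 * θ * y k := by
            field_simp
          rw [hτ]
          nlinarith
        exact h3.trans (mul_le_mul ih (hTy k).1 (by linarith [hV1 k])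
          (Finset.prod_nonneg fun i _ => Nat.cast_nonneg _))
    refine le_trans ?_ (h2 k)
    have h3 : (ℓ k) ^ (-(s : ℝ)) ≤ a ^ (τ * y k) := by
      rw [hsr]
      simp only [hℓ]
      have h6 := hypos k
      have h7 := hapos ((1 + θ) * y k)
      rw [one_div, Real.inv_rpow (by positivity), Real.rpow_neg (by positivity), inv_inv]
      have h8 : 2 * y k * a ^ ((1 + θ) * y k) ≤ a ^ ((1 + 2 * θ) * y k) := by
        have h9 := (hN0 (N0 + k) (by omega)).2.2.1.1.1
        calc 2 * y k * a ^ ((1 + θ) * y k) ≤ a ^ (θ * y k) * a ^ ((1 + θ) * y k) :=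
              mul_le_mul_of_nonneg_right h9 h7.le
          _ = a ^ ((1 + 2 * θ) * y k) := by
              rw [← Real.rpow_add ha0]
              congr 1
              ring
      calc (2 * y k * a ^ ((1 + θ) * y k)) ^ (1 - ε) ≤ (a ^ ((1 + 2 * θ) * y k)) ^ (1 - ε) :=
            Real.rpow_le_rpow (by positivity) h8 (by linarith)
        _ = a ^ ((1 - ε) * (1 + 2 * θ) * y k) := by
            rw [← Real.rpow_mul ha0.le]
            congr 1
            ring
        _ ≤ a ^ (τ * y k) := Real.rpow_le_rpow_of_exponent_le ha1.le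
            (mul_le_mul_of_nonneg_right hsτ h6.le)
    calc a ^ (-(τ * y 0)) * (ℓ k) ^ (-(s : ℝ)) ≤ a ^ (-(τ * y 0)) * a ^ (τ * y k) :=
          mul_le_mul_of_nonneg_left h3 (hapos _).le
      _ = a ^ (τ * (y k - y 0)) := by
          rw [← Real.rpow_add ha0]
          congr 1
          ring
  · intro k w hw1 hw2
    obtain ⟨h3, h4, -, h6⟩ := hN0 (N0 + (k + 1)) (by omega)
    set X : ℝ := y (k + 1) with hX
    have hX1 : 1 ≤ X := hy1 _
    have hX0 : 0 < X := by linarith
    have hw0 : 0 < w := by linarith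
    set G : ℝ := a ^ ((1 + θ) * X) with hG
    have hG0 : 0 < G := hapos _
    have hxX : x (N0 + (k + 1)) = X := rfl
    rw [hxX] at h4
    have hdk : (d (N0 + (k + 1)) : ℝ) ≤ G ^ (θ / 2) := by
      refine h4.trans ?_
      rw [hG, ← Real.rpow_mul ha0.le]
      calc u ^ (θ / 2 * X) ≤ a ^ (θ / 2 * X) := Real.rpow_le_rpow (by linarith) hua.le (by positivity)
        _ ≤ a ^ ((1 + θ) * X * (θ / 2)) := by
            apply Real.rpow_le_rpow_of_exponent_le ha1.le
            nlinarith [mul_pos (mul_pos hθ0 hθ0) hX0]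
    obtain ⟨n, hn1, hn2, hn3, hn4⟩ := h3 (d (N0 + (k + 1))) (r (N0 + (k + 1))) (hd _) (hdB _)
      hdk (w ^ X) (Real.rpow_nonneg hw0.le _)
    have hwX : 0 < w ^ X := Real.rpow_pos_of_pos hw0 X
    have hn0 : (0 : ℝ) < n := by linarith
    set t : ℝ := (n : ℝ) ^ (1 / X) with ht
    have ht0 : 0 < t := Real.rpow_pos_of_pos hn0 _
    have htX : t ^ X = n := by
      rw [ht, ← Real.rpow_mul hn0.le, one_div_mul_cancel hX0.ne', Real.rpow_one]
    have hwt : w ≤ t := by
      by_contra hcon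
      push Not at hcon
      have := Real.rpow_le_rpow ht0.le hcon.le hX0.le
      rw [htX] at this
      linarith
    have hΔk : X * a ^ (X - 1) * (Δ k / 2) = G ^ θ := by
      simp only [hΔ]
      rw [Real.rpow_sub_one ha0.ne', hG, ← Real.rpow_mul ha0.le,
        show (1 + θ) * X * θ = (1 + θ) * θ * X by ring]
      have := (hapos X).ne'
      have hy2 : y (k + 1) = X := rfl
      rw [hy2]
      field_simp
    have htΔ : t ≤ w + Δ k / 2 := by
      by_contra hcon
      push Not at hcon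
      have hΔk0 := hΔpos k
      have h7 := rpow_sub_ge hw0 (show w ≤ w + Δ k / 2 by linarith) hX1
      have h8 : (w + Δ k / 2) ^ X < t ^ X := Real.rpow_lt_rpow (by positivity) hcon hX0
      have h9 : X * a ^ (X - 1) * (Δ k / 2) ≤ X * w ^ (X - 1) * (w + Δ k / 2 - w) := by
        rw [add_sub_cancel_left]
        apply mul_le_mul_of_nonneg_right _ (by positivity)
        apply mul_le_mul_of_nonneg_left _ hX0.le
        exact Real.rpow_le_rpow ha0.le hw1 (by linarith)
      rw [htX] at h8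
      linarith
    have hℓΔ : ℓ (k + 1) ≤ Δ k / 2 := by
      simp only [hℓ, hΔ]
      have hy2 : y (k + 1) = X := rfl
      rw [hy2]
      have e1 := hapos X
      have e2 : 1 ≤ a ^ ((1 + θ) * θ * X) := Real.one_le_rpow ha1.le (by positivity)
      have e3 : a ^ X ≤ a ^ ((1 + θ) * X) := by
        apply Real.rpow_le_rpow_of_exponent_le ha1.le
        nlinarith
      calc 1 / (2 * X * a ^ ((1 + θ) * X)) ≤ 1 / (X * a ^ X) := by
            apply one_div_le_one_div_of_le (by positivity)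
            nlinarith [mul_pos hX0 e1, mul_le_mul_of_nonneg_left e3 hX0.le]
        _ ≤ (a * a ^ ((1 + θ) * θ * X)) / (X * a ^ X) := by
            apply div_le_div_of_nonneg_right _ (by positivity)
            nlinarith
        _ = 2 * a * a ^ ((1 + θ) * θ * X) / (X * a ^ X) / 2 := by ring
    refine ⟨t, hwt, by linarith, ?_⟩
    rintro A ⟨hA1, hA2⟩
    have hA0 : 0 < A := by linarith
    have hAb : A ≤ b := by linarith
    have h7 : (n : ℝ) ≤ A ^ X := by
      rw [← htX]
      exact Real.rpow_le_rpow ht0.le hA1 hX0.le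
    have hbX : b ^ X ≤ G := by
      calc b ^ X ≤ (a ^ (1 + θ)) ^ X := Real.rpow_le_rpow hb0.le hbθ hX0.le
        _ = G := by rw [hG, Real.rpow_mul ha0.le]
    have h8 : A ^ X ≤ n + 1 / 2 := by
      have h9 := rpow_sub_le ht0 hA1 hX1
      rw [htX] at h9
      have h10 : X * A ^ (X - 1) * (A - t) ≤ 1 / 2 := by
        have h11 : A ^ (X - 1) ≤ G := by
          calc A ^ (X - 1) ≤ A ^ X := Real.rpow_le_rpow_of_exponent_le (by linarith) (by linarith)
            _ ≤ b ^ X := Real.rpow_le_rpow hA0.le hAb hX0.le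
            _ ≤ G := hbX
        have h12 : A - t ≤ ℓ (k + 1) := by linarith
        have h13 : 0 ≤ A - t := by linarith
        calc X * A ^ (X - 1) * (A - t) ≤ X * G * ℓ (k + 1) := by
              apply mul_le_mul _ h12 h13 (by positivity)
              exact mul_le_mul_of_nonneg_left h11 hX0.le
          _ = 1 / 2 := by
              simp only [hℓ]
              have hy2 : y (k + 1) = X := rfl
              rw [hy2, ← hG]
              field_simp
      linarith
    have h11 : ⌊A ^ X⌋₊ = n := by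
      rw [Nat.floor_eq_iff (by linarith)]
      exact ⟨h7, by linarith⟩
    have h12 : f (A ^ X) ≤ 4 * f G := by
      apply h6
      · rw [hG, ← Real.rpow_mul ha0.le]
        calc a ^ ((1 + θ) * X * (1 / 2)) ≤ a ^ X := by
              apply Real.rpow_le_rpow_of_exponent_le ha1.le
              nlinarith
          _ ≤ A ^ X := Real.rpow_le_rpow ha0.le (by linarith) hX0.le
      · exact (Real.rpow_le_rpow hA0.le hAb hX0.le).trans hbX
    refine ⟨by rw [h11]; exact hn1, (hn4 _ h7 (by linarith)).mono ?_⟩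
    calc c / 4 * f (A ^ X) ≤ c / 4 * (4 * f G) := by gcongr
      _ = c * f G := by ring

/-- the version with a constant that depends on `A` -/
theorem mills_one (δ : ℝ) (hδ : 0 < δ) (B : ℕ) (x : ℕ → ℝ) (hx : ∀ n, 0 < x n)
    (hxδ : ∀ n, (1 + δ) * x n ≤ x (n + 1)) (d r : ℕ → ℕ) (hd : ∀ n, 1 ≤ d n)
    (hdB : ∀ n, ∀ p : ℕ, p.Prime → p ∣ d n → p ≤ B)
    (hdR : ∀ η : ℝ, 0 < η → ∀ᶠ n in atTop, (d n : ℝ) ≤ Real.exp (η * x n)) (u v : ℝ)
    (hu : 1 < u) (huv : u < v) :
      dimH {A : ℝ | u < A ∧ A < v ∧ ∃ c : ℝ, 0 < c ∧ ∀ᶠ n in atTop,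
        ⌊A ^ x n⌋₊ ≡ r n [MOD d n] ∧ Far (c * f (A ^ x n)) (A ^ x n)} = 1 := by
  apply le_antisymm
  · calc dimH _ ≤ dimH (univ : Set ℝ) := dimH_mono (subset_univ _)
      _ = 1 := Real.dimH_univ
  · apply le_of_forall_lt
    intro y hy
    obtain ⟨z, hz1, hz2⟩ := exists_between hy
    have hzt : z ≠ ∞ := (hz2.trans_le le_top).ne
    lift z to ℝ≥0 using hzt
    have hz0 : 0 < z := by
      have := lt_of_le_of_lt zero_le hz1
      exact_mod_cast this
    have hz3 : (z : ℝ) < 1 := by exact_mod_cast hz2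
    have hz4 : (0 : ℝ) < z := by exact_mod_cast hz0
    obtain ⟨c, hc, η, hη, h⟩ := mills_core (1 - z) δ (by linarith) (by linarith) hδ B
    have hlu : 0 < Real.log u := Real.log_pos hu
    have h2 := h x hx hxδ d r hd hdB u v hu huv (by
      filter_upwards [hdR (Real.log u * η) (by positivity)] with n hn
      rw [Real.rpow_def_of_pos (by linarith)]
      rwa [← mul_assoc])
    have h3 : ENNReal.ofReal (1 - (1 - (z : ℝ))) = z := by
      rw [sub_sub_cancel]
      exact ENNReal.ofReal_coe_nnreal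
    rw [h3] at h2
    refine lt_of_lt_of_le hz1 (h2.trans (dimH_mono ?_))
    rintro α ⟨h4, h5, h6⟩
    exact ⟨h4, h5, c, hc, h6⟩

end Pool.Agent.Q273.CG
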