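import Mathlib
import Pool.Agent.Q273.CG.Tree2

/-!
# Two-step version of the Cantor construction
-/

set_option autoImplicit false

namespace Pool.Agent.Q273.CG

open Set Filter Topology MeasureTheory
open scoped ENNReal NNReal

/-- interlace two sequences -/
def alt {β : Type} (F G : ℕ → β) (m : ℕ) : β := if m % 2 = 0 then F (m / 2) else G (m / 2)

lemma alt_even {β : Type} (F G : ℕ → β) (k : ℕ) : alt F G (2 * k) = F k := by
  unfold alt
  rw [if_pos (by omega)]
  congr 1
  omega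

lemma alt_odd {β : Type} (F G : ℕ → β) (k : ℕ) : alt F G (2 * k + 1) = G k := by
  unfold alt
  rw [if_neg (by omega)]
  congr 1
  omega

lemma alt_prod (F G : ℕ → ℕ) (k : ℕ) :
    ∏ i ∈ Finset.range (2 * k), ((alt F G i : ℕ) : ℝ) = ∏ j ∈ Finset.range k, ((F j : ℝ) * G j) := by
  induction k with
  | zero => simp
  | succ k ih =>
    rw [show 2 * (k + 1) = 2 * k + 1 + 1 by ring, Finset.prod_range_succ, Finset.prod_range_succ,
      ih, alt_even, alt_odd, Finset.prod_range_succ]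
    ring

lemma alt_cases {P : ℕ → Prop} (h0 : ∀ k, P (2 * k)) (h1 : ∀ k, P (2 * k + 1)) (m : ℕ) : P m := by
  rcases Nat.even_or_odd' m with ⟨k, rfl | rfl⟩
  · exact h0 k
  · exact h1 k

/-- Two-step version: in every interval of length `ℓ k` one chooses windows of length `W k`, and in
every window `K k` intervals of length `ℓ (k + 1)` with separation `τ k`. -/
theorem le_dimH_two {a b c : ℝ} {s : ℝ≥0} (hs : 0 < s) (hs1 : (s : ℝ) ≤ 1) (hc : 0 < c)
    (ℓ W τ : ℕ → ℝ) (T K : ℕ → ℕ)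
    (A : ℕ → Set ℝ) (hℓ : ∀ n, 0 < ℓ n) (hℓ0 : Tendsto ℓ atTop (𝓝 0)) (hab : ℓ 0 ≤ b - a)
    (hW : ∀ n, 0 < W n) (hτ : ∀ n, 0 < τ n) (hT : ∀ n, 0 < T n) (hK : ∀ n, 0 < K n)
    (hTW : ∀ n, 2 * T n * W n ≤ ℓ n)
    (hprod0 : Tendsto (fun n => ∏ i ∈ Finset.range n, ((T i : ℝ) * K i)) atTop atTop)
    (hprod : ∀ n, c ≤ (∏ i ∈ Finset.range n, ((T i : ℝ) * K i)) * (T n * W n) ^ (s : ℝ))
    (hprod' : ∀ n, c ≤ (∏ i ∈ Finset.range n, ((T i : ℝ) * K i)) * T n * (K n * τ n) ^ (s : ℝ))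
    (hA : ∀ n w, a ≤ w → w + W n ≤ b → ∃ φ : ℕ → ℝ,
      (∀ j, j < K n → w ≤ φ j ∧ φ j + ℓ (n + 1) ≤ w + W n ∧ Icc (φ j) (φ j + ℓ (n + 1)) ⊆ A n) ∧
      ∀ i j : ℕ, i < j → j < K n → φ i + ℓ (n + 1) + ((j : ℝ) - i) * τ n ≤ φ j) :
    (s : ℝ≥0∞) ≤ dimH {α : ℝ | a ≤ α ∧ α ≤ b ∧ ∀ n, α ∈ A n} := by
  have hTr : ∀ n, (1 : ℝ) ≤ T n := fun n => by exact_mod_cast hT n
  have hKr : ∀ n, (1 : ℝ) ≤ K n := fun n => by exact_mod_cast hK n
  have hWℓ : ∀ n, W n ≤ ℓ n := fun n => by
    have h1 := hTW n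
    have h2 := hW n
    have h3 := hTr n
    nlinarith
  have key := le_dimH_children (a := a) (b := b) (c := c) (s := s) hs hs1 hc (alt ℓ W) (alt W τ)
    (alt T K) (alt (fun _ => univ) A) ?_ ?_ ?_ ?_ ?_ ?_ ?_ ?_
  · refine key.trans (dimH_mono ?_)
    rintro α ⟨h1, h2, h3⟩
    refine ⟨h1, h2, fun n => ?_⟩
    have := h3 (2 * n + 1)
    rwa [alt_odd] at this
  · exact alt_cases (fun k => by rw [alt_even]; exact hℓ k) (fun k => by rw [alt_odd]; exact hW k)
  · have h1 : Tendsto (fun m : ℕ => m / 2) atTop atTop :=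
      tendsto_atTop_atTop.2 fun b => ⟨2 * b, fun m hm => by omega⟩
    have h2 := hℓ0.comp h1
    refine squeeze_zero (alt_cases (fun k => by rw [alt_even]; exact (hℓ k).le)
      (fun k => by rw [alt_odd]; exact (hW k).le)) ?_ h2
    intro m
    simp only [Function.comp, alt]
    split_ifs
    · exact le_rfl
    · exact hWℓ _
  · have : alt ℓ W 0 = ℓ 0 := alt_even ℓ W 0
    rw [this]
    exact hab
  · exact alt_cases (fun k => by rw [alt_even]; exact hW k) (fun k => by rw [alt_odd]; exact hτ k)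
  · exact alt_cases (fun k => by rw [alt_even]; exact hT k) (fun k => by rw [alt_odd]; exact hK k)
  · have h1 : Tendsto (fun m : ℕ => m / 2) atTop atTop :=
      tendsto_atTop_atTop.2 fun b => ⟨2 * b, fun m hm => by omega⟩
    have h2 := hprod0.comp h1
    refine tendsto_atTop_mono (alt_cases (fun k => ?_) (fun k => ?_)) h2
    · simp only [Function.comp]
      rw [alt_prod, show 2 * k / 2 = k by omega]
    · simp only [Function.comp]
      rw [Finset.prod_range_succ, alt_prod, alt_even, show (2 * k + 1) / 2 = k by omega]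
      exact le_mul_of_one_le_right (Finset.prod_nonneg fun i _ => by positivity) (hTr k)
  · refine alt_cases (fun k => ?_) (fun k => ?_)
    · rw [alt_prod, alt_even, alt_even]
      exact hprod k
    · rw [Finset.prod_range_succ, alt_prod, alt_even, alt_odd, alt_odd]
      exact hprod' k
  · refine alt_cases (fun k => ?_) (fun k => ?_)
    · rw [alt_even, alt_even, alt_even, alt_even, alt_odd]
      intro w _ _
      refine ⟨fun j => w + 2 * j * W k, fun j hj => ?_, fun i j hij hj => ?_⟩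
      · have h1 : (j : ℝ) + 1 ≤ T k := by exact_mod_cast hj
        have h2 := hTW k
        have h3 := hW k
        refine ⟨by have : (0 : ℝ) ≤ 2 * j * W k := by positivity
                   linarith, ?_, subset_univ _⟩
        have h4 : 2 * ((j : ℝ) + 1) * W k ≤ 2 * T k * W k := by gcongr
        linarith
      · have h1 : (i : ℝ) + 1 ≤ j := by exact_mod_cast hij
        have h3 := hW k
        nlinarith
    · have e1 : alt ℓ W (2 * k + 1 + 1) = ℓ (k + 1) := by
        rw [show 2 * k + 1 + 1 = 2 * (k + 1) by ring, alt_even]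
      rw [e1, alt_odd, alt_odd, alt_odd, alt_odd]
      exact hA k

end Pool.Agent.Q273.CG
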