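import Mathlib
import Pool.Agent.Q273.CG.GP
import Pool.Agent.Q273.CG.Mills
import Pool.Agent.Q273.CG.Two

/-!
# Mills numbers with prescribed distances to the next prime
-/

set_option autoImplicit false

namespace Pool.Agent.Q273.CG

open Set Filter Topology MeasureTheory
open scoped ENNReal NNReal

/-- the children of a window -/
theorem mills_kids {δ θ c a b X w : ℝ} {H : ℕ} (hδ0 : 0 < δ) (hδ1 : δ < 1 / 2) (hθ0 : 0 < θ)
    (hθδ : 32 * θ ≤ δ) (hc : 0 < c) (ha1 : 1 < a) (hX1 : 1 ≤ X) (hw1 : a ≤ w)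
    (hbX : b ^ X ≤ a ^ ((1 + θ) * X))
    (hw2 : w + a * a ^ (-((1 - (1 + θ) * (1 - δ)) * X)) / X ≤ b)
    (hφ : ∃ φ : ℕ → ℕ,
      (∀ j, j < ⌊(w ^ X) ^ (1 - δ - θ)⌋₊ → (φ j).Prime ∧ w ^ X + c * f (w ^ X) ≤ φ j ∧
        (φ j : ℝ) + 1 ≤ w ^ X + (w ^ X) ^ (1 - δ) ∧
        ∀ q : ℕ, q.Prime → q < φ j → c * f (w ^ X) < (φ j : ℝ) - q) ∧
      ∀ i j : ℕ, i < j → j < ⌊(w ^ X) ^ (1 - δ - θ)⌋₊ →
        (φ i : ℝ) + ((j : ℝ) - i) * (w ^ X) ^ (θ / 4) ≤ φ j)
    (hge : ∀ r : ℝ, w ^ X ≤ r → ∀ y : ℝ, r ^ (1 / 2 : ℝ) ≤ y → y ≤ r → 1 / 2 / 8 * f r ≤ f y)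
    (hf0 : 0 ≤ f (w ^ X)) (hz4 : 4 ≤ w ^ X) (hHz : (H : ℝ) ≤ c / 8 * f (w ^ X)) :
    ∃ φ : ℕ → ℝ, (∀ j, j < ⌊(a ^ X) ^ (1 - δ - θ)⌋₊ → w ≤ φ j ∧
      φ j + 1 / (2 * X * a ^ ((1 + θ) * X)) ≤ w + a * a ^ (-((1 - (1 + θ) * (1 - δ)) * X)) / X ∧
      Icc (φ j) (φ j + 1 / (2 * X * a ^ ((1 + θ) * X))) ⊆ {A | (⌊A ^ X⌋₊ + H).Prime ∧
        ∀ q : ℕ, q.Prime → q < ⌊A ^ X⌋₊ + H → (q : ℝ) + c / 32 * f (A ^ X) < ⌊A ^ X⌋₊}) ∧
      ∀ i j : ℕ, i < j → j < ⌊(a ^ X) ^ (1 - δ - θ)⌋₊ →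
        φ i + 1 / (2 * X * a ^ ((1 + θ) * X)) +
          ((j : ℝ) - i) * (a ^ (θ / 4 * X) / (2 * X * a ^ ((1 + θ) * X))) ≤ φ j := by
  obtain ⟨φ, hφ1, hφ2⟩ := hφ
  have ha0 : 0 < a := by linarith
  have hapos : ∀ z : ℝ, 0 < a ^ z := fun z => Real.rpow_pos_of_pos ha0 z
  have hX0 : 0 < X := by linarith
  have hw0 : 0 < w := by linarith
  obtain ⟨G, hG⟩ : ∃ G, G = a ^ ((1 + θ) * X) := ⟨_, rfl⟩
  rw [← hG] at hbX ⊢
  have hG0 : 0 < G := by rw [hG]; exact hapos _
  obtain ⟨Wk, hW⟩ : ∃ W, W = a * a ^ (-((1 - (1 + θ) * (1 - δ)) * X)) / X := ⟨_, rfl⟩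
  rw [← hW] at hw2 ⊢
  have hWk : 0 < Wk := by
    rw [hW]
    have := hapos (-((1 - (1 + θ) * (1 - δ)) * X))
    positivity
  obtain ⟨z, hz⟩ : ∃ z, z = w ^ X := ⟨_, rfl⟩
  rw [← hz] at hφ1 hφ2 hge hf0 hz4 hHz
  have hSz : a ^ X ≤ z := by rw [hz]; exact Real.rpow_le_rpow ha0.le hw1 hX0.le
  have hz0 : 0 < z := by linarith
  have hwb : w ≤ b := by linarith
  have hb0 : 0 < b := by linarith
  have hzb : z ≤ b ^ X := by rw [hz]; exact Real.rpow_le_rpow hw0.le hwb hX0.le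
  have hzG : z ≤ G := hzb.trans hbX
  -- indices
  have hKz : ⌊(a ^ X) ^ (1 - δ - θ)⌋₊ ≤ ⌊z ^ (1 - δ - θ)⌋₊ := by
    apply Nat.floor_mono
    exact Real.rpow_le_rpow (hapos _).le hSz (by linarith)
  obtain ⟨K, hK⟩ : ∃ K, K = ⌊(a ^ X) ^ (1 - δ - θ)⌋₊ := ⟨_, rfl⟩
  rw [← hK] at hKz ⊢
  -- the window
  have hWz : z + z ^ (1 - δ) ≤ (w + Wk) ^ X := by
    have h7 := rpow_sub_ge hw0 (show w ≤ w + Wk by linarith) hX1
    rw [add_sub_cancel_left] at h7
    have h9 : X * a ^ (X - 1) * Wk ≤ X * w ^ (X - 1) * Wk := by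
      apply mul_le_mul_of_nonneg_right _ hWk.le
      apply mul_le_mul_of_nonneg_left _ hX0.le
      exact Real.rpow_le_rpow ha0.le hw1 (by linarith)
    have h10 : X * a ^ (X - 1) * Wk = G ^ (1 - δ) := by
      rw [hW]
      rw [Real.rpow_sub_one ha0.ne', hG, ← Real.rpow_mul ha0.le]
      have e1 : (1 + θ) * X * (1 - δ) = X + -((1 - (1 + θ) * (1 - δ)) * X) := by ring
      rw [e1, Real.rpow_add ha0]
      field_simp
    have h11 : z ^ (1 - δ) ≤ G ^ (1 - δ) := Real.rpow_le_rpow hz0.le hzG (by linarith)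
    linarith
  -- lower bound for differences of roots
  have hdiff : ∀ p q : ℝ, 0 < p → p ≤ q → q ≤ b → q ^ X - p ^ X ≤ X * G * (q - p) := by
    intro p q hp hpq hqb
    have h9 := rpow_sub_le hp hpq hX1
    have hq0 : 0 < q := by linarith
    rcases le_total 1 q with hq1 | hq1
    · have h11 : q ^ (X - 1) ≤ G := by
        calc q ^ (X - 1) ≤ q ^ X := Real.rpow_le_rpow_of_exponent_le hq1 (by linarith)
          _ ≤ b ^ X := Real.rpow_le_rpow hq0.le hqb hX0.le
          _ ≤ G := hbX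
      have h12 : X * q ^ (X - 1) * (q - p) ≤ X * G * (q - p) := by
        apply mul_le_mul_of_nonneg_right _ (by linarith)
        exact mul_le_mul_of_nonneg_left h11 hX0.le
      linarith
    · have h11 : q ^ (X - 1) ≤ G := by
        calc q ^ (X - 1) ≤ 1 := Real.rpow_le_one hq0.le hq1 (by linarith)
          _ ≤ G := by rw [hG]; exact Real.one_le_rpow ha1.le (by positivity)
      have h12 : X * q ^ (X - 1) * (q - p) ≤ X * G * (q - p) := by
        apply mul_le_mul_of_nonneg_right _ (by linarith)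
        exact mul_le_mul_of_nonneg_left h11 hX0.le
      linarith
  have hXG : 0 < X * G := mul_pos hX0 hG0
  obtain ⟨L, hℓk⟩ : ∃ L, L = 1 / (2 * X * G) := ⟨_, rfl⟩
  obtain ⟨t, hτk⟩ : ∃ t, t = a ^ (θ / 4 * X) / (2 * X * G) := ⟨_, rfl⟩
  rw [← hℓk, ← hτk]
  have hlp : 0 < L := by rw [hℓk]; positivity
  have htp : 0 < t := by
    rw [hτk]
    have := hapos (θ / 4 * X)
    positivity
  -- data of a child
  have hroot : ∀ m : ℝ, 0 < m → (m ^ (1 / X)) ^ X = m := by
    intro m hm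
    rw [← Real.rpow_mul hm.le, one_div_mul_cancel hX0.ne', Real.rpow_one]
  have hchild : ∀ j, j < K → z ≤ (φ j : ℝ) - H ∧ (φ j : ℝ) - H + 1 ≤ (w + Wk) ^ X ∧
      w ≤ ((φ j : ℝ) - H) ^ (1 / X) ∧
      ((φ j : ℝ) - H) ^ (1 / X) + 2 * L ≤ ((φ j : ℝ) - H + 1) ^ (1 / X) ∧
      ((φ j : ℝ) - H + 1) ^ (1 / X) ≤ w + Wk := by
    intro j hj
    obtain ⟨p1, p2, p3, p4⟩ := hφ1 j (by omega)
    have hcf : 0 ≤ c * f z := by positivity
    have q1 : z ≤ (φ j : ℝ) - H := by linarith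
    have hHn : (0 : ℝ) ≤ H := Nat.cast_nonneg _
    have q2 : (φ j : ℝ) - H + 1 ≤ (w + Wk) ^ X := by linarith
    set m : ℝ := (φ j : ℝ) - H with hm
    have hm0 : 0 < m := by linarith
    have q3 : w ≤ m ^ (1 / X) := by
      by_contra hcon
      push Not at hcon
      have h3 := Real.rpow_lt_rpow (Real.rpow_nonneg hm0.le _) hcon hX0
      rw [hroot m hm0] at h3
      linarith
    have q4 : (m + 1) ^ (1 / X) ≤ w + Wk := by
      by_contra hcon
      push Not at hcon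
      have h3 := Real.rpow_lt_rpow (by linarith) hcon hX0
      rw [hroot (m + 1) (by linarith)] at h3
      linarith
    refine ⟨q1, q2, q3, ?_, q4⟩
    have q5 : m ^ (1 / X) ≤ (m + 1) ^ (1 / X) :=
      Real.rpow_le_rpow hm0.le (by linarith) (by positivity)
    have q6 := hdiff (m ^ (1 / X)) ((m + 1) ^ (1 / X)) (by linarith) q5 (by linarith)
    rw [hroot m hm0, hroot (m + 1) (by linarith)] at q6
    have q7 : 1 / (X * G) ≤ (m + 1) ^ (1 / X) - m ^ (1 / X) := by
      rw [div_le_iff₀ hXG]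
      linarith
    have q8 : 2 * L = 1 / (X * G) := by
      rw [hℓk]
      field_simp
    linarith
  refine ⟨fun j => ((φ j : ℝ) - H) ^ (1 / X), fun j hj => ⟨?_, ?_, ?_⟩, fun i j hij hj => ?_⟩
  · exact (hchild j hj).2.2.1
  · obtain ⟨-, -, -, q4, q5⟩ := hchild j hj
    linarith
  · obtain ⟨q1, q2, q3, q4, q5⟩ := hchild j hj
    obtain ⟨p1, p2, p3, p4⟩ := hφ1 j (by omega)
    rintro A ⟨hA1, hA2⟩
    set m : ℝ := (φ j : ℝ) - H with hm
    have hm0 : 0 < m := by linarith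
    have hA0 : 0 < A := by linarith
    have h7 : m ≤ A ^ X := by
      have := Real.rpow_le_rpow (Real.rpow_nonneg hm0.le _) hA1 hX0.le
      rwa [hroot m hm0] at this
    have h8 : A ^ X < m + 1 := by
      have : A < (m + 1) ^ (1 / X) := by linarith
      have h9 := Real.rpow_lt_rpow hA0.le this hX0
      rwa [hroot (m + 1) (by linarith)] at h9
    have hHφ : H ≤ φ j := by
      have : (H : ℝ) ≤ φ j := by linarith
      exact_mod_cast this
    have hmn : ((φ j - H : ℕ) : ℝ) = m := by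
      rw [Nat.cast_sub hHφ]
    have h11 : ⌊A ^ X⌋₊ = φ j - H := by
      rw [Nat.floor_eq_iff (by linarith), hmn]
      exact ⟨h7, h8⟩
    have h12 : f (A ^ X) ≤ 16 * f z := by
      have h13 : 1 / 2 / 8 * f (A ^ X) ≤ f z := by
        apply hge (A ^ X) (q1.trans h7)
        · have h14 : A ^ X ≤ 2 * z := by
            have h15 : z ^ (1 - δ) ≤ z := by
              calc z ^ (1 - δ) ≤ z ^ (1 : ℝ) :=
                    Real.rpow_le_rpow_of_exponent_le (by linarith) (by linarith)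
                _ = z := Real.rpow_one z
            have hHn : (0 : ℝ) ≤ H := Nat.cast_nonneg _
            linarith
          calc (A ^ X) ^ (1 / 2 : ℝ) ≤ (z ^ 2) ^ (1 / 2 : ℝ) := by
                apply Real.rpow_le_rpow (by linarith) _ (by norm_num)
                nlinarith
            _ = z := by
                rw [← Real.rpow_natCast, ← Real.rpow_mul hz0.le]
                norm_num
        · linarith
      linarith
    refine ⟨?_, fun q hq hqlt => ?_⟩
    · change (⌊A ^ X⌋₊ + H).Prime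
      rw [h11, Nat.sub_add_cancel hHφ]
      exact p1
    · change (q : ℝ) + c / 32 * f (A ^ X) < ⌊A ^ X⌋₊
      have hqlt' : q < ⌊A ^ X⌋₊ + H := hqlt
      rw [h11, Nat.sub_add_cancel hHφ] at hqlt'
      rw [h11, hmn]
      have h13 := p4 q hq hqlt'
      have h14 : c / 32 * f (A ^ X) ≤ c / 32 * (16 * f z) := by gcongr
      have h15 : 0 ≤ c * f z := by positivity
      linarith
  · obtain ⟨q1, q2, q3, q4, q5⟩ := hchild j hj
    obtain ⟨r1, r2, r3, r4, r5⟩ := hchild i (by omega)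
    have p5 := hφ2 i j hij (by omega)
    set mi : ℝ := (φ i : ℝ) - H with hmi
    set mj : ℝ := (φ j : ℝ) - H with hmj
    have hji : (1 : ℝ) ≤ (j : ℝ) - i := by
      have : ((i + 1 : ℕ) : ℝ) ≤ (j : ℝ) := by exact_mod_cast hij
      push_cast at this
      linarith
    have hS4 : a ^ (θ / 4 * X) ≤ z ^ (θ / 4) := by
      rw [show θ / 4 * X = X * (θ / 4) by ring, Real.rpow_mul ha0.le]
      exact Real.rpow_le_rpow (hapos _).le hSz (by positivity)
    have hS1 : 1 ≤ a ^ (θ / 4 * X) := Real.one_le_rpow ha1.le (by positivity)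
    have hmm : ((j : ℝ) - i) * a ^ (θ / 4 * X) ≤ mj - mi := by
      have := mul_le_mul_of_nonneg_left hS4 (show 0 ≤ (j : ℝ) - i by linarith)
      linarith
    have hmij : mi ≤ mj := by
      have : 0 ≤ ((j : ℝ) - i) * a ^ (θ / 4 * X) := by positivity
      linarith
    have q5' : mj ^ (1 / X) ≤ b := by linarith
    have q6 := hdiff (mi ^ (1 / X)) (mj ^ (1 / X)) (by linarith)
      (Real.rpow_le_rpow (by linarith) hmij (by positivity)) q5'
    rw [hroot mi (by linarith), hroot mj (by linarith)] at q6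
    have q7 : ((j : ℝ) - i) * a ^ (θ / 4 * X) / (X * G) ≤ mj ^ (1 / X) - mi ^ (1 / X) := by
      rw [div_le_iff₀ hXG]
      linarith
    have q8 : ((j : ℝ) - i) * a ^ (θ / 4 * X) / (X * G) =
        ((j : ℝ) - i) * t + ((j : ℝ) - i) * t := by
      rw [hτk]
      field_simp
      norm_num
    have q9 : L ≤ ((j : ℝ) - i) * t := by
      calc L ≤ t := by
            rw [hℓk, hτk]
            exact div_le_div_of_nonneg_right hS1 (by positivity)
        _ ≤ ((j : ℝ) - i) * t := le_mul_of_one_le_left htp.le hji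
    change mi ^ (1 / X) + L + ((j : ℝ) - i) * t ≤ mj ^ (1 / X)
    linarith


theorem mills_dist_core : ∃ C : ℝ, 1 < C ∧ ∀ ε : ℝ, 0 < ε → ε < 1 → ∃ c : ℝ, 0 < c ∧
    ∀ x : ℕ → ℝ, (∀ n, 0 < x n) → (∀ n, C * x n ≤ x (n + 1)) →
    ∀ u v : ℝ, 1 < u → u < v → ∀ h : ℕ → ℕ, (∀ᶠ n in atTop, (h n : ℝ) ≤ c * f (u ^ x n)) →
    ENNReal.ofReal (1 - ε) ≤
      dimH {A : ℝ | u < A ∧ A < v ∧ ∀ᶠ n in atTop, (⌊A ^ x n⌋₊ + h n).Prime ∧
        ∀ q : ℕ, q.Prime → q < ⌊A ^ x n⌋₊ + h n → (q : ℝ) + c * f (A ^ x n) < ⌊A ^ x n⌋₊} := by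
  obtain ⟨δ, hδ0, hδ1, hgp⟩ := gap_primes
  have hC8 : 8 ≤ 4 / δ := by rw [le_div_iff₀ hδ0]; linarith
  refine ⟨4 / δ, by linarith, fun ε h0 h1 => ?_⟩
  set θ : ℝ := ε * δ / 32 with hθ
  have hεδ : 0 < ε * δ := by positivity
  have hθ0 : 0 < θ := by positivity
  have hθδ : 32 * θ ≤ δ := by rw [hθ]; nlinarith
  have hθε : 64 * θ ≤ ε := by rw [hθ]; nlinarith
  obtain ⟨c, hc, hw⟩ := hgp θ hθ0 (by linarith)
  refine ⟨c / 32, by positivity, fun x hx hxC u v hu huv h hh => ?_⟩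
  have hu0 : 0 < u := by linarith
  -- `x n → ∞`
  have hxt : Tendsto x atTop atTop := by
    have h2 : ∀ n, x 0 * (4 / δ) ^ n ≤ x n := by
      intro n
      induction n with
      | zero => simp
      | succ n ih =>
        calc x 0 * (4 / δ) ^ (n + 1) = (4 / δ) * (x 0 * (4 / δ) ^ n) := by ring
          _ ≤ (4 / δ) * x n := by gcongr
          _ ≤ _ := hxC n
    exact tendsto_atTop_mono h2
      ((tendsto_pow_atTop_atTop_of_one_lt (by linarith)).const_mul_atTop (hx 0))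
  -- the interval
  set a : ℝ := (u + v) / 2 with ha
  have hua : u < a := by rw [ha]; linarith
  have hav : a < v := by rw [ha]; linarith
  have ha1 : 1 < a := by linarith
  have ha0 : 0 < a := by linarith
  have haθ : a < a ^ (1 + θ) := by
    calc a = a ^ (1 : ℝ) := (Real.rpow_one a).symm
      _ < a ^ (1 + θ) := Real.rpow_lt_rpow_of_exponent_lt ha1 (by linarith)
  set b : ℝ := min ((a + v) / 2) (a ^ (1 + θ)) with hb
  have hab : a < b := lt_min (by linarith) haθ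
  have hbv : b < v := lt_of_le_of_lt (min_le_left _ _) (by linarith)
  have hbθ : b ≤ a ^ (1 + θ) := min_le_right _ _
  have hb0 : 0 < b := by linarith
  have hapos : ∀ z : ℝ, 0 < a ^ z := fun z => Real.rpow_pos_of_pos ha0 z
  have hamono : ∀ y z : ℝ, y ≤ z → a ^ y ≤ a ^ z := fun y z h =>
    Real.rpow_le_rpow_of_exponent_le ha1.le h
  -- thresholds
  have hSt : Tendsto (fun n => a ^ x n) atTop atTop :=
    (tendsto_rpow_atTop_of_base_gt_one _ ha1).comp hxt
  obtain ⟨Z0, hZ0⟩ := eventually_atTop.1 (hw.and ((f_ge (θ := 1 / 2) (by norm_num) (by norm_num)).and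
    ((f_le (θ := Real.log u / Real.log v) (div_pos (Real.log_pos hu) (Real.log_pos (by linarith)))
      (by
        rw [div_le_one (Real.log_pos (by linarith))]
        exact Real.log_le_log hu0 huv.le)).and
      ((f_le_rpow (θ := 1 / 2) (by norm_num)).and (eventually_ge_atTop (4 : ℝ))))))
  have ht1 : ∀ᶠ y : ℝ in atTop, 2 * y ≤ a ^ (θ * y) := by
    have h2 : Tendsto (fun y : ℝ => Real.exp (Real.log a * θ * y) / y) atTop atTop := by
      have h3 := tendsto_exp_mul_div_rpow_atTop 1 (Real.log a * θ)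
        (mul_pos (Real.log_pos ha1) hθ0)
      simpa using h3
    filter_upwards [h2.eventually_ge_atTop 2, eventually_gt_atTop (0 : ℝ)] with y hy1 hy2
    rw [le_div_iff₀ hy2] at hy1
    rw [Real.rpow_def_of_pos ha0]
    rwa [← mul_assoc]
  have ht2 : ∀ᶠ y : ℝ in atTop, 32 * a ≤ a ^ (θ * y) := by
    have h2 : Tendsto (fun y : ℝ => θ * y) atTop atTop := tendsto_id.const_mul_atTop hθ0
    exact ((tendsto_rpow_atTop_of_base_gt_one _ ha1).comp h2).eventually_ge_atTop (32 * a)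
  have hbase : ∀ᶠ y : ℝ in atTop, (2 * y ≤ a ^ (θ * y) ∧ 32 * a ≤ a ^ (θ * y)) ∧
      (1 ≤ y ∧ 1 / (b - a) ≤ y) :=
    (ht1.and ht2).and ((eventually_ge_atTop _).and (eventually_ge_atTop _))
  obtain ⟨N0, hN0⟩ := eventually_atTop.1 ((hSt.eventually_ge_atTop Z0).and (hh.and
    (hxt.eventually hbase)))
  set y : ℕ → ℝ := fun k => x (N0 + k) with hy
  have hypos : ∀ k, 0 < y k := fun k => hx _
  have hy1 : ∀ k, 1 ≤ y k := fun k => (hN0 (N0 + k) (by omega)).2.2.2.1
  have hystep : ∀ k, (4 / δ) * y k ≤ y (k + 1) := fun k => hxC (N0 + k)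
  have hystep8 : ∀ k, 8 * y k ≤ y (k + 1) := fun k =>
    (mul_le_mul_of_nonneg_right hC8 (hypos k).le).trans (hystep k)
  have hstepδ : ∀ k, 4 * y k ≤ δ * y (k + 1) := by
    intro k
    have h2 := mul_le_mul_of_nonneg_left (hystep k) hδ0.le
    have h3 : δ * (4 / δ * y k) = 4 * y k := by field_simp
    linarith
  have hsmall : ∀ k, 2 * y k ≤ a ^ (θ * y k) ∧ 32 * a ≤ a ^ (θ * y k) := fun k =>
    (hN0 (N0 + k) (by omega)).2.2.1
  set δ₂ : ℝ := 1 - (1 + θ) * (1 - δ) with hδ₂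
  have hδ₂' : δ₂ = δ - θ + θ * δ := by rw [hδ₂]; ring
  have hθδpos : 0 < θ * δ := by positivity
  -- node length, window length, spacing, numbers of windows and of children
  set ℓ : ℕ → ℝ := fun k => 1 / (2 * y k * a ^ ((1 + θ) * y k)) with hℓ
  set W : ℕ → ℝ := fun k => a * a ^ (-(δ₂ * y (k + 1))) / y (k + 1) with hW
  set τ : ℕ → ℝ := fun k => a ^ (θ / 4 * y (k + 1)) / (2 * y (k + 1) * a ^ ((1 + θ) * y (k + 1)))
    with hτ
  set T : ℕ → ℕ := fun k => ⌊ℓ k / (2 * W k)⌋₊ with hT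
  set K : ℕ → ℕ := fun k => ⌊(a ^ y (k + 1)) ^ (1 - δ - θ)⌋₊ with hK
  have hℓpos : ∀ n, 0 < ℓ n := fun n => by
    have := hypos n
    have := hapos ((1 + θ) * y n)
    simp only [hℓ]; positivity
  have hWpos : ∀ n, 0 < W n := fun n => by
    have := hypos (n + 1)
    have := hapos (-(δ₂ * y (n + 1)))
    simp only [hW]; positivity
  have hτpos : ∀ n, 0 < τ n := fun n => by
    have := hypos (n + 1)
    have := hapos (θ / 4 * y (n + 1))
    have := hapos ((1 + θ) * y (n + 1))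
    simp only [hτ]; positivity
  -- `ℓ ≥ a^(-(1+2θ) y)`
  have hℓge : ∀ k, a ^ (-((1 + 2 * θ) * y k)) ≤ ℓ k := by
    intro k
    simp only [hℓ]
    rw [Real.rpow_neg ha0.le, inv_eq_one_div]
    apply one_div_le_one_div_of_le (by have := hypos k; have := hapos ((1 + θ) * y k); positivity)
    calc 2 * y k * a ^ ((1 + θ) * y k) ≤ a ^ (θ * y k) * a ^ ((1 + θ) * y k) :=
          mul_le_mul_of_nonneg_right (hsmall k).1 (hapos _).le
      _ = a ^ ((1 + 2 * θ) * y k) := by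
          rw [← Real.rpow_add ha0]
          congr 1
          ring
  -- `ℓ / (2 W) ≥ 8 a^(δ₂ X - (1+3θ) y)`
  have hratio : ∀ k, a ^ (δ₂ * y (k + 1) - (1 + 3 * θ) * y k) * 8 ≤ ℓ k / (2 * W k) := by
    intro k
    have e1 := hℓge k
    have e2 := hypos k
    have e3 := hypos (k + 1)
    have e4 := (hsmall k).2
    have e5 := hy1 (k + 1)
    rw [le_div_iff₀ (by have := hWpos k; positivity)]
    simp only [hW]
    calc a ^ (δ₂ * y (k + 1) - (1 + 3 * θ) * y k) * 8 *
          (2 * (a * a ^ (-(δ₂ * y (k + 1))) / y (k + 1)))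
        = a ^ (-((1 + 3 * θ) * y k)) * (16 * a) / y (k + 1) := by
          rw [show δ₂ * y (k + 1) - (1 + 3 * θ) * y k =
            δ₂ * y (k + 1) + -((1 + 3 * θ) * y k) by ring, Real.rpow_add ha0,
            Real.rpow_neg ha0.le (δ₂ * y (k + 1))]
          have := (hapos (δ₂ * y (k + 1))).ne'
          field_simp
          ring
      _ ≤ a ^ (-((1 + 3 * θ) * y k)) * (16 * a) := by
          apply div_le_self (by have := hapos (-((1 + 3 * θ) * y k)); positivity) e5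
      _ ≤ a ^ (-((1 + 3 * θ) * y k)) * a ^ (θ * y k) := by
          apply mul_le_mul_of_nonneg_left _ (hapos _).le
          linarith
      _ = a ^ (-((1 + 2 * θ) * y k)) := by
          rw [← Real.rpow_add ha0]
          congr 1
          ring
      _ ≤ ℓ k := e1
  have hexp1 : ∀ k, 0 ≤ δ₂ * y (k + 1) - (1 + 3 * θ) * y k := by
    intro k
    have e1 := hypos k
    have e2 := hypos (k + 1)
    have e3 := hstepδ k
    have e4 : δ / 2 ≤ δ₂ := by rw [hδ₂']; linarith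
    have e5 : δ / 2 * y (k + 1) ≤ δ₂ * y (k + 1) := mul_le_mul_of_nonneg_right e4 e2.le
    nlinarith
  have hTy : ∀ k, a ^ (δ₂ * y (k + 1) - (1 + 3 * θ) * y k) * 4 ≤ T k ∧ ℓ k / (4 * W k) ≤ T k ∧
      (T k : ℝ) ≤ ℓ k / (2 * W k) := by
    intro k
    have h2 := hratio k
    have h3 : 1 ≤ a ^ (δ₂ * y (k + 1) - (1 + 3 * θ) * y k) := Real.one_le_rpow ha1.le (hexp1 k)
    have h4 : (T k : ℝ) ≤ ℓ k / (2 * W k) := Nat.floor_le (by linarith)
    have h6 : ℓ k / (2 * W k) < T k + 1 := Nat.lt_floor_add_one _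
    have h7 : ℓ k / (4 * W k) = ℓ k / (2 * W k) / 2 := by
      have := (hWpos k).ne'
      field_simp
      ring
    refine ⟨by linarith, ?_, h4⟩
    rw [h7]
    linarith
  have hTpos : ∀ k, 0 < T k := by
    intro k
    have h2 := (hTy k).1
    have h3 : 1 ≤ a ^ (δ₂ * y (k + 1) - (1 + 3 * θ) * y k) := Real.one_le_rpow ha1.le (hexp1 k)
    have : (0 : ℝ) < T k := by linarith
    exact_mod_cast this
  have hKy : ∀ k, a ^ ((1 - δ - θ) * y (k + 1)) / 2 ≤ K k ∧ 0 < K k := by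
    intro k
    have e1 : (a ^ y (k + 1)) ^ (1 - δ - θ) = a ^ ((1 - δ - θ) * y (k + 1)) := by
      rw [← Real.rpow_mul ha0.le]
      congr 1
      ring
    have e2 : (32 : ℝ) ≤ a ^ ((1 - δ - θ) * y (k + 1)) := by
      calc (32 : ℝ) ≤ 32 * a := by linarith
        _ ≤ a ^ (θ * y (k + 1)) := (hsmall (k + 1)).2
        _ ≤ _ := hamono _ _ (mul_le_mul_of_nonneg_right (by linarith) (hypos _).le)
    have e3 : a ^ ((1 - δ - θ) * y (k + 1)) < K k + 1 := by
      simp only [hK]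
      rw [← e1]
      exact Nat.lt_floor_add_one _
    refine ⟨by linarith, ?_⟩
    have : (0 : ℝ) < K k := by linarith
    exact_mod_cast this
  set s : ℝ≥0 := ⟨1 - ε, by linarith⟩ with hs
  have hsr : (s : ℝ) = 1 - ε := rfl
  have hs0 : 0 < s := by
    have : (0 : ℝ) < (s : ℝ) := by rw [hsr]; linarith
    exact_mod_cast this
  set σ : ℝ := 1 - 8 * θ with hσ
  set Q : ℕ → ℝ := fun k => ∏ i ∈ Finset.range k, ((T i : ℝ) * K i) with hQ
  have hstep : ∀ k, a ^ (σ * (y (k + 1) - y k)) ≤ (T k : ℝ) * K k := by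
    intro k
    have e1 := (hTy k).1
    have e2 := (hKy k).1
    have e3 := hypos k
    have e4 := hystep8 k
    calc a ^ (σ * (y (k + 1) - y k))
        ≤ a ^ ((δ₂ * y (k + 1) - (1 + 3 * θ) * y k) + (1 - δ - θ) * y (k + 1)) := by
          apply hamono
          rw [hδ₂', hσ]
          have e5 : 0 ≤ θ * δ * y (k + 1) := by have := hypos (k + 1); positivity
          nlinarith [mul_nonneg hθ0.le (show 0 ≤ y (k + 1) - 8 * y k by linarith), mul_pos hθ0 e3]
      _ = a ^ (δ₂ * y (k + 1) - (1 + 3 * θ) * y k) * a ^ ((1 - δ - θ) * y (k + 1)) :=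
          Real.rpow_add ha0 _ _
      _ ≤ (a ^ (δ₂ * y (k + 1) - (1 + 3 * θ) * y k) * 4) *
          (a ^ ((1 - δ - θ) * y (k + 1)) / 2) := by
          have := hapos (δ₂ * y (k + 1) - (1 + 3 * θ) * y k)
          have := hapos ((1 - δ - θ) * y (k + 1))
          nlinarith [mul_pos (hapos (δ₂ * y (k + 1) - (1 + 3 * θ) * y k))
            (hapos ((1 - δ - θ) * y (k + 1)))]
      _ ≤ (T k : ℝ) * K k := mul_le_mul e1 e2 (by have := hapos ((1 - δ - θ) * y (k + 1)); positivity)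
          (Nat.cast_nonneg _)
  have hQge : ∀ k, a ^ (σ * (y k - y 0)) ≤ Q k := by
    intro k
    induction k with
    | zero => simp [hQ]
    | succ k ih =>
      simp only [hQ] at ih ⊢
      rw [Finset.prod_range_succ]
      have h3 : a ^ (σ * (y (k + 1) - y 0)) =
          a ^ (σ * (y k - y 0)) * a ^ (σ * (y (k + 1) - y k)) := by
        rw [← Real.rpow_add ha0]
        congr 1
        ring
      rw [h3]
      exact mul_le_mul ih (hstep k) (hapos _).le (Finset.prod_nonneg fun i _ => by positivity)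
  have hyt : Tendsto y atTop atTop := by
    have := (tendsto_add_atTop_iff_nat N0).2 hxt
    refine this.congr fun k => ?_
    simp only [hy]
    rw [add_comm]
  set c1 : ℝ := a ^ (-(σ * y 0)) with hc1
  have hc1pos : 0 < c1 := hapos _
  have hQge' : ∀ k, c1 * a ^ (σ * y k) ≤ Q k := by
    intro k
    refine le_trans (le_of_eq ?_) (hQge k)
    rw [hc1, ← Real.rpow_add ha0]
    congr 1
    ring
  have hσ0 : 0 < σ := by rw [hσ]; linarith
  have key := le_dimH_two (a := a) (b := b) (c := c1 / 16) (s := s) hs0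
    (by rw [hsr]; linarith) (by positivity) ℓ W τ T K
    (fun k => {A | (⌊A ^ y (k + 1)⌋₊ + h (N0 + (k + 1))).Prime ∧
        ∀ q : ℕ, q.Prime → q < ⌊A ^ y (k + 1)⌋₊ + h (N0 + (k + 1)) →
          (q : ℝ) + c / 32 * f (A ^ y (k + 1)) < ⌊A ^ y (k + 1)⌋₊}) hℓpos ?_ ?_ hWpos hτpos
      hTpos (fun k => (hKy k).2) ?_ ?_ ?_ ?_ ?_
  · have h2 : ENNReal.ofReal (1 - ε) = (s : ℝ≥0∞) := by
      rw [← hsr]
      exact ENNReal.ofReal_coe_nnreal
    rw [h2]
    refine key.trans (dimH_mono ?_)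
    rintro A ⟨hA1, hA2, hA3⟩
    refine ⟨by linarith, by linarith, ?_⟩
    rw [eventually_atTop]
    refine ⟨N0 + 1, fun n hn => ?_⟩
    obtain ⟨k, rfl⟩ := Nat.exists_eq_add_of_le hn
    have := hA3 k
    simp only [hy] at this
    rw [show N0 + 1 + k = N0 + (k + 1) by ring]
    exact this
  · -- `ℓ → 0`
    have h3 : Tendsto (fun k => (y k)⁻¹) atTop (𝓝 0) := hyt.inv_tendsto_atTop
    refine squeeze_zero (fun k => (hℓpos k).le) (fun k => ?_) h3
    simp only [hℓ]
    rw [inv_eq_one_div]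
    apply one_div_le_one_div_of_le (hypos k)
    have h6 : 1 ≤ a ^ ((1 + θ) * y k) := Real.one_le_rpow ha1.le (by have := hypos k; positivity)
    have := hypos k
    nlinarith
  · -- `ℓ 0 ≤ b - a`
    have h2 := (hN0 (N0 + 0) (by omega)).2.2.2.2
    have h6 : 1 ≤ a ^ ((1 + θ) * y 0) := Real.one_le_rpow ha1.le (by have := hypos 0; positivity)
    have h7 : 0 < b - a := by linarith
    simp only [hℓ]
    have h8 := hypos 0
    have h9 : 1 / (b - a) ≤ y 0 := h2
    rw [div_le_iff₀ h7] at h9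
    rw [div_le_iff₀ (by positivity)]
    calc 1 ≤ y 0 * (b - a) := h9
      _ ≤ (2 * y 0 * a ^ ((1 + θ) * y 0)) * (b - a) := by
          apply mul_le_mul_of_nonneg_right _ h7.le
          nlinarith
      _ = (b - a) * (2 * y 0 * a ^ ((1 + θ) * y 0)) := by ring
  · intro k
    have h2 := (hTy k).2.2
    rw [le_div_iff₀ (by have := hWpos k; positivity)] at h2
    linarith
  · -- products tend to infinity
    have h2 : Tendsto (fun k => c1 * a ^ (σ * y k)) atTop atTop := by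
      apply Tendsto.const_mul_atTop hc1pos
      exact (tendsto_rpow_atTop_of_base_gt_one _ ha1).comp (hyt.const_mul_atTop hσ0)
    exact tendsto_atTop_mono hQge' h2
  · -- first dimension condition
    intro k
    have e1 := hQge' k
    have e2 := (hTy k).2.1
    have e3 := hWpos k
    have e4 := hypos k
    have e5 : ℓ k / 4 ≤ T k * W k := by
      calc ℓ k / 4 = ℓ k / (4 * W k) * W k := by field_simp
        _ ≤ _ := mul_le_mul_of_nonneg_right e2 e3.le
    have e6 : (a ^ (-((1 + 2 * θ) * y k)) / 4) ^ (s : ℝ) ≤ (T k * W k) ^ (s : ℝ) := by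
      apply Real.rpow_le_rpow (by have := hapos (-((1 + 2 * θ) * y k)); positivity) _ s.2
      exact (div_le_div_of_nonneg_right (hℓge k) (by norm_num)).trans e5
    have e7 : a ^ (-(σ * y k)) / 4 ≤ (a ^ (-((1 + 2 * θ) * y k)) / 4) ^ (s : ℝ) := by
      rw [hsr, div_eq_mul_inv, div_eq_mul_inv, Real.mul_rpow (hapos _).le (by norm_num),
        ← Real.rpow_mul ha0.le]
      apply mul_le_mul _ _ (by norm_num) (hapos _).le
      · apply hamono
        rw [hσ]
        nlinarith [mul_pos hθ0 e4, mul_nonneg (show 0 ≤ ε - 10 * θ by linarith) e4.le,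
          mul_pos (mul_pos h0 hθ0) e4]
      · calc (4 : ℝ)⁻¹ = (4⁻¹ : ℝ) ^ (1 : ℝ) := (Real.rpow_one _).symm
          _ ≤ (4⁻¹ : ℝ) ^ (1 - ε) :=
            Real.rpow_le_rpow_of_exponent_ge (by norm_num) (by norm_num) (by linarith)
    have e8 : a ^ (σ * y k) * a ^ (-(σ * y k)) = 1 := by
      rw [← Real.rpow_add ha0]
      simp
    have e9 := hapos (σ * y k)
    calc c1 / 16 ≤ c1 * (a ^ (σ * y k) * a ^ (-(σ * y k))) / 4 := by rw [e8]; linarith
      _ = (c1 * a ^ (σ * y k)) * (a ^ (-(σ * y k)) / 4) := by ring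
      _ ≤ Q k * (T k * W k) ^ (s : ℝ) :=
          mul_le_mul e1 (e7.trans e6) (by have := hapos (-(σ * y k)); positivity)
            (le_trans (by positivity) e1)
  · -- second dimension condition
    intro k
    have e1 := hQge' k
    have e2 := (hTy k).1
    have e4 := hypos k
    have e4' := hypos (k + 1)
    have e3 := (hKy k).1
    set X := y (k + 1) with hX
    -- `K τ ≥ a^(-(δ + 4θ) X)`
    have e5 : a ^ (-((δ + 4 * θ) * X)) ≤ K k * τ k := by
      have e6 : a ^ ((1 - δ - θ) * X) / 2 * τ k ≤ K k * τ k :=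
        mul_le_mul_of_nonneg_right e3 (hτpos k).le
      refine le_trans ?_ e6
      simp only [hτ]
      rw [← hX]
      have e7 := hapos ((1 + θ) * X)
      rw [div_mul_div_comm, le_div_iff₀ (by positivity)]
      calc a ^ (-((δ + 4 * θ) * X)) * (2 * (2 * X * a ^ ((1 + θ) * X)))
          = (2 * X) * 2 * (a ^ (-((δ + 4 * θ) * X)) * a ^ ((1 + θ) * X)) := by ring
        _ ≤ a ^ (θ * X) * a ^ (θ * X) * (a ^ (-((δ + 4 * θ) * X)) * a ^ ((1 + θ) * X)) := by
            have e8 := hapos (-((δ + 4 * θ) * X))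
            have e9 := (hsmall (k + 1)).1
            have e10 := (hsmall (k + 1)).2
            have e11 : 2 ≤ a ^ (θ * X) := by
              have : 2 ≤ 32 * a := by linarith
              exact this.trans e10
            apply mul_le_mul_of_nonneg_right _ (by positivity)
            exact mul_le_mul e9 e11 (by norm_num) (hapos _).le
        _ = a ^ ((1 - δ - θ) * X) := by
            rw [← Real.rpow_add ha0, ← Real.rpow_add ha0, ← Real.rpow_add ha0]
            congr 1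
            ring
        _ ≤ a ^ ((1 - δ - θ) * X) * a ^ (θ / 4 * X) := by
            apply le_mul_of_one_le_right (hapos _).le
            exact Real.one_le_rpow ha1.le (by positivity)
    have e6 : a ^ (-((δ + 4 * θ) * X) * (1 - ε)) ≤ (K k * τ k) ^ (s : ℝ) := by
      rw [Real.rpow_mul ha0.le, hsr]
      exact Real.rpow_le_rpow (hapos _).le e5 (by linarith)
    have e7 : 0 ≤ σ * y k + (δ₂ * X - (1 + 3 * θ) * y k) + -((δ + 4 * θ) * X) * (1 - ε) := by
      have f1 : 4 * y k ≤ δ * X := hstepδ k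
      have f2 : ε * δ = 32 * θ := by rw [hθ]; ring
      have f3 : ε / 8 * y k ≤ θ * X := by
        have f4 := mul_le_mul_of_nonneg_left f1 (show 0 ≤ ε / 32 by positivity)
        calc ε / 8 * y k = ε / 32 * (4 * y k) := by ring
          _ ≤ ε / 32 * (δ * X) := f4
          _ = θ * X := by rw [hθ]; ring
      have f5 : σ * y k + (δ₂ * X - (1 + 3 * θ) * y k) + -((δ + 4 * θ) * X) * (1 - ε) =
          -(11 * θ) * y k + (ε * δ) * X - 5 * θ * X + θ * δ * X + 4 * θ * ε * X := by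
        rw [hσ, hδ₂']
        ring
      rw [f5, f2]
      have f6 : 0 ≤ θ * δ * X := by positivity
      have f7 : 0 ≤ 4 * θ * ε * X := by positivity
      have f8 : 64 * θ * y k ≤ ε * y k := mul_le_mul_of_nonneg_right hθε e4.le
      nlinarith [mul_pos hθ0 e4]
    have e8 : (1 : ℝ) ≤ a ^ (σ * y k) * a ^ (δ₂ * X - (1 + 3 * θ) * y k) *
        a ^ (-((δ + 4 * θ) * X) * (1 - ε)) := by
      rw [← Real.rpow_add ha0, ← Real.rpow_add ha0]
      exact Real.one_le_rpow ha1.le e7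
    have g1 := hapos (σ * y k)
    have g2 := hapos (δ₂ * X - (1 + 3 * θ) * y k)
    have g3 := hapos (-((δ + 4 * θ) * X) * (1 - ε))
    have e9 : a ^ (δ₂ * X - (1 + 3 * θ) * y k) ≤ T k := by linarith
    calc c1 / 16 ≤ c1 * 1 := by linarith
      _ ≤ c1 * (a ^ (σ * y k) * a ^ (δ₂ * X - (1 + 3 * θ) * y k) *
          a ^ (-((δ + 4 * θ) * X) * (1 - ε))) := mul_le_mul_of_nonneg_left e8 hc1pos.le
      _ = (c1 * a ^ (σ * y k)) * a ^ (δ₂ * X - (1 + 3 * θ) * y k) *
          a ^ (-((δ + 4 * θ) * X) * (1 - ε)) := by ring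
      _ ≤ Q k * T k * (K k * τ k) ^ (s : ℝ) := by
          have e10 : 0 ≤ Q k := (mul_pos hc1pos g1).le.trans e1
          exact mul_le_mul (mul_le_mul e1 e9 g2.le e10) e6 g3.le
            (mul_nonneg e10 (Nat.cast_nonneg _))
  · intro k w hw1 hw2
    obtain ⟨hZX, hhX, -⟩ := hN0 (N0 + (k + 1)) (by omega)
    have hxX : x (N0 + (k + 1)) = y (k + 1) := rfl
    rw [hxX] at hZX hhX
    have hX1 : 1 ≤ y (k + 1) := hy1 _
    have hX0 : 0 < y (k + 1) := by linarith
    have hw0 : 0 < w := by linarith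
    have hSz : a ^ y (k + 1) ≤ w ^ y (k + 1) := Real.rpow_le_rpow ha0.le hw1 hX0.le
    have hz0 : 0 < w ^ y (k + 1) := Real.rpow_pos_of_pos hw0 _
    have hbX : b ^ y (k + 1) ≤ a ^ ((1 + θ) * y (k + 1)) := by
      calc b ^ y (k + 1) ≤ (a ^ (1 + θ)) ^ y (k + 1) := Real.rpow_le_rpow hb0.le hbθ hX0.le
        _ = a ^ ((1 + θ) * y (k + 1)) := by rw [Real.rpow_mul ha0.le]
    have hWk := hWpos k
    have hwb : w ≤ b := by linarith
    have hzb : w ^ y (k + 1) ≤ b ^ y (k + 1) := Real.rpow_le_rpow hw0.le hwb hX0.le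
    obtain ⟨hφ, -, hfle, ⟨hf0, hf1⟩, hz4⟩ := hZ0 (w ^ y (k + 1)) (hZX.trans hSz)
    -- the bound for `H`
    have huz : f (u ^ y (k + 1)) ≤ 4 * f (w ^ y (k + 1)) := by
      apply hfle
      · have hv1 : 1 < v := by linarith
        have hzv : w ^ y (k + 1) ≤ v ^ y (k + 1) := hzb.trans (Real.rpow_le_rpow hb0.le hbv.le hX0.le)
        calc (w ^ y (k + 1)) ^ (Real.log u / Real.log v) ≤ (v ^ y (k + 1)) ^ (Real.log u / Real.log v) := by
              apply Real.rpow_le_rpow hz0.le hzv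
              exact (div_pos (Real.log_pos hu) (Real.log_pos hv1)).le
          _ = u ^ y (k + 1) := by
              rw [← Real.rpow_mul (by linarith), mul_comm, Real.rpow_mul (by linarith)]
              congr 1
              rw [Real.rpow_def_of_pos (by linarith), mul_div_cancel₀ _ (Real.log_pos hv1).ne',
                Real.exp_log hu0]
      · exact (Real.rpow_le_rpow hu0.le hua.le hX0.le).trans hSz
    have hHz : (h (N0 + (k + 1)) : ℝ) ≤ c / 8 * f (w ^ y (k + 1)) := by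
      calc (h (N0 + (k + 1)) : ℝ) ≤ c / 32 * f (u ^ y (k + 1)) := hhX
        _ ≤ c / 32 * (4 * f (w ^ y (k + 1))) := by gcongr
        _ = c / 8 * f (w ^ y (k + 1)) := by ring
    exact mills_kids hδ0 hδ1 hθ0 hθδ hc ha1 hX1 hw1 hbX hw2 hφ
      (fun r hr => (hZ0 r (hZX.trans (hSz.trans hr))).2.1.1) hf0 hz4 hHz

end Pool.Agent.Q273.CG
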