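import Mathlib
import Pool.Agent.Q273.CG.MD

/-!
# Mills numbers with prescribed distances to the next prime: dimension one
-/

set_option autoImplicit false

namespace Pool.Agent.Q273.CG

open Set Filter Topology MeasureTheory
open scoped ENNReal NNReal

/-- both forms, with the same exponent -/
theorem mills_dist_both : ∃ C : ℝ, 1 < C ∧ (∀ ε : ℝ, 0 < ε → ε < 1 → ∃ c : ℝ, 0 < c ∧
    ∀ x : ℕ → ℝ, (∀ n, 0 < x n) → (∀ n, C * x n ≤ x (n + 1)) →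
    ∀ u v : ℝ, 1 < u → u < v → ∀ h : ℕ → ℕ, (∀ᶠ n in atTop, (h n : ℝ) ≤ c * f (u ^ x n)) →
    ENNReal.ofReal (1 - ε) ≤
      dimH {A : ℝ | u < A ∧ A < v ∧ ∀ᶠ n in atTop, (⌊A ^ x n⌋₊ + h n).Prime ∧
        ∀ q : ℕ, q.Prime → q < ⌊A ^ x n⌋₊ + h n → (q : ℝ) + c * f (A ^ x n) < ⌊A ^ x n⌋₊}) ∧
    (∀ x : ℕ → ℝ, (∀ n, 0 < x n) → (∀ n, C * x n ≤ x (n + 1)) →
    ∀ u v : ℝ, 1 < u → u < v → ∀ h : ℕ → ℕ,
      (∀ c : ℝ, 0 < c → ∀ᶠ n in atTop, (h n : ℝ) ≤ c * f (u ^ x n)) →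
      dimH {A : ℝ | u < A ∧ A < v ∧ ∃ c : ℝ, 0 < c ∧ ∀ᶠ n in atTop, (⌊A ^ x n⌋₊ + h n).Prime ∧
        ∀ q : ℕ, q.Prime → q < ⌊A ^ x n⌋₊ + h n → (q : ℝ) + c * f (A ^ x n) < ⌊A ^ x n⌋₊} = 1) := by
  obtain ⟨C, hC, hcore⟩ := mills_dist_core
  refine ⟨C, hC, hcore, fun x hx hxC u v hu huv h hh => ?_⟩
  apply le_antisymm
  · calc dimH _ ≤ dimH (univ : Set ℝ) := dimH_mono (subset_univ _)
      _ = 1 := Real.dimH_univ
  · apply le_of_forall_lt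
    intro y hy
    obtain ⟨z, hz1, hz2⟩ := exists_between hy
    have hzt : z ≠ ∞ := (hz2.trans_le le_top).ne
    lift z to ℝ≥0 using hzt
    have hz0 : 0 < z := by
      have := lt_of_le_of_lt zero_le hz1
      exact_mod_cast this
    have hz3 : (z : ℝ) < 1 := by exact_mod_cast hz2
    have hz4 : (0 : ℝ) < z := by exact_mod_cast hz0
    obtain ⟨c, hc, hd⟩ := hcore (1 - z) (by linarith) (by linarith)
    have h2 := hd x hx hxC u v hu huv h (hh c hc)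
    have h3 : ENNReal.ofReal (1 - (1 - (z : ℝ))) = z := by
      rw [sub_sub_cancel]
      exact ENNReal.ofReal_coe_nnreal
    rw [h3] at h2
    refine lt_of_lt_of_le hz1 (h2.trans (dimH_mono ?_))
    rintro α ⟨h4, h5, h6⟩
    exact ⟨h4, h5, c, hc, h6⟩

end Pool.Agent.Q273.CG
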