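import Mathlib

/-!
# Lower bounds for the Hausdorff dimension from codings by sequences of digits
-/

set_option autoImplicit false

namespace Pool.Agent.Q273.CG

open Set Filter Topology MeasureTheory
open scoped ENNReal NNReal

theorem le_dimH_coding {X : Type} [MetricSpace X] {M : ℕ} (hM : 2 ≤ M) {P : (ℕ → Fin M) → X}
    {s C : ℝ≥0} (hs : 0 < s)
    (h : ∀ (d d' : ℕ → Fin M) (n : ℕ), (∀ i < n, d i = d' i) → d n ≠ d' n →
      ((M : ℝ) ^ n)⁻¹ ≤ C * dist (P d) (P d') ^ (s : ℝ)) :
    (s : ℝ≥0∞) ≤ dimH (range P) := by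
  classical
  have hMr : (0 : ℝ) < M := by exact_mod_cast (by omega : 0 < M)
  have key : ∀ d d' : ℕ → Fin M, d ≠ d' → ∃ n : ℕ,
      |Real.ofDigits d - Real.ofDigits d'| ≤ ((M : ℝ) ^ n)⁻¹ ∧
        ((M : ℝ) ^ n)⁻¹ ≤ C * dist (P d) (P d') ^ (s : ℝ) := by
    intro d d' hdd
    have hex : ∃ n, d n ≠ d' n := Function.ne_iff.1 hdd
    have hag : ∀ i < Nat.find hex, d i = d' i := by
      intro i hi
      have := Nat.find_min hex hi
      push Not at this
      exact this
    exact ⟨Nat.find hex, Real.abs_ofDigits_sub_ofDigits_le hag, h d d' _ hag (Nat.find_spec hex)⟩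
  have hinj : Function.Injective P := by
    intro d d' h2
    by_contra hne
    obtain ⟨n, -, h3⟩ := key d d' hne
    rw [h2, dist_self, Real.zero_rpow (by exact_mod_cast hs.ne'), mul_zero] at h3
    have : 0 < ((M : ℝ) ^ n)⁻¹ := by positivity
    linarith
  have hne : Nonempty (ℕ → Fin M) := ⟨fun _ => ⟨0, by omega⟩⟩
  set g : X → ℝ := fun z => Real.ofDigits (Function.invFun P z) with hg
  have hgp : ∀ d, g (P d) = Real.ofDigits d := by
    intro d
    simp only [hg]
    rw [Function.leftInverse_invFun hinj d]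
  have hbound : ∀ d d' : ℕ → Fin M,
      |Real.ofDigits d - Real.ofDigits d'| ≤ C * (dist (P d) (P d')) ^ (s : ℝ) := by
    intro d d'
    by_cases hdd : d = d'
    · subst hdd
      simp only [sub_self, abs_zero]
      positivity
    · obtain ⟨n, h1, h2⟩ := key d d' hdd
      exact h1.trans h2
  have hhold : HolderOnWith C s g (Set.range P) := by
    rintro _ ⟨d, rfl⟩ _ ⟨d', rfl⟩
    rw [hgp, hgp, edist_dist, edist_dist, Real.dist_eq]
    have h1 := hbound d d'
    calc ENNReal.ofReal |Real.ofDigits d - Real.ofDigits d'|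
        ≤ ENNReal.ofReal (C * (dist (P d) (P d')) ^ (s : ℝ)) := ENNReal.ofReal_le_ofReal h1
      _ = (C : ENNReal) * ENNReal.ofReal (dist (P d) (P d')) ^ (s : ℝ) := by
          rw [ENNReal.ofReal_mul (NNReal.coe_nonneg C),
            ENNReal.ofReal_rpow_of_nonneg dist_nonneg (NNReal.coe_nonneg s)]
          congr 1
          simp
  have h1 : dimH (g '' Set.range P) ≤ dimH (Set.range P) / (s : ENNReal) :=
    hhold.dimH_image_le hs
  have h2 : Set.Icc (0 : ℝ) 1 ⊆ g '' Set.range P := by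
    intro t ht
    obtain ⟨d, -, hd⟩ := Real.ofDigits_SurjOn (b := M) (by omega) ht
    exact ⟨P d, ⟨d, rfl⟩, by rw [hgp, hd]⟩
  have h3 : dimH (Set.Icc (0 : ℝ) 1) = 1 := by
    have := Real.dimH_of_nonempty_interior (E := ℝ) (s := Set.Icc (0 : ℝ) 1)
      (by rw [interior_Icc]; exact ⟨1 / 2, by norm_num, by norm_num⟩)
    simpa using this
  have h4 : (1 : ENNReal) ≤ dimH (Set.range P) / (s : ENNReal) := by
    rw [← h3]; exact (dimH_mono h2).trans h1
  have hs0 : (s : ENNReal) ≠ 0 := by exact_mod_cast hs.ne'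
  have := (ENNReal.le_div_iff_mul_le (Or.inl hs0) (Or.inl ENNReal.coe_ne_top)).1 h4
  simpa using this

end Pool.Agent.Q273.CG
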