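import Mathlib
import Pool.Agent.Q273.CG.Dil

/-!
# General form: sets which meet all windows of length `R^(ε/2)`
-/

set_option autoImplicit false

namespace Pool.Agent.Q273.CG

open Set Filter Topology MeasureTheory
open scoped ENNReal NNReal

/-- If the sets `G n` contain an interval of length `1 / 2` in every window of length
`2 (x (n + 1) / x n)^(ε/2)` above `u x (n + 1)`, the `α` such that `α x (n + 1)` lies in `G n` for all
large `n` have dimension at least `1 - ε`. -/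
theorem dil_gen (ε : ℝ) (h0 : 0 < ε) (h1 : ε < 1) (x : ℕ → ℝ) (hx : ∀ n, 0 < x n)
    (hR : Tendsto (fun n => x (n + 1) / x n) atTop atTop) (G : ℕ → Set ℝ) (u v : ℝ) (hu : 0 < u)
    (huv : u < v)
    (hw : ∀ᶠ n in atTop, ∀ w : ℝ, u * x (n + 1) ≤ w → ∃ m : ℝ, w ≤ m ∧
      m + 1 / 2 ≤ w + 2 * (x (n + 1) / x n) ^ (ε / 2) ∧ Icc m (m + 1 / 2) ⊆ G n) :
    ENNReal.ofReal (1 - ε) ≤
      dimH {α : ℝ | u < α ∧ α < v ∧ ∀ᶠ n in atTop, α * x (n + 1) ∈ G n} := by
  set R : ℕ → ℝ := fun n => x (n + 1) / x n with hRdef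
  have hRx : ∀ n, x (n + 1) = R n * x n := fun n => by
    simp only [hRdef]; rw [div_mul_cancel₀ _ (hx n).ne']
  -- `x n → ∞`
  obtain ⟨n1, hn1⟩ := eventually_atTop.1 (hR.eventually_ge_atTop 2)
  have hx1 : ∀ k, x n1 * 2 ^ k ≤ x (n1 + k) := by
    intro k
    induction k with
    | zero => simp
    | succ k ih =>
      have h2 := hn1 (n1 + k) (by omega)
      rw [show n1 + (k + 1) = n1 + k + 1 by ring, hRx, pow_succ]
      have h3 : (2 : ℝ) ≤ R (n1 + k) := h2
      have := hx (n1 + k)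
      calc x n1 * (2 ^ k * 2) = 2 * (x n1 * 2 ^ k) := by ring
        _ ≤ R (n1 + k) * x (n1 + k) := by
            apply mul_le_mul h3 ih (by have := hx n1; positivity) (by linarith)
  have hxt : Tendsto x atTop atTop := by
    have h2 : Tendsto (fun k : ℕ => x n1 * 2 ^ k) atTop atTop :=
      (tendsto_pow_atTop_atTop_of_one_lt (by norm_num)).const_mul_atTop (hx n1)
    have h3 : Tendsto (fun k : ℕ => x (k + n1)) atTop atTop := by
      apply tendsto_atTop_mono _ h2
      intro k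
      rw [add_comm k n1]
      exact hx1 k
    exact (tendsto_add_atTop_iff_nat n1).1 h3
  -- the levels
  have h16 : ∀ᶠ y : ℝ in atTop, 16 ≤ y ^ (ε / 2) ∧ 16 ≤ y ^ (1 - ε / 2) ∧ 1 ≤ y :=
    ((tendsto_rpow_atTop (by positivity)).eventually_ge_atTop 16).and
      (((tendsto_rpow_atTop (by linarith)).eventually_ge_atTop 16).and (eventually_ge_atTop 1))
  obtain ⟨N0, hN0⟩ := eventually_atTop.1 (hw.and
    ((hR.eventually h16).and (hxt.eventually_ge_atTop (1 / (v - u)))))
  have hvu : 0 < v - u := by linarith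
  set a : ℝ := (3 * u + v) / 4 with ha
  set b : ℝ := (u + 3 * v) / 4 with hb
  have hba : b - a = (v - u) / 2 := by rw [ha, hb]; ring
  set ℓ : ℕ → ℝ := fun k => 1 / (2 * x (N0 + k)) with hℓ
  set Δ : ℕ → ℝ := fun k => 2 * (R (N0 + k)) ^ (ε / 2) / x (N0 + k + 1) with hΔ
  set T : ℕ → ℕ := fun k => ⌊(R (N0 + k)) ^ (1 - ε / 2) / 8⌋₊ with hT
  have hRpos : ∀ n, 0 < R n := fun n => div_pos (hx _) (hx _)
  have hℓpos : ∀ n, 0 < ℓ n := fun n => by have := hx (N0 + n); simp only [hℓ]; positivity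
  have hΔpos : ∀ n, 0 < Δ n := fun n => by
    have := hx (N0 + n + 1)
    have := Real.rpow_pos_of_pos (hRpos (N0 + n)) (ε / 2)
    simp only [hΔ]; positivity
  -- `R^(1-ε/2)/8 * 2 * Δ = ℓ`
  have hid : ∀ k, (R (N0 + k)) ^ (1 - ε / 2) / 8 * (2 * Δ k) = ℓ k := by
    intro k
    simp only [hΔ, hℓ]
    have h2 := hx (N0 + k)
    have h3 := hRpos (N0 + k)
    rw [hRx (N0 + k)]
    have h4 : (R (N0 + k)) ^ (1 - ε / 2) * (R (N0 + k)) ^ (ε / 2) = R (N0 + k) := by
      rw [← Real.rpow_add h3]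
      norm_num
    calc (R (N0 + k)) ^ (1 - ε / 2) / 8 * (2 * (2 * (R (N0 + k)) ^ (ε / 2) / (R (N0 + k) * x (N0 + k))))
        = ((R (N0 + k)) ^ (1 - ε / 2) * (R (N0 + k)) ^ (ε / 2)) / (2 * (R (N0 + k) * x (N0 + k))) := by
          field_simp; ring
      _ = 1 / (2 * x (N0 + k)) := by rw [h4]; field_simp
  have hTy : ∀ k, (R (N0 + k)) ^ (1 - ε / 2) / 16 ≤ T k ∧ (T k : ℝ) ≤ (R (N0 + k)) ^ (1 - ε / 2) / 8 := by
    intro k
    have h2 := (hN0 (N0 + k) (by omega)).2.1.2.1
    set y : ℝ := (R (N0 + k)) ^ (1 - ε / 2) / 8 with hy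
    have hy2 : 2 ≤ y := by rw [hy]; linarith
    have h3 : (T k : ℝ) ≤ y := Nat.floor_le (by linarith)
    have h4 : y < T k + 1 := Nat.lt_floor_add_one y
    refine ⟨?_, h3⟩
    have : (R (N0 + k)) ^ (1 - ε / 2) / 16 = y / 2 := by rw [hy]; ring
    rw [this]
    linarith
  set s : ℝ≥0 := ⟨1 - ε, by linarith⟩ with hs
  have hsr : (s : ℝ) = 1 - ε := rfl
  have hs0 : 0 < s := by
    have : (0 : ℝ) < (s : ℝ) := by rw [hsr]; linarith
    exact_mod_cast this
  have key := le_dimH_all (a := a) (b := b) (c := (2 * x N0) ^ (-(1 - ε))) (s := s) hs0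
    (by rw [hsr]; linarith) (Real.rpow_pos_of_pos (by have := hx N0; positivity) _) ℓ Δ T
    (fun k => {α | α * x (N0 + k + 1) ∈ G (N0 + k)}) hℓpos ?_ ?_ hΔpos ?_ ?_ ?_ ?_
  · have h2 : ENNReal.ofReal (1 - ε) = (s : ℝ≥0∞) := by
      rw [← hsr]
      exact ENNReal.ofReal_coe_nnreal
    rw [h2]
    refine key.trans (dimH_mono ?_)
    rintro α ⟨hα1, hα2, hα3⟩
    refine ⟨by linarith, by linarith, ?_⟩
    rw [eventually_atTop]
    refine ⟨N0, fun n hn => ?_⟩
    obtain ⟨k, rfl⟩ := Nat.exists_eq_add_of_le hn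
    exact hα3 k
  · -- `ℓ → 0`
    have h2 : Tendsto (fun k => x (N0 + k)) atTop atTop := by
      have := (tendsto_add_atTop_iff_nat N0).2 hxt
      refine this.congr fun k => ?_
      rw [add_comm]
    have h3 : Tendsto (fun k => 2 * x (N0 + k)) atTop atTop := h2.const_mul_atTop (by norm_num)
    have h4 : Tendsto (fun k => (2 * x (N0 + k))⁻¹) atTop (𝓝 0) := h3.inv_tendsto_atTop
    simpa only [hℓ, one_div] using h4
  · -- `ℓ 0 ≤ b - a`
    have h2 := (hN0 N0 le_rfl).2.2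
    rw [hba]
    simp only [hℓ, add_zero]
    rw [div_le_iff₀ hvu] at h2
    rw [div_le_iff₀ (by have := hx N0; positivity)]
    linarith
  · intro k
    have h2 := (hTy k).2
    have h3 := hΔpos k
    calc 2 * (T k : ℝ) * Δ k = T k * (2 * Δ k) := by ring
      _ ≤ (R (N0 + k)) ^ (1 - ε / 2) / 8 * (2 * Δ k) := by gcongr
      _ = ℓ k := hid k
  · intro k
    have h2 := (hTy k).1
    have h3 := hΔpos k
    calc ℓ k = (R (N0 + k)) ^ (1 - ε / 2) / 16 * (4 * Δ k) := by rw [← hid k]; ring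
      _ ≤ T k * (4 * Δ k) := by gcongr
      _ ≤ 8 * T k * Δ k := by
        have : (0 : ℝ) ≤ T k := Nat.cast_nonneg _
        nlinarith [mul_nonneg this h3.le]
  · intro k
    -- `∏ T ≥ (x (N0 + k) / x N0)^(1 - ε)`
    have h2 : ∀ k, (x (N0 + k) / x N0) ^ (1 - ε) ≤ ∏ i ∈ Finset.range k, (T i : ℝ) := by
      intro k
      induction k with
      | zero => simp [(hx N0).ne']
      | succ k ih =>
        rw [Finset.prod_range_succ]
        have h3 : (x (N0 + (k + 1)) / x N0) ^ (1 - ε) =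
            (x (N0 + k) / x N0) ^ (1 - ε) * (R (N0 + k)) ^ (1 - ε) := by
          rw [← Real.mul_rpow (div_pos (hx _) (hx _)).le (hRpos _).le]
          congr 1
          rw [show N0 + (k + 1) = N0 + k + 1 by ring, hRx]
          ring
        rw [h3]
        apply mul_le_mul ih _ (Real.rpow_pos_of_pos (hRpos _) _).le
          (Finset.prod_nonneg fun i _ => Nat.cast_nonneg _)
        have h4 := (hN0 (N0 + k) (by omega)).2.1
        have h5 : (R (N0 + k)) ^ (1 - ε / 2) = (R (N0 + k)) ^ (1 - ε) * (R (N0 + k)) ^ (ε / 2) := by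
          rw [← Real.rpow_add (hRpos _)]
          congr 1
          ring
        refine le_trans ?_ (hTy k).1
        rw [le_div_iff₀ (by norm_num), h5]
        exact mul_le_mul_of_nonneg_left h4.1 (Real.rpow_pos_of_pos (hRpos _) _).le
    refine le_trans (le_of_eq ?_) (h2 k)
    rw [hsr]
    simp only [hℓ]
    have h5 := hx N0
    have h6 := hx (N0 + k)
    have h7 : (1 / (2 * x (N0 + k))) ^ (-(1 - ε)) = (2 * x (N0 + k)) ^ (1 - ε) := by
      rw [one_div, Real.inv_rpow (by positivity), Real.rpow_neg (by positivity), inv_inv]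
    rw [h7, Real.rpow_neg (by positivity), ← Real.inv_rpow (by positivity),
      ← Real.mul_rpow (by positivity) (by positivity)]
    congr 1
    field_simp
  · intro k w hw1 hw2
    obtain ⟨h3, h5, h6⟩ := hN0 (N0 + k) (by omega)
    have hxk := hx (N0 + k + 1)
    have hw0 : 0 < w := by linarith
    have hΔk : Δ k * x (N0 + k + 1) = 2 * (R (N0 + k)) ^ (ε / 2) := by
      simp only [hΔ]
      field_simp
    obtain ⟨n, hn2, hn3, hn4⟩ := h3 (w * x (N0 + k + 1))
      (mul_le_mul_of_nonneg_right (by linarith) hxk.le)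
    have hℓk : ℓ (k + 1) * x (N0 + k + 1) = 1 / 2 := by
      simp only [hℓ]
      rw [show N0 + (k + 1) = N0 + k + 1 by ring]
      field_simp
    refine ⟨n / x (N0 + k + 1), ?_, ?_, ?_⟩
    · rw [le_div_iff₀ hxk]
      exact hn2
    · have h7 : n / x (N0 + k + 1) * x (N0 + k + 1) = n := by field_simp
      have h8 : (n / x (N0 + k + 1) + ℓ (k + 1)) * x (N0 + k + 1) ≤ (w + Δ k) * x (N0 + k + 1) := by
        rw [add_mul, add_mul, h7, hℓk, hΔk]
        exact hn3
      exact le_of_mul_le_mul_right h8 hxk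
    · intro α hα
      obtain ⟨hα1, hα2⟩ := hα
      have h8 : n ≤ α * x (N0 + k + 1) := by
        rw [div_le_iff₀ hxk] at hα1
        exact hα1
      have h9 : α * x (N0 + k + 1) ≤ n + 1 / 2 := by
        have h10 : α * x (N0 + k + 1) ≤ (n / x (N0 + k + 1) + ℓ (k + 1)) * x (N0 + k + 1) :=
          mul_le_mul_of_nonneg_right hα2 hxk.le
        have h7 : n / x (N0 + k + 1) * x (N0 + k + 1) = n := by field_simp
        rw [add_mul, h7, hℓk] at h10
        exact h10
      exact hn4 ⟨h8, h9⟩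

end Pool.Agent.Q273.CG
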