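import Mathlib
import Pool.Agent.Q273.CG.Dil
import Pool.Agent.Q273.CG.Cod

/-!
# Record gaps around integers with prescribed last digits, for all primes `p` at once
-/

set_option autoImplicit false

namespace Pool.Agent.Q273.CG

open Set Filter Topology MeasureTheory
open scoped ENNReal NNReal

/-- `log₂ x ≤ exp (log₂ x log₄ x / (20 log₃ x))` for large `x` -/
lemma level_ge : ∀ᶠ x : ℝ in atTop, 0 < Real.log (Real.log x) ∧
    Real.log (Real.log x) ≤ Real.exp (Real.log (Real.log x) *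
    Real.log (Real.log (Real.log (Real.log x))) / (20 * Real.log (Real.log (Real.log x)))) := by
  have hl : Tendsto Real.log atTop atTop := Real.tendsto_log_atTop
  have h2 : Tendsto (fun x => Real.log (Real.log x)) atTop atTop := hl.comp hl
  have h3 : Tendsto (fun x => Real.log (Real.log (Real.log x))) atTop atTop :=
    hl.comp (hl.comp hl)
  have h4 : Tendsto (fun x => Real.log (Real.log (Real.log (Real.log x)))) atTop atTop :=
    hl.comp (hl.comp (hl.comp hl))
  have h5 : ∀ᶠ y : ℝ in atTop, 20 * Real.log y ^ 2 ≤ y := by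
    have h6 := (Real.isLittleO_pow_log_id_atTop (n := 2)).def (show (0 : ℝ) < 1 / 20 by norm_num)
    filter_upwards [h6, eventually_gt_atTop (0 : ℝ)] with y hy hy0
    rw [Real.norm_eq_abs, id, Real.norm_eq_abs, abs_of_pos hy0, abs_of_nonneg (by positivity)] at hy
    linarith
  filter_upwards [h2.eventually_ge_atTop 1, h3.eventually_ge_atTop 1, h4.eventually_ge_atTop 1,
    h2.eventually h5] with x hx2 hx3 hx4 hx5
  have hx0 : 0 < Real.log (Real.log x) := by linarith
  refine ⟨hx0, ?_⟩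
  calc Real.log (Real.log x) = Real.exp (Real.log (Real.log (Real.log x))) :=
        (Real.exp_log hx0).symm
    _ ≤ _ := by
        apply Real.exp_le_exp.2
        rw [le_div_iff₀ (by linarith)]
        nlinarith

/-- A record gap around an integer below `p^m` in every residue class modulo `p^j`,
`j ≤ (1 - δ) m`, uniformly in `p`. -/
theorem residues (δ : ℝ) (h0 : 0 < δ) (h1 : δ < 1) : ∃ c : ℝ, 0 < c ∧ ∃ m₀ : ℕ, ∀ p : ℕ, p.Prime →
    ∀ m : ℕ, m₀ ≤ m → ∀ j : ℕ, (j : ℝ) ≤ (1 - δ) * m → ∀ r : ℕ, ∃ N : ℕ, N < p ^ m ∧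
      N ≡ r [MOD p ^ j] ∧ Far (c * f ((p : ℝ) ^ m)) N := by
  obtain ⟨c, hc, x₀, h⟩ :=
    Pool.Agent.Results.MP_3bc45c_nt.RecordGapsAtPrescribedPlaces.result (δ / 2) 1
      (by positivity) (by linarith) zero_le_one
  have hlev := level_ge
  have hf := f_ge (θ := 1 / 2) (by norm_num) (by norm_num)
  obtain ⟨X, hX⟩ := eventually_atTop.1 (hlev.and (hf.and (eventually_ge_atTop (max (x₀) 4))))
  refine ⟨c * (1 / 2) * (1 / 16), by positivity, max (Nat.clog 2 ⌈2 * X⌉₊) ⌈2 / δ⌉₊, ?_⟩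
  intro p hp m hm j hj r
  have hp2 : (2 : ℝ) ≤ p := by exact_mod_cast hp.two_le
  have hp0 : (0 : ℝ) < p := by linarith
  have hm1 : Nat.clog 2 ⌈2 * X⌉₊ ≤ m := (le_max_left _ _).trans hm
  have hm2 : 2 / δ ≤ m := by
    have : ⌈2 / δ⌉₊ ≤ m := (le_max_right _ _).trans hm
    exact (Nat.le_ceil _).trans (by exact_mod_cast this)
  set q : ℝ := (p : ℝ) ^ m with hq
  have hq0 : 0 < q := by positivity
  have h2X : 2 * X ≤ q := by
    have e1 : ⌈2 * X⌉₊ ≤ 2 ^ m := (Nat.clog_le_iff_le_pow (by norm_num)).1 hm1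
    have e2 : ((⌈2 * X⌉₊ : ℕ) : ℝ) ≤ (2 : ℝ) ^ m := by exact_mod_cast e1
    calc 2 * X ≤ ⌈2 * X⌉₊ := Nat.le_ceil _
      _ ≤ (2 : ℝ) ^ m := e2
      _ ≤ q := by rw [hq]; gcongr
  have hqX : X ≤ q := by
    rcases le_or_gt 0 X with h3 | h3
    · linarith
    · linarith
  obtain ⟨-, ⟨hfq, -⟩, h4q⟩ := hX q hqX
  simp only [max_le_iff] at h4q
  set x : ℝ := q - 1 with hx
  have hxq : q / 2 ≤ x := by rw [hx]; linarith
  have hxX : X ≤ x := by linarith
  obtain ⟨⟨hl1, hl2⟩, -, hx4⟩ := hX x hxX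
  simp only [max_le_iff] at hx4
  have hx0 : 0 < x := by linarith
  have hdx : ((p ^ j : ℕ) : ℝ) ≤ x ^ (1 - δ / 2) := by
    push_cast
    have e1 : (p : ℝ) ^ j ≤ q ^ (1 - δ) := by
      rw [hq, ← Real.rpow_natCast, ← Real.rpow_natCast, ← Real.rpow_mul hp0.le]
      apply Real.rpow_le_rpow_of_exponent_le (by linarith)
      linarith
    have e2 : (2 : ℝ) ≤ q ^ (δ / 2) := by
      rw [hq, ← Real.rpow_natCast, ← Real.rpow_mul hp0.le]
      have e3 : 1 ≤ (m : ℝ) * (δ / 2) := by
        rw [div_le_iff₀ h0] at hm2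
        linarith
      calc (2 : ℝ) ≤ p := hp2
        _ = (p : ℝ) ^ (1 : ℝ) := (Real.rpow_one _).symm
        _ ≤ (p : ℝ) ^ ((m : ℝ) * (δ / 2)) :=
            Real.rpow_le_rpow_of_exponent_le (by linarith) e3
    have e4 : (q / 2) ^ (1 - δ / 2) ≤ x ^ (1 - δ / 2) :=
      Real.rpow_le_rpow (by positivity) hxq (by linarith)
    have e5 : (2 : ℝ) ^ (1 - δ / 2) ≤ 2 := by
      calc (2 : ℝ) ^ (1 - δ / 2) ≤ (2 : ℝ) ^ (1 : ℝ) :=
            Real.rpow_le_rpow_of_exponent_le (by norm_num) (by linarith)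
        _ = 2 := Real.rpow_one 2
    refine e1.trans (le_trans ?_ e4)
    rw [Real.div_rpow hq0.le (by norm_num), le_div_iff₀ (by positivity)]
    calc q ^ (1 - δ) * 2 ^ (1 - δ / 2) ≤ q ^ (1 - δ) * q ^ (δ / 2) := by
          apply mul_le_mul_of_nonneg_left (e5.trans e2) (by positivity)
      _ = q ^ (1 - δ / 2) := by
          rw [← Real.rpow_add hq0]
          congr 1
          ring
  obtain ⟨N, hN1, hN2, hN3, hN4⟩ := h x hx4.1 (p ^ j) (Nat.one_le_pow _ _ hp.pos) hdx (by
    refine le_trans (Finset.sum_le_sum_of_subset_of_nonneg (t := ({p} : Finset ℕ).filter fun p' : ℕ =>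
      Real.exp (Real.log (Real.log x) * Real.log (Real.log (Real.log (Real.log x))) /
        (20 * Real.log (Real.log (Real.log x)))) < ((p' : ℕ) : ℝ)) ?_ ?_) ?_
    · intro a ha
      rw [Finset.mem_filter] at ha ⊢
      refine ⟨?_, ha.2⟩
      have h3 := Nat.prime_of_mem_primeFactors ha.1
      have h4 := Nat.dvd_of_mem_primeFactors ha.1
      rw [Finset.mem_singleton]
      exact (Nat.prime_dvd_prime_iff_eq h3 hp).1 (h3.dvd_of_dvd_pow h4)
    · intro i _ _
      positivity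
    · rw [Finset.sum_filter, Finset.sum_singleton]
      split_ifs with h3
      · apply one_div_le_one_div_of_le hl1
        exact hl2.trans h3.le
      · positivity) r 0
  refine ⟨N, ?_, hN1, fun t ht => ?_⟩
  · have e1 : (N : ℝ) ≤ (p ^ m : ℕ) - 1 := by
      push_cast
      have : (N : ℝ) ≤ 0 + x := by simpa using hN3
      rw [hx, hq] at this
      linarith
    have e2 : (N : ℝ) < ((p ^ m : ℕ) : ℝ) := by linarith
    exact_mod_cast e2
  · refine lt_of_le_of_lt ?_ (hN4 t ht)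
    have e1 : (1 : ℝ) / 2 ≤ (Nat.totient (p ^ j) : ℝ) / ((p ^ j : ℕ) : ℝ) := by
      rcases Nat.eq_zero_or_pos j with h3 | h3
      · subst h3
        simp
        norm_num
      · rw [Nat.totient_prime_pow hp h3]
        have e2 : (p ^ j : ℕ) = p ^ (j - 1) * p := by
          rw [← pow_succ]
          congr 1
          omega
        rw [e2]
        push_cast [Nat.cast_sub hp.one_lt.le]
        have e3 : (0 : ℝ) < (p : ℝ) ^ (j - 1) := by positivity
        rw [mul_div_mul_left _ _ e3.ne', div_le_div_iff₀ (by norm_num) hp0]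
        linarith
    have e2 : 1 / 2 / 8 * f q ≤ f x := by
      apply hfq
      · have e3 : q ^ (1 / 2 : ℝ) ≤ q / 2 := by
          rw [← Real.sqrt_eq_rpow, Real.sqrt_le_left (by positivity)]
          nlinarith
        linarith
      · rw [hx]; linarith
    have e4 : 0 < f x := by
      obtain ⟨-, ⟨-, hlx⟩, -⟩ := hX x hxX
      exact lt_of_lt_of_le (Real.log_pos (by linarith)) hlx
    calc c * (1 / 2) * (1 / 16) * f q = c * ((1 / 2) * (1 / 2 / 8 * f q)) := by ring
      _ ≤ c * ((Nat.totient (p ^ j) : ℝ) / ((p ^ j : ℕ) : ℝ) * f x) := by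
          apply mul_le_mul_of_nonneg_left _ hc.le
          calc (1 / 2) * (1 / 2 / 8 * f q) ≤ (1 / 2) * f x :=
                mul_le_mul_of_nonneg_left e2 (by norm_num)
            _ ≤ _ := mul_le_mul_of_nonneg_right e1 e4.le

end Pool.Agent.Q273.CG
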