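import Mathlib
import Pool.Agent.Q273.CG.Pad

/-!
# `p`-adic integers all of whose truncations are members of given sets
-/

set_option autoImplicit false

namespace Pool.Agent.Q273.CG

open Set Filter Topology MeasureTheory
open scoped ENNReal NNReal

section

variable {p : ℕ} [hp : Fact p.Prime]

lemma nsub (x y : ℤ_[p]) : ‖x - y‖ ≤ max ‖x‖ ‖y‖ := by
  rw [sub_eq_add_neg]
  simpa using IsUltrametricDist.norm_add_le_max x (-y)

lemma norm_sub_le_iff (a b n : ℕ) : ‖(a : ℤ_[p]) - b‖ ≤ (p : ℝ) ^ (-n : ℤ) ↔ a ≡ b [MOD p ^ n] := by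
  have h1 : ((a : ℤ_[p]) - b) = (((a : ℤ) - (b : ℤ) : ℤ) : ℤ_[p]) := by push_cast; ring
  rw [h1, PadicInt.norm_int_le_pow_iff_dvd, Nat.modEq_iff_dvd, ← neg_sub (b : ℤ) (a : ℤ), dvd_neg]
  push_cast
  rfl

/-- limits of coherent sequences -/
lemma exists_limit (a μ : ℕ → ℕ) (hμ : ∀ t, μ t < μ (t + 1))
    (h : ∀ t, a (t + 1) ≡ a t [MOD p ^ μ t]) :
    ∃ x : ℤ_[p], ∀ t, ‖x - a t‖ ≤ (p : ℝ) ^ (-(μ t : ℤ)) := by
  have hp1 : (1 : ℝ) < p := by exact_mod_cast hp.out.one_lt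
  have hp2 : (2 : ℝ) ≤ p := by exact_mod_cast hp.out.two_le
  have hmono : Monotone μ := monotone_nat_of_le_succ fun t => (hμ t).le
  have hmod : ∀ t k, a (t + k) ≡ a t [MOD p ^ μ t] := by
    intro t k
    induction k with
    | zero => exact Nat.ModEq.refl _
    | succ k ih =>
      refine Nat.ModEq.trans ?_ ih
      exact (h (t + k)).of_dvd (pow_dvd_pow _ (hmono (by omega)))
  have hle : ∀ t, t ≤ μ t := by
    intro t
    induction t with
    | zero => omega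
    | succ t ih => have := hμ t; omega
  have hc : CauchySeq (fun t => (a t : ℤ_[p])) := by
    apply cauchySeq_of_le_geometric (1 / 2) 1 (by norm_num)
    intro t
    rw [dist_comm, dist_eq_norm, one_mul]
    have h1 := (norm_sub_le_iff (p := p) (a (t + 1)) (a t) (μ t)).2 (h t)
    refine h1.trans ?_
    rw [zpow_neg, zpow_natCast, one_div, inv_pow]
    apply inv_anti₀ (by positivity)
    calc (2 : ℝ) ^ t ≤ (p : ℝ) ^ t := by gcongr
      _ ≤ (p : ℝ) ^ μ t := pow_le_pow_right₀ hp1.le (hle t)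
  obtain ⟨x, hx⟩ := cauchySeq_tendsto_of_complete hc
  refine ⟨x, fun t => ?_⟩
  have h1 : Tendsto (fun k => ‖(a (k + t) : ℤ_[p]) - a t‖) atTop (𝓝 ‖x - a t‖) :=
    (((tendsto_add_atTop_iff_nat t).2 hx).sub_const _).norm
  apply le_of_tendsto' h1
  intro k
  rw [norm_sub_le_iff, add_comm]
  exact hmod t k

lemma appr_eq {x : ℤ_[p]} {N m : ℕ} (hN : N < p ^ m) (h : ‖x - N‖ ≤ (p : ℝ) ^ (-(m : ℤ))) :
    x.appr m = N := by
  have h1 := PadicInt.appr_spec m x
  rw [← PadicInt.norm_le_pow_iff_mem_span_pow] at h1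
  have h2 : ‖((x.appr m : ℕ) : ℤ_[p]) - N‖ ≤ (p : ℝ) ^ (-(m : ℤ)) := by
    have e : ((x.appr m : ℕ) : ℤ_[p]) - N = (x - N) - (x - (x.appr m : ℕ)) := by ring
    rw [e]
    exact (nsub _ _).trans (max_le h h1)
  rw [norm_sub_le_iff] at h2
  exact Nat.ModEq.eq_of_lt_of_lt h2 (PadicInt.appr_lt x m) hN

/-- the value of a block of digits -/
def block (p : ℕ) (ω : ℕ → Fin p) (K k : ℕ) : ℕ := ∑ j ∈ Finset.range k, (ω (K + j) : ℕ) * p ^ j

omit hp in
lemma block_congr {ω ω' : ℕ → Fin p} {K k : ℕ} (h : ∀ i < K + k, ω i = ω' i) :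
    block p ω K k = block p ω' K k := by
  unfold block
  apply Finset.sum_congr rfl
  intro j hj
  rw [Finset.mem_range] at hj
  rw [h (K + j) (by omega)]

/-- first difference at the position `j` of a block: the values are not congruent mod `p^(j+1)` -/
lemma block_ne {ω ω' : ℕ → Fin p} {K k j : ℕ} (hj : j < k) (h : ∀ i < K + j, ω i = ω' i)
    (hne : ω (K + j) ≠ ω' (K + j)) : ¬ block p ω K k ≡ block p ω' K k [MOD p ^ (j + 1)] := by
  intro hcon
  have hsplit : ∀ ω : ℕ → Fin p, ∃ r : ℕ, block p ω K k =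
      block p ω K j + (ω (K + j) : ℕ) * p ^ j + p ^ (j + 1) * r := by
    intro ω
    unfold block
    refine ⟨∑ i ∈ Finset.range (k - (j + 1)), (ω (K + (j + 1 + i)) : ℕ) * p ^ i, ?_⟩
    obtain ⟨l, rfl⟩ := Nat.exists_eq_add_of_le (show j + 1 ≤ k by omega)
    rw [Finset.sum_range_add, Finset.sum_range_succ, Nat.add_sub_cancel_left, Finset.mul_sum]
    congr 1
    apply Finset.sum_congr rfl
    intro i _
    rw [pow_add]
    ring
  obtain ⟨r, hr⟩ := hsplit ω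
  obtain ⟨r', hr'⟩ := hsplit ω'
  rw [hr, hr', block_congr h] at hcon
  have h1 : (ω (K + j) : ℕ) * p ^ j ≡ (ω' (K + j) : ℕ) * p ^ j [MOD p ^ (j + 1)] := by
    have h2 : ∀ u v : ℕ, u + p ^ (j + 1) * v ≡ u [MOD p ^ (j + 1)] := by
      intro u v
      unfold Nat.ModEq
      rw [Nat.add_mul_mod_self_left]
    have h3 := ((h2 _ r).symm.trans hcon).trans (h2 _ r')
    exact Nat.ModEq.add_left_cancel' _ h3
  rw [pow_succ, mul_comm (p ^ j) p] at h1
  have h2 := Nat.ModEq.mul_right_cancel' (pow_pos hp.out.pos j).ne' h1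
  have h3 := Nat.ModEq.eq_of_lt_of_lt h2 (ω (K + j)).2 (ω' (K + j)).2
  exact hne (Fin.ext h3)

end

/-- The construction: `C t r < p^(μ (t+1))` is congruent to `r` modulo `p^(μ t + k t)`. The set of
the `p`-adic integers whose truncations modulo `p^(μ (t+1))` are values of `C t` has dimension at
least `s` if the number of free digits `∑_{i<t} k i` is at least `s μ t - D`. -/
theorem padic_tree {p : ℕ} [hp : Fact p.Prime] (μ k : ℕ → ℕ) (hμ : ∀ t, μ t < μ (t + 1))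
    (hk : ∀ t, μ t + k t ≤ μ (t + 1)) (hk0 : ∀ t, 0 < k t) (a : ℤ_[p]) (C : ℕ → ℕ → ℕ)
    (hC1 : ∀ t r, C t r < p ^ μ (t + 1))
    (hC2 : ∀ t r, C t r ≡ r [MOD p ^ (μ t + k t)]) {s : ℝ≥0} (hs : 0 < s) (hs1 : (s : ℝ) ≤ 1)
    (D : ℝ) (hD : ∀ t, (s : ℝ) * μ t - D ≤ ∑ i ∈ Finset.range t, (k i : ℝ)) :
    (s : ℝ≥0∞) ≤ dimH {x : ℤ_[p] | ‖x - a‖ ≤ (p : ℝ) ^ (-(μ 0 : ℤ)) ∧
      ∀ t, ∃ r, x.appr (μ (t + 1)) = C t r} := by
  classical
  have hs0 : (0 : ℝ) < s := by exact_mod_cast hs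
  have hp1 : (1 : ℝ) < p := by exact_mod_cast hp.out.one_lt
  have hp0 : (0 : ℝ) < p := by linarith
  set K : ℕ → ℕ := fun t => ∑ i ∈ Finset.range t, k i with hK
  have hKs : ∀ t, K (t + 1) = K t + k t := fun t => by simp only [hK]; rw [Finset.sum_range_succ]
  have hKmono : StrictMono K := strictMono_nat_of_lt_succ fun t => by
    rw [hKs]; have := hk0 t; omega
  have hK0 : K 0 = 0 := by simp [hK]
  obtain ⟨N, hN0, hNs⟩ : ∃ N : ℕ → (ℕ → Fin p) → ℕ, (∀ ω, N 0 ω = a.appr (μ 0)) ∧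
      ∀ t ω, N (t + 1) ω = C t (N t ω + p ^ μ t * block p ω (K t) (k t)) :=
    ⟨fun t => Nat.rec (fun _ => a.appr (μ 0))
      (fun t L ω => C t (L ω + p ^ μ t * block p ω (K t) (k t))) t, fun _ => rfl, fun _ _ => rfl⟩
  have hNlt : ∀ t ω, N t ω < p ^ μ t := by
    intro t ω
    rcases t with _ | t
    · rw [hN0]; exact PadicInt.appr_lt _ _
    · rw [hNs]; exact hC1 _ _
  have hNmod : ∀ t ω, N (t + 1) ω ≡ N t ω + p ^ μ t * block p ω (K t) (k t) [MOD p ^ (μ t + k t)] := by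
    intro t ω
    rw [hNs]
    exact hC2 _ _
  have hNmod' : ∀ t ω, N (t + 1) ω ≡ N t ω [MOD p ^ μ t] := by
    intro t ω
    refine ((hNmod t ω).of_dvd (pow_dvd_pow _ (by omega))).trans ?_
    unfold Nat.ModEq
    rw [Nat.add_mul_mod_self_left]
  have hlim : ∀ ω : ℕ → Fin p, ∃ x : ℤ_[p], ∀ t : ℕ, ‖x - ((N t ω : ℕ) : ℤ_[p])‖ ≤ (p : ℝ) ^ (-(μ t : ℤ)) := fun ω =>
    exists_limit (fun t => N t ω) μ hμ (fun t => hNmod' t ω)
  choose P hP using hlim
  have hdep : ∀ (t : ℕ) (ω ω' : ℕ → Fin p), (∀ i < K t, ω i = ω' i) → N t ω = N t ω' := by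
    intro t ω ω' h
    induction t with
    | zero => rw [hN0, hN0]
    | succ t ih =>
      rw [hNs, hNs, ih (fun i hi => h i (by rw [hKs]; omega)),
        block_congr (fun i hi => h i (by rw [hKs]; omega))]
  have key := le_dimH_coding (M := p) hp.out.two_le (P := P) (s := s)
    (C := Real.toNNReal ((p : ℝ) ^ (D + (s : ℝ)))) hs ?_
  · refine key.trans (dimH_mono ?_)
    rintro _ ⟨ω, rfl⟩
    refine ⟨?_, fun t => ⟨N t ω + p ^ μ t * block p ω (K t) (k t), ?_⟩⟩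
    · have h1 := hP ω 0
      rw [hN0] at h1
      have h2 := PadicInt.appr_spec (μ 0) a
      rw [← PadicInt.norm_le_pow_iff_mem_span_pow] at h2
      have e : P ω - a = (P ω - ((a.appr (μ 0) : ℕ) : ℤ_[p])) - (a - ((a.appr (μ 0) : ℕ) : ℤ_[p])) := by
        ring
      rw [e]
      exact (nsub _ _).trans (max_le h1 h2)
    · rw [← hNs]
      exact appr_eq (hNlt _ _) (hP ω (t + 1))
  · intro ω ω' n hag hne
    -- the block of `n`
    obtain ⟨t, ht1, ht2⟩ : ∃ t, K t ≤ n ∧ n < K (t + 1) := by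
      have hex : ∃ t, n < K t := ⟨n + 1, lt_of_lt_of_le (Nat.lt_succ_self n) (hKmono.id_le (n + 1))⟩
      have h1 := Nat.find_spec hex
      have h2 : Nat.find hex ≠ 0 := by
        intro h3
        rw [h3, hK0] at h1
        omega
      obtain ⟨t, ht⟩ := Nat.exists_eq_succ_of_ne_zero h2
      refine ⟨t, ?_, by rw [ht] at h1; exact h1⟩
      by_contra h3
      exact Nat.find_min hex (by rw [ht]; exact Nat.lt_succ_self t) (not_le.1 h3)
    rw [hKs] at ht2
    obtain ⟨j, rfl⟩ := Nat.exists_eq_add_of_le ht1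
    have hj : j < k t := by omega
    have hNt := hdep t ω ω' (fun i hi => hag i (by omega))
    -- the points are far
    have hfar : ¬ ‖P ω - P ω'‖ ≤ (p : ℝ) ^ (-((μ t + j + 1 : ℕ) : ℤ)) := by
      intro hcon
      have h1 := hP ω (t + 1)
      have h2 := hP ω' (t + 1)
      have hle : (p : ℝ) ^ (-(μ (t + 1) : ℤ)) ≤ (p : ℝ) ^ (-((μ t + j + 1 : ℕ) : ℤ)) := by
        apply zpow_le_zpow_right₀ hp1.le
        have := hk t
        omega
      have h3 : ‖((N (t + 1) ω : ℕ) : ℤ_[p]) - ((N (t + 1) ω' : ℕ) : ℤ_[p])‖ ≤ (p : ℝ) ^ (-((μ t + j + 1 : ℕ) : ℤ)) := by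
        have e : ((N (t + 1) ω : ℕ) : ℤ_[p]) - ((N (t + 1) ω' : ℕ) : ℤ_[p]) =
            ((P ω - P ω') - (P ω - ((N (t + 1) ω : ℕ) : ℤ_[p]))) + (P ω' - ((N (t + 1) ω' : ℕ) : ℤ_[p])) := by ring
        rw [e]
        refine (IsUltrametricDist.norm_add_le_max _ _).trans (max_le ?_ (h2.trans hle))
        exact (nsub _ _).trans (max_le hcon (h1.trans hle))
      rw [norm_sub_le_iff] at h3
      have h4 := (hNmod t ω).of_dvd (pow_dvd_pow p (show μ t + j + 1 ≤ μ t + k t by omega))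
      have h5 := (hNmod t ω').of_dvd (pow_dvd_pow p (show μ t + j + 1 ≤ μ t + k t by omega))
      have h6 := (h4.symm.trans h3).trans h5
      rw [hNt] at h6
      have h7 := Nat.ModEq.add_left_cancel' _ h6
      rw [show μ t + j + 1 = μ t + (j + 1) by ring, pow_add] at h7
      have h8 := Nat.ModEq.mul_left_cancel' (pow_pos hp.out.pos (μ t)).ne' h7
      exact block_ne hj hag hne h8
    push Not at hfar
    rw [dist_eq_norm]
    have hKt : (s : ℝ) * μ t - D ≤ K t := by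
      have := hD t
      simp only [hK]
      push_cast
      exact this
    rw [Real.coe_toNNReal _ (by positivity)]
    have h1 : ((p : ℝ) ^ (-((μ t + j + 1 : ℕ) : ℤ))) ^ (s : ℝ) ≤ ‖P ω - P ω'‖ ^ (s : ℝ) :=
      Real.rpow_le_rpow (by positivity) hfar.le hs0.le
    refine le_trans ?_ (mul_le_mul_of_nonneg_left h1 (by positivity))
    have h2 : ((p : ℝ) ^ (-((μ t + j + 1 : ℕ) : ℤ))) ^ (s : ℝ) =
        (p : ℝ) ^ (-((μ t + j + 1 : ℝ) * s)) := by
      rw [← Real.rpow_intCast, ← Real.rpow_mul hp0.le]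
      congr 1
      push_cast
      ring
    rw [h2, ← Real.rpow_add hp0, ← Real.rpow_natCast, ← Real.rpow_neg hp0.le]
    apply Real.rpow_le_rpow_of_exponent_le hp1.le
    push_cast
    have h3 : (s : ℝ) * j ≤ j := by
      have : (0 : ℝ) ≤ j := Nat.cast_nonneg _
      nlinarith
    nlinarith

/-- **`p`-adic integers all of whose truncations lie in record gaps.** -/
theorem padic_core (ε δ : ℝ) (h0 : 0 < ε) (h1 : ε < 1) (hδ : 0 < δ) : ∃ c : ℝ, 0 < c ∧
    ∀ (p : ℕ) [Fact p.Prime] (m : ℕ → ℕ), (∀ n, 1 ≤ m n) → (∀ n, (1 + δ) * m n ≤ m (n + 1)) →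
    ∀ (a : ℤ_[p]) (l : ℕ), ENNReal.ofReal (1 - ε) ≤
      dimH {x : ℤ_[p] | ‖x - a‖ ≤ (p : ℝ) ^ (-(l : ℤ)) ∧
        ∀ᶠ n in atTop, Far (c * f ((p : ℝ) ^ m n)) (x.appr (m n))} := by
  set δ' : ℝ := ε * δ / (2 * (1 + δ)) with hδ'
  have hδ'0 : 0 < δ' := by positivity
  have hδ'e : 2 * δ' * (1 + δ) = ε * δ := by rw [hδ']; field_simp
  have hδ'1 : 2 * δ' < ε := by nlinarith
  obtain ⟨c, hc, m₀, h⟩ := residues δ' hδ'0 (by linarith)
  refine ⟨c, hc, fun p hp m hm hmδ a l => ?_⟩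
  have hp1 : (1 : ℝ) < p := by exact_mod_cast hp.out.one_lt
  -- `m n → ∞`
  have hmlt : ∀ n, m n < m (n + 1) := by
    intro n
    have e1 := hmδ n
    have e2 : (1 : ℝ) ≤ m n := by exact_mod_cast hm n
    have e3 : (m n : ℝ) < m (n + 1) := by nlinarith
    exact_mod_cast e3
  have hmle : ∀ n, n ≤ m n := by
    intro n
    induction n with
    | zero => omega
    | succ n ih => have := hmlt n; omega
  have hmt : Tendsto (fun n => (m n : ℝ)) atTop atTop :=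
    tendsto_atTop_mono (fun n => by exact_mod_cast hmle n) tendsto_natCast_atTop_atTop
  obtain ⟨n0, hn0⟩ := eventually_atTop.1 ((hmt.eventually_ge_atTop (max (m₀ : ℝ)
    (max (l : ℝ) (2 / δ')))))
  set μ : ℕ → ℕ := fun t => m (n0 + t) with hμ
  set k : ℕ → ℕ := fun t => ⌊(1 - δ') * μ (t + 1)⌋₊ - μ t with hk
  have hμb : ∀ t, (m₀ : ℝ) ≤ μ t ∧ (l : ℝ) ≤ μ t ∧ 2 / δ' ≤ μ t := by
    intro t
    have h2 := hn0 (n0 + t) (by omega)
    simp only [max_le_iff] at h2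
    exact h2
  have hμδ : ∀ t, (1 + δ) * μ t ≤ μ (t + 1) := fun t => hmδ (n0 + t)
  have hfl : ∀ t, (1 - δ') * μ (t + 1) - 1 < (⌊(1 - δ') * μ (t + 1)⌋₊ : ℝ) := fun t => by
    have := Nat.lt_floor_add_one ((1 - δ') * (μ (t + 1) : ℝ))
    linarith
  have hδμ : ∀ t, 2 ≤ δ' * μ t := by
    intro t
    have h2 := (hμb t).2.2
    rw [div_le_iff₀ hδ'0] at h2
    linarith
  -- `(1 - 2δ') μ (t+1) - μ t ≤ k t`
  have hkr : ∀ t, (1 - 2 * δ') * μ (t + 1) - μ t + 1 ≤ k t ∧ 0 < k t ∧ μ t + k t =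
      ⌊(1 - δ') * μ (t + 1)⌋₊ := by
    intro t
    have e1 := hfl t
    have e2 := hδμ (t + 1)
    have e3 := hμδ t
    have e4 : (0 : ℝ) ≤ μ t := Nat.cast_nonneg _
    have e5 : (0 : ℝ) ≤ μ (t + 1) := Nat.cast_nonneg _
    have e6 : (μ t : ℝ) ≤ (1 - 2 * δ') * μ (t + 1) := by
      have e7 : (1 - 2 * δ') * ((1 + δ) * μ t) ≤ (1 - 2 * δ') * μ (t + 1) :=
        mul_le_mul_of_nonneg_left e3 (by linarith)
      have e8 : (1 - 2 * δ') * ((1 + δ) * (μ t : ℝ)) = (1 + δ - ε * δ) * μ t := by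
        rw [← hδ'e]; ring
      have e9 : (1 : ℝ) * μ t ≤ (1 + δ - ε * δ) * μ t :=
        mul_le_mul_of_nonneg_right (by nlinarith) e4
      linarith
    have e7 : (μ t : ℝ) < (⌊(1 - δ') * μ (t + 1)⌋₊ : ℝ) := by linarith
    have e8 : μ t < ⌊(1 - δ') * μ (t + 1)⌋₊ := by exact_mod_cast e7
    have e9 : (k t : ℝ) = (⌊(1 - δ') * μ (t + 1)⌋₊ : ℝ) - μ t := by
      simp only [hk]
      rw [Nat.cast_sub e8.le]
    refine ⟨by rw [e9]; linarith, by simp only [hk]; omega, by simp only [hk]; omega⟩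
  have hC : ∀ t r : ℕ, ∃ N : ℕ, N < p ^ μ (t + 1) ∧ N ≡ r [MOD p ^ (μ t + k t)] ∧
      Far (c * f ((p : ℝ) ^ μ (t + 1))) N := by
    intro t r
    apply h p hp.out (μ (t + 1)) (by exact_mod_cast (hμb (t + 1)).1)
    rw [(hkr t).2.2]
    exact Nat.floor_le (mul_nonneg (by linarith) (Nat.cast_nonneg _))
  choose C hC1 hC2 hC3 using hC
  set s : ℝ≥0 := ⟨1 - ε, by linarith⟩ with hs
  have hsr : (s : ℝ) = 1 - ε := rfl
  have hs0 : 0 < s := by
    have : (0 : ℝ) < (s : ℝ) := by rw [hsr]; linarith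
    exact_mod_cast this
  have key := padic_tree (p := p) μ k (fun t => hmlt (n0 + t)) (fun t => by
      rw [(hkr t).2.2]
      have e1 : (⌊(1 - δ') * μ (t + 1)⌋₊ : ℝ) ≤ μ (t + 1) := by
        refine (Nat.floor_le (mul_nonneg (by linarith) (Nat.cast_nonneg _))).trans ?_
        have : (0 : ℝ) ≤ μ (t + 1) := Nat.cast_nonneg _
        nlinarith
      exact_mod_cast e1) (fun t => (hkr t).2.1) a C hC1 hC2 (s := s) hs0
      (by rw [hsr]; linarith) ((s : ℝ) * μ 0) (by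
        intro t
        induction t with
        | zero => simp
        | succ t ih =>
          rw [Finset.sum_range_succ]
          have e1 := (hkr t).1
          have e2 := hμδ t
          have e4 : (0 : ℝ) ≤ μ t := Nat.cast_nonneg _
          -- `(ε - 2δ') μ(t+1) ≥ ε μ t`
          have e5 : (ε - 2 * δ') * ((1 + δ) * μ t) ≤ (ε - 2 * δ') * μ (t + 1) :=
            mul_le_mul_of_nonneg_left e2 (by linarith)
          have e6 : (ε - 2 * δ') * ((1 + δ) * (μ t : ℝ)) = ε * μ t := by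
            have : (ε - 2 * δ') * (1 + δ) = ε := by
              have := hδ'e
              linarith
            rw [← mul_assoc, this]
          rw [hsr] at ih ⊢
          linarith)
  have h2 : ENNReal.ofReal (1 - ε) = (s : ℝ≥0∞) := by
    rw [← hsr]
    exact ENNReal.ofReal_coe_nnreal
  rw [h2]
  refine key.trans (dimH_mono ?_)
  rintro x ⟨hx1, hx2⟩
  refine ⟨hx1.trans ?_, ?_⟩
  · apply zpow_le_zpow_right₀ hp1.le
    have : l ≤ μ 0 := by exact_mod_cast (hμb 0).2.1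
    omega
  · rw [eventually_atTop]
    refine ⟨n0 + 1, fun n hn => ?_⟩
    obtain ⟨t, rfl⟩ := Nat.exists_eq_add_of_le hn
    obtain ⟨r, hr⟩ := hx2 t
    have e : m (n0 + 1 + t) = μ (t + 1) := by simp only [hμ]; congr 1; ring
    rw [e, hr]
    exact hC3 t r

end Pool.Agent.Q273.CG
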