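import Mathlib
import Pool.Agent.Q273.CG.Pad2

set_option autoImplicit false

namespace Pool.Agent.Q273.CG

open Set Filter Topology MeasureTheory
open scoped ENNReal NNReal

/-- the Hausdorff dimension of the `p`-adic integers is at most one -/
theorem dimH_padic_le (p : ℕ) [hp : Fact p.Prime] : dimH (univ : Set ℤ_[p]) ≤ 1 := by
  borelize ℤ_[p]
  have hp1 : (1 : ℝ) < p := by exact_mod_cast hp.out.one_lt
  have hp0 : (0 : ℝ) < p := by linarith
  have hdiam : ∀ (n : ℕ) (i : Fin (p ^ n)), Metric.ediam {x : ℤ_[p] | x.appr n = i} ≤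
      ENNReal.ofReal (((p : ℝ) ^ n)⁻¹) := by
    intro n i
    apply Metric.ediam_le
    intro x hx y hy
    rw [edist_dist, dist_eq_norm]
    apply ENNReal.ofReal_le_ofReal
    have h1 := PadicInt.appr_spec n x
    have h2 := PadicInt.appr_spec n y
    rw [← PadicInt.norm_le_pow_iff_mem_span_pow] at h1 h2
    have hx' : x.appr n = i := hx
    have hy' : y.appr n = i := hy
    rw [hx'] at h1
    rw [hy'] at h2
    have e : x - y = (x - ((i : ℕ) : ℤ_[p])) - (y - ((i : ℕ) : ℤ_[p])) := by ring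
    rw [e]
    have h3 : ((p : ℝ) ^ n)⁻¹ = (p : ℝ) ^ (-(n : ℤ)) := by rw [zpow_neg, zpow_natCast]
    rw [h3]
    exact (nsub _ _).trans (max_le h1 h2)
  have hmeas : μH[1] (univ : Set ℤ_[p]) ≤ 1 := by
    have h1 := Measure.hausdorffMeasure_le_liminf_sum (β := ℕ) (ι := fun n => Fin (p ^ n)) (1 : ℝ)
      (univ : Set ℤ_[p]) (l := atTop) (fun n => ENNReal.ofReal (((p : ℝ) ^ n)⁻¹)) ?_
      (fun n i => {x : ℤ_[p] | x.appr n = i}) (Eventually.of_forall fun n i => hdiam n i)
      (Eventually.of_forall fun n x _ => mem_iUnion.2 ⟨⟨x.appr n, PadicInt.appr_lt x n⟩, rfl⟩)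
    · refine h1.trans ?_
      refine (liminf_le_liminf (Eventually.of_forall fun n => ?_)).trans
        (le_of_eq (liminf_const (1 : ℝ≥0∞)))
      calc ∑ i : Fin (p ^ n), Metric.ediam {x : ℤ_[p] | x.appr n = i} ^ (1 : ℝ)
          ≤ ∑ _i : Fin (p ^ n), ENNReal.ofReal (((p : ℝ) ^ n)⁻¹) := by
            apply Finset.sum_le_sum
            intro i _
            rw [ENNReal.rpow_one]
            exact hdiam n i
        _ = 1 := by
            rw [Finset.sum_const, Finset.card_univ, Fintype.card_fin, nsmul_eq_mul]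
            rw [ENNReal.ofReal_inv_of_pos (by positivity), ENNReal.ofReal_pow hp0.le,
              ENNReal.ofReal_natCast]
            push_cast
            apply ENNReal.mul_inv_cancel
            · have : (p : ℝ≥0∞) ≠ 0 := by exact_mod_cast hp.out.ne_zero
              exact pow_ne_zero _ this
            · exact ENNReal.pow_ne_top (ENNReal.natCast_ne_top p)
    · have h2 : Tendsto (fun n : ℕ => ((p : ℝ) ^ n)⁻¹) atTop (𝓝 0) :=
        (tendsto_pow_atTop_atTop_of_one_lt hp1).inv_tendsto_atTop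
      have h3 := ENNReal.tendsto_ofReal h2
      rwa [ENNReal.ofReal_zero] at h3
  have h2 := dimH_le_of_hausdorffMeasure_ne_top (d := 1) (s := (univ : Set ℤ_[p]))
    (ne_top_of_le_ne_top ENNReal.one_ne_top (by simpa using hmeas))
  simpa using h2

/-- the version with a constant that depends on the `p`-adic integer -/
theorem padic_one (δ : ℝ) (hδ : 0 < δ) (p : ℕ) [hp : Fact p.Prime] (m : ℕ → ℕ) (hm : ∀ n, 1 ≤ m n)
    (hmδ : ∀ n, (1 + δ) * m n ≤ m (n + 1)) (a : ℤ_[p]) (l : ℕ) :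
      dimH {x : ℤ_[p] | ‖x - a‖ ≤ (p : ℝ) ^ (-(l : ℤ)) ∧
        ∃ c : ℝ, 0 < c ∧ ∀ᶠ n in atTop, Far (c * f ((p : ℝ) ^ m n)) (x.appr (m n))} = 1 := by
  apply le_antisymm
  · exact (dimH_mono (subset_univ _)).trans (dimH_padic_le p)
  · apply le_of_forall_lt
    intro y hy
    obtain ⟨z, hz1, hz2⟩ := exists_between hy
    have hzt : z ≠ ∞ := (hz2.trans_le le_top).ne
    lift z to ℝ≥0 using hzt
    have hz0 : 0 < z := by
      have := lt_of_le_of_lt zero_le hz1
      exact_mod_cast this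
    have hz3 : (z : ℝ) < 1 := by exact_mod_cast hz2
    have hz4 : (0 : ℝ) < z := by exact_mod_cast hz0
    obtain ⟨c, hc, h⟩ := padic_core (1 - z) δ (by linarith) (by linarith) hδ
    have h2 := h p m hm hmδ a l
    have h3 : ENNReal.ofReal (1 - (1 - (z : ℝ))) = z := by
      rw [sub_sub_cancel]
      exact ENNReal.ofReal_coe_nnreal
    rw [h3] at h2
    refine lt_of_lt_of_le hz1 (h2.trans (dimH_mono ?_))
    rintro α ⟨h4, h6⟩
    exact ⟨h4, c, hc, h6⟩

end Pool.Agent.Q273.CG
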