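import Mathlib
import Pool.Agent.Q273.CG.Dil

/-!
# Sequences with ratios at least a constant: all terms in long gaps
-/

set_option autoImplicit false

namespace Pool.Agent.Q273.CG

open Set Filter Topology MeasureTheory
open scoped ENNReal NNReal

/-- **All terms, ratios at least `R₀`.** -/
theorem uni_core (ε : ℝ) (h0 : 0 < ε) (h1 : ε < 1) (B : ℕ) : ∃ c R₀ : ℝ, 0 < c ∧ 1 < R₀ ∧
    ∀ x : ℕ → ℝ, (∀ n, 0 < x n) → (∀ n, R₀ ≤ x (n + 1) / x n) →
    ∀ d r : ℕ → ℕ, (∀ n, 1 ≤ d n) → (∀ n, ∀ p : ℕ, p.Prime → p ∣ d n → p ≤ B) →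
    (∀ n, (d n : ℝ) ≤ (x (n + 1) / x n) ^ (ε / 4)) →
    ∀ u v : ℝ, 0 < u → u < v → 1 ≤ x 0 * (v - u) → ENNReal.ofReal (1 - ε) ≤
      dimH {α : ℝ | u < α ∧ α < v ∧ ∀ n, ⌊α * x (n + 1)⌋₊ ≡ r n [MOD d n] ∧
        Far (c * f (x (n + 1) / x n)) (α * x (n + 1))} := by
  obtain ⟨c, hc, hw⟩ := windows (ε / 2) (by positivity) (by linarith) B
  have h16 : ∀ᶠ y : ℝ in atTop, 16 ≤ y ^ (ε / 2) ∧ 16 ≤ y ^ (1 - ε / 2) ∧ 1 ≤ y :=
    ((tendsto_rpow_atTop (by positivity)).eventually_ge_atTop 16).and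
      (((tendsto_rpow_atTop (by linarith)).eventually_ge_atTop 16).and (eventually_ge_atTop 1))
  obtain ⟨R₁, hR₁⟩ := eventually_atTop.1 (hw.and h16)
  refine ⟨c, max R₁ 2, hc, lt_of_lt_of_le (by norm_num) (le_max_right _ _),
    fun x hx hR d r hd hdB hdR u v hu huv hx0v => ?_⟩
  set R : ℕ → ℝ := fun n => x (n + 1) / x n with hRdef
  have hRx : ∀ n, x (n + 1) = R n * x n := fun n => by
    simp only [hRdef]; rw [div_mul_cancel₀ _ (hx n).ne']
  have hR2 : ∀ n, 2 ≤ R n := fun n => (le_max_right _ _).trans (hR n)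
  -- `x n → ∞`
  have hx1 : ∀ k, x 0 * 2 ^ k ≤ x k := by
    intro k
    induction k with
    | zero => simp
    | succ k ih =>
      have h3 := hR2 k
      rw [hRx, pow_succ]
      have := hx k
      calc x 0 * (2 ^ k * 2) = 2 * (x 0 * 2 ^ k) := by ring
        _ ≤ R k * x k := by
            apply mul_le_mul h3 ih (by have := hx 0; positivity) (by linarith)
  have hxt : Tendsto x atTop atTop :=
    tendsto_atTop_mono hx1
      ((tendsto_pow_atTop_atTop_of_one_lt (by norm_num)).const_mul_atTop (hx 0))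
  have hN0 : ∀ n, _ ∧ _ := fun n => hR₁ (R n) ((le_max_left _ _).trans (hR n))
  have hvu : 0 < v - u := by linarith
  set a : ℝ := (3 * u + v) / 4 with ha
  set b : ℝ := (u + 3 * v) / 4 with hb
  have hba : b - a = (v - u) / 2 := by rw [ha, hb]; ring
  set ℓ : ℕ → ℝ := fun k => 1 / (2 * x k) with hℓ
  set Δ : ℕ → ℝ := fun k => 2 * (R k) ^ (ε / 2) / x (k + 1) with hΔ
  set T : ℕ → ℕ := fun k => ⌊(R k) ^ (1 - ε / 2) / 8⌋₊ with hT
  have hRpos : ∀ n, 0 < R n := fun n => div_pos (hx _) (hx _)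
  have hℓpos : ∀ n, 0 < ℓ n := fun n => by have := hx n; simp only [hℓ]; positivity
  have hΔpos : ∀ n, 0 < Δ n := fun n => by
    have := hx (n + 1)
    have := Real.rpow_pos_of_pos (hRpos n) (ε / 2)
    simp only [hΔ]; positivity
  -- `R^(1-ε/2)/8 * 2 * Δ = ℓ`
  have hid : ∀ k, (R k) ^ (1 - ε / 2) / 8 * (2 * Δ k) = ℓ k := by
    intro k
    simp only [hΔ, hℓ]
    have h2 := hx k
    have h3 := hRpos k
    rw [hRx k]
    have h4 : (R k) ^ (1 - ε / 2) * (R k) ^ (ε / 2) = R k := by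
      rw [← Real.rpow_add h3]
      norm_num
    calc (R k) ^ (1 - ε / 2) / 8 * (2 * (2 * (R k) ^ (ε / 2) / (R k * x k)))
        = ((R k) ^ (1 - ε / 2) * (R k) ^ (ε / 2)) / (2 * (R k * x k)) := by
          field_simp; ring
      _ = 1 / (2 * x k) := by rw [h4]; field_simp
  have hTy : ∀ k, (R k) ^ (1 - ε / 2) / 16 ≤ T k ∧ (T k : ℝ) ≤ (R k) ^ (1 - ε / 2) / 8 := by
    intro k
    have h2 := (hN0 k).2.2.1
    set y : ℝ := (R k) ^ (1 - ε / 2) / 8 with hy
    have hy2 : 2 ≤ y := by rw [hy]; linarith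
    have h3 : (T k : ℝ) ≤ y := Nat.floor_le (by linarith)
    have h4 : y < T k + 1 := Nat.lt_floor_add_one y
    refine ⟨?_, h3⟩
    have : (R k) ^ (1 - ε / 2) / 16 = y / 2 := by rw [hy]; ring
    rw [this]
    linarith
  set s : ℝ≥0 := ⟨1 - ε, by linarith⟩ with hs
  have hsr : (s : ℝ) = 1 - ε := rfl
  have hs0 : 0 < s := by
    have : (0 : ℝ) < (s : ℝ) := by rw [hsr]; linarith
    exact_mod_cast this
  have key := le_dimH_all (a := a) (b := b) (c := (2 * x 0) ^ (-(1 - ε))) (s := s) hs0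
    (by rw [hsr]; linarith) (Real.rpow_pos_of_pos (by have := hx 0; positivity) _) ℓ Δ T
    (fun k => {α | ⌊α * x (k + 1)⌋₊ ≡ r k [MOD d k] ∧
      Far (c * f (R k)) (α * x (k + 1))}) hℓpos ?_ ?_ hΔpos ?_ ?_ ?_ ?_
  · have h2 : ENNReal.ofReal (1 - ε) = (s : ℝ≥0∞) := by
      rw [← hsr]
      exact ENNReal.ofReal_coe_nnreal
    rw [h2]
    refine key.trans (dimH_mono ?_)
    rintro α ⟨hα1, hα2, hα3⟩
    exact ⟨by linarith, by linarith, hα3⟩
  · -- `ℓ → 0`
    have h3 : Tendsto (fun k => 2 * x k) atTop atTop := hxt.const_mul_atTop (by norm_num)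
    have h4 : Tendsto (fun k => (2 * x k)⁻¹) atTop (𝓝 0) := h3.inv_tendsto_atTop
    simpa only [hℓ, one_div] using h4
  · -- `ℓ 0 ≤ b - a`
    rw [hba]
    simp only [hℓ]
    rw [div_le_iff₀ (by have := hx 0; positivity)]
    linarith
  · intro k
    have h2 := (hTy k).2
    have h3 := hΔpos k
    calc 2 * (T k : ℝ) * Δ k = T k * (2 * Δ k) := by ring
      _ ≤ (R k) ^ (1 - ε / 2) / 8 * (2 * Δ k) := by gcongr
      _ = ℓ k := hid k
  · intro k
    have h2 := (hTy k).1
    have h3 := hΔpos k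
    calc ℓ k = (R k) ^ (1 - ε / 2) / 16 * (4 * Δ k) := by rw [← hid k]; ring
      _ ≤ T k * (4 * Δ k) := by gcongr
      _ ≤ 8 * T k * Δ k := by
        have : (0 : ℝ) ≤ T k := Nat.cast_nonneg _
        nlinarith [mul_nonneg this h3.le]
  · intro k
    -- `∏ T ≥ (x k / x 0)^(1 - ε)`
    have h2 : ∀ k, (x k / x 0) ^ (1 - ε) ≤ ∏ i ∈ Finset.range k, (T i : ℝ) := by
      intro k
      induction k with
      | zero => simp [(hx 0).ne']
      | succ k ih =>
        rw [Finset.prod_range_succ]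
        have h3 : (x (k + 1) / x 0) ^ (1 - ε) =
            (x k / x 0) ^ (1 - ε) * (R k) ^ (1 - ε) := by
          rw [← Real.mul_rpow (div_pos (hx _) (hx _)).le (hRpos _).le]
          congr 1
          rw [hRx]
          ring
        rw [h3]
        apply mul_le_mul ih _ (Real.rpow_pos_of_pos (hRpos _) _).le
          (Finset.prod_nonneg fun i _ => Nat.cast_nonneg _)
        have h4 := (hN0 k).2
        have h5 : (R k) ^ (1 - ε / 2) = (R k) ^ (1 - ε) * (R k) ^ (ε / 2) := by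
          rw [← Real.rpow_add (hRpos _)]
          congr 1
          ring
        refine le_trans ?_ (hTy k).1
        rw [le_div_iff₀ (by norm_num), h5]
        exact mul_le_mul_of_nonneg_left h4.1 (Real.rpow_pos_of_pos (hRpos _) _).le
    refine le_trans (le_of_eq ?_) (h2 k)
    rw [hsr]
    simp only [hℓ]
    have h5 := hx 0
    have h6 := hx k
    have h7 : (1 / (2 * x k)) ^ (-(1 - ε)) = (2 * x k) ^ (1 - ε) := by
      rw [one_div, Real.inv_rpow (by positivity), Real.rpow_neg (by positivity), inv_inv]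
    rw [h7, Real.rpow_neg (by positivity), ← Real.inv_rpow (by positivity),
      ← Real.mul_rpow (by positivity) (by positivity)]
    congr 1
    field_simp
  · intro k w hw1 hw2
    obtain ⟨h3, h5⟩ := hN0 k
    have h4 := hdR k
    have hxk := hx (k + 1)
    have hw0 : 0 < w := by linarith
    have hΔk : Δ k * x (k + 1) = 2 * (R k) ^ (ε / 2) := by
      simp only [hΔ]
      field_simp
    obtain ⟨n, hn1, hn2, hn3, hn4⟩ := h3 (d k) (r k) (hd _) (hdB _)
      (by convert h4 using 2; ring) (w * x (k + 1)) (by positivity)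
    have hℓk : ℓ (k + 1) * x (k + 1) = 1 / 2 := by
      simp only [hℓ]
      field_simp
    refine ⟨n / x (k + 1), ?_, ?_, ?_⟩
    · rw [le_div_iff₀ hxk]
      exact hn2.le
    · have h7 : n / x (k + 1) * x (k + 1) = n := by field_simp
      have h8 : (n / x (k + 1) + ℓ (k + 1)) * x (k + 1) ≤ (w + Δ k) * x (k + 1) := by
        rw [add_mul, add_mul, h7, hℓk, hΔk]
        have := h5.1
        linarith
      exact le_of_mul_le_mul_right h8 hxk
    · intro α hα
      obtain ⟨hα1, hα2⟩ := hα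
      have h8 : (n : ℝ) ≤ α * x (k + 1) := by
        rw [div_le_iff₀ hxk] at hα1
        exact hα1
      have h9 : α * x (k + 1) < n + 1 := by
        have h10 : α * x (k + 1) ≤ (n / x (k + 1) + ℓ (k + 1)) * x (k + 1) :=
          mul_le_mul_of_nonneg_right hα2 hxk.le
        have h7 : n / x (k + 1) * x (k + 1) = n := by field_simp
        rw [add_mul, h7, hℓk] at h10
        linarith
      have h11 : ⌊α * x (k + 1)⌋₊ = n := by
        rw [Nat.floor_eq_iff (by linarith [Nat.cast_nonneg (α := ℝ) n])]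
        exact ⟨h8, h9⟩
      refine ⟨by rw [h11]; exact hn1, hn4 _ h8 h9⟩


end Pool.Agent.Q273.CG
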