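import Mathlib
import Pool.Agent.Q273.CG.Uni

set_option autoImplicit false

namespace Pool.Agent.Q273.CG

open Set Filter Topology MeasureTheory
open scoped ENNReal NNReal

/-- `g(n) = q(n) - n`, where `q(n)` is the least prime `> n`. -/
noncomputable def ggap (n : ℕ) : ℕ := sInf {p : ℕ | p.Prime ∧ n < p} - n

theorem Far.lt_gap {H y : ℝ} (hy : 0 ≤ y) (h : Far H y) : H < ggap ⌊y⌋₊ := by
  set n : ℕ := ⌊y⌋₊ with hn
  have hne : {p : ℕ | p.Prime ∧ n < p}.Nonempty := by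
    obtain ⟨p, hp1, hp2⟩ := Nat.exists_infinite_primes (n + 1)
    exact ⟨p, hp2, by omega⟩
  obtain ⟨hq1, hq2⟩ := Nat.sInf_mem hne
  set q : ℕ := sInf {p : ℕ | p.Prime ∧ n < p} with hq
  have h1 := h q hq1
  have h2 : y < n + 1 := Nat.lt_floor_add_one y
  have h3 : (n : ℝ) ≤ y := Nat.floor_le hy
  have h4 : ((n + 1 : ℕ) : ℝ) ≤ q := by exact_mod_cast hq2
  push_cast at h4
  rw [abs_of_nonneg (by linarith)] at h1
  have h5 : (ggap n : ℝ) = q - n := by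
    unfold ggap
    rw [← hq, Nat.cast_sub hq2.le]
  rw [h5]
  linarith

/-- powers of a large base -/
theorem uni_pow (ε : ℝ) (h0 : 0 < ε) (h1 : ε < 1) : ∃ c b₀ : ℝ, 0 < c ∧ 1 < b₀ ∧
    ∀ b : ℝ, b₀ ≤ b → ENNReal.ofReal (1 - ε) ≤
      dimH {α : ℝ | 1 < α ∧ α < 2 ∧ ∀ n : ℕ, 1 ≤ n → Far (c * f b) (α * b ^ n)} := by
  obtain ⟨c, R₀, hc, hR₀, h⟩ := uni_core ε h0 h1 0
  refine ⟨c, R₀, hc, hR₀, fun b hb => ?_⟩
  have hb0 : 0 < b := by linarith
  have hr : ∀ n : ℕ, b ^ (n + 1) / b ^ n = b := fun n => by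
    rw [pow_succ]; field_simp
  have h2 := h (fun n => b ^ n) (fun n => by positivity) (fun n => by rw [hr]; exact hb)
    (fun _ => 1) (fun _ => 0) (fun _ => le_rfl)
    (fun _ p hp hp1 => absurd (Nat.dvd_one.1 hp1) hp.one_lt.ne')
    (fun n => by
      rw [hr]
      simpa using Real.one_le_rpow (by linarith : 1 ≤ b) (by positivity : 0 ≤ ε / 4))
    1 2 (by norm_num) (by norm_num) (by norm_num)
  refine h2.trans (dimH_mono ?_)
  rintro α ⟨h3, h4, h5⟩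
  refine ⟨h3, h4, fun n hn => ?_⟩
  obtain ⟨m, rfl⟩ := Nat.exists_eq_add_of_le' hn
  have h6 := (h5 m).2
  rw [hr] at h6
  exact h6

end Pool.Agent.Q273.CG
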